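import Pool.Agent.Helper32.EH.Near

set_option autoImplicit false

namespace Pool.Agent.Helper32.EH

variable {V : Type} [DecidableEq V]

/-- the labels of the substitution word -/
theorem lb_at (w : ℤ → V) (a b c : ℤ → Finset V) (k j : ℤ) (h0 : 0 ≤ j) (h1 : j ≤ 36) :
    lb w a b c (37 * k + j) =
      if j = 1 then {w (k - 1), w k}
      else if j = 35 then {w k, w (k + 1)}
      else if j = 4 ∨ j = 7 ∨ j = 22 ∨ j = 29 ∨ j = 32 then {w k}
      else if j = 9 ∨ j = 24 ∨ j = 27 then a k ∪ b k ∪ c k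
      else if j = 12 then a k
      else if j = 14 then insert (w k) (b k ∪ c k)
      else if j = 17 then c k
      else if j = 19 then insert (w k) (a k ∪ b k)
      else ∅ := by
  have e1 : (37 * k + j) / 37 = k := by omega
  have e2 : (37 * k + j) % 37 = j := by omega
  unfold lb
  rw [e1, e2]

/-- adjacency of the vertices around a block -/
theorem ww_adj {G : SimpleGraph V} {D : V → Prop} {w : ℤ → V} {a b c : ℤ → Finset V}
    (hL : Lay G D w a b c) (k : ℤ) : G.Adj (w k) (w (k + 1)) :=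
  (hL.adj k _ (hL.wD _)).2 (Or.inr (Or.inl rfl))

theorem wu_adj {G : SimpleGraph V} {D : V → Prop} {w : ℤ → V} {a b c : ℤ → Finset V}
    (hL : Lay G D w a b c) (hDU : ∀ k, ∀ x ∈ a k ∪ b k ∪ c k, D x) (k : ℤ) {x : V}
    (hx : x ∈ a k ∪ b k ∪ c k) : G.Adj (w k) x :=
  (hL.adj k _ (hDU k x hx)).2 (Or.inr (Or.inr hx))

/-- every label is a clique -/
theorem lb_clique {G : SimpleGraph V} {D : V → Prop} {w : ℤ → V} {a b c : ℤ → Finset V}
    (hL : Lay G D w a b c) (hDU : ∀ k, ∀ x ∈ a k ∪ b k ∪ c k, D x) (p : ℤ) :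
    ∀ x ∈ lb w a b c p, ∀ y ∈ lb w a b c p, x ≠ y → G.Adj x y := by
  intro x hx y hy hxy
  -- either two consecutive path vertices or inside insert (w k) (abc k)
  have key : (∃ k, (x = w k ∨ x = w (k + 1)) ∧ (y = w k ∨ y = w (k + 1))) ∨
      (∃ k, (x = w k ∨ x ∈ a k ∪ b k ∪ c k) ∧ (y = w k ∨ y ∈ a k ∪ b k ∪ c k)) := by
    unfold lb at hx hy
    split_ifs at hx hy
    · left
      refine ⟨p / 37 - 1, ?_⟩
      simp only [Finset.mem_insert, Finset.mem_singleton] at hx hy
      rw [sub_add_cancel]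
      exact ⟨hx, hy⟩
    · left
      refine ⟨p / 37, ?_⟩
      simp only [Finset.mem_insert, Finset.mem_singleton] at hx hy
      exact ⟨hx, hy⟩
    · right
      refine ⟨p / 37, ?_⟩
      simp only [Finset.mem_singleton] at hx hy
      exact ⟨Or.inl hx, Or.inl hy⟩
    · right
      exact ⟨p / 37, Or.inr hx, Or.inr hy⟩
    · right
      refine ⟨p / 37, Or.inr ?_, Or.inr ?_⟩
      · simp [hx]
      · simp [hy]
    · right
      refine ⟨p / 37, ?_, ?_⟩
      · simp only [Finset.mem_insert, Finset.mem_union] at hx ⊢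
        tauto
      · simp only [Finset.mem_insert, Finset.mem_union] at hy ⊢
        tauto
    · right
      refine ⟨p / 37, Or.inr ?_, Or.inr ?_⟩
      · simp [hx]
      · simp [hy]
    · right
      refine ⟨p / 37, ?_, ?_⟩
      · simp only [Finset.mem_insert, Finset.mem_union] at hx ⊢
        tauto
      · simp only [Finset.mem_insert, Finset.mem_union] at hy ⊢
        tauto
    · simp at hx
  rcases key with ⟨k, hx', hy'⟩ | ⟨k, hx', hy'⟩
  · rcases hx' with rfl | rfl <;> rcases hy' with rfl | rfl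
    · exact absurd rfl hxy
    · exact ww_adj hL k
    · exact (ww_adj hL k).symm
    · exact absurd rfl hxy
  · rcases hx' with rfl | hx' <;> rcases hy' with rfl | hy'
    · exact absurd rfl hxy
    · exact wu_adj hL hDU k hy'
    · exact (wu_adj hL hDU k hx').symm
    · exact hL.clique k x hx' y hy' hxy

/-- the working hypotheses of this file -/
structure Ctx (G : SimpleGraph V) (L : ℤ → Finset V) (A : Finset V) (B : Finset ℤ) : Prop where
  h : Hol G L A B
  hE : Even (A.card + B.card)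
  hcl : ∀ p : ℤ, ∀ x ∈ L p, ∀ y ∈ L p, x ≠ y → G.Adj x y

section

variable {G : SimpleGraph V} {L : ℤ → Finset V} {A : Finset V} {B : Finset ℤ}

theorem Ctx.one (hC : Ctx G L A B) {p : ℤ} (hp : p ∈ B) : (L p ∩ A).card ≤ 1 := by
  by_contra hcon
  have h3 := tri_pos hC.h hC.hcl p hp (by omega)
  have hE := hC.hE
  rw [h3] at hE
  exact absurd hE (by decide)

theorem Ctx.uniq (hC : Ctx G L A B) {p : ℤ} (hp : p ∈ B) {x y : V} (hx : x ∈ L p) (hxA : x ∈ A)
    (hy : y ∈ L p) (hyA : y ∈ A) : x = y :=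
  Finset.card_le_one.1 (hC.one hp) x (Finset.mem_inter.2 ⟨hx, hxA⟩) y
    (Finset.mem_inter.2 ⟨hy, hyA⟩)

theorem Ctx.two (hC : Ctx G L A B) {x y z : V} (hx : x ∈ A) (hy : y ∈ A) (hz : z ∈ A)
    (hxy : G.Adj x y) (hxz : G.Adj x z) (hyz : G.Adj y z) : False := by
  have h3 := tri_old hC.h x y z hx hy hz hxy hxz hyz
  have hE := hC.hE
  rw [h3] at hE
  exact absurd hE (by decide)

/-- a position with free label has both neighbours -/
theorem Ctx.free (hC : Ctx G L A B) {p : ℤ} (hp : p ∈ B) (hf : L p ∩ A = ∅) :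
    p - 1 ∈ B ∧ p + 1 ∈ B := by
  have := hC.h.degB p hp
  rw [hf, Finset.card_empty] at this
  constructor
  · by_contra hcon
    rw [if_neg hcon] at this
    split_ifs at this <;> omega
  · by_contra hcon
    rw [if_neg hcon] at this
    split_ifs at this <;> omega

/-- an attached position has exactly one neighbour -/
theorem Ctx.att (hC : Ctx G L A B) {p : ℤ} (hp : p ∈ B) {x : V} (hx : x ∈ L p) (hxA : x ∈ A) :
    (p - 1 ∈ B ↔ p + 1 ∉ B) := by
  have h1 := hC.h.degB p hp
  have h2 := hC.one hp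
  have h3 : 0 < (L p ∩ A).card := Finset.card_pos.2 ⟨x, Finset.mem_inter.2 ⟨hx, hxA⟩⟩
  constructor
  · intro h4 h5
    rw [if_pos h4, if_pos h5] at h1
    omega
  · intro h4
    by_contra h5
    rw [if_neg h4, if_neg h5] at h1
    omega

/-- a run of `B` between two attached positions with the wrong parity is impossible -/
theorem Ctx.run (hC : Ctx G L A B) {q q' : ℤ} (hlt : q < q')
    (hI : ∀ p : ℤ, q ≤ p → p ≤ q' → p ∈ B) {x y : V} (hx : x ∈ L q) (hxA : x ∈ A)
    (hy : y ∈ L q') (hyA : y ∈ A)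
    (hpar : (x = y ∧ Odd (q' - q)) ∨ (G.Adj x y ∧ Even (q' - q))) : False := by
  have hq := hI q le_rfl hlt.le
  have hq' := hI q' hlt.le le_rfl
  have hl : q - 1 ∉ B := fun h1 => ((hC.att hq hx hxA).1 h1) (hI (q + 1) (by omega) (by omega))
  have hr : q' + 1 ∉ B :=
    (hC.att hq' hy hyA).1 (hI (q' - 1) (by omega) (by omega))
  have hE : Even ((A.card + B.card : ℕ) : ℤ) := (Int.even_coe_nat _).2 hC.hE
  rcases hpar with ⟨rfl, ho⟩ | ⟨had, he⟩
  · have := near hC.h q q' hlt hI hl hr x x hxA hyA hx hy (Or.inl rfl)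
    rw [if_pos rfl] at this
    rw [this] at hE
    obtain ⟨m, hm⟩ := ho
    obtain ⟨n, hn⟩ := hE
    omega
  · have := near hC.h q q' hlt hI hl hr x y hxA hyA hx hy (Or.inr had)
    rw [if_neg had.ne] at this
    rw [this] at hE
    obtain ⟨m, hm⟩ := he
    obtain ⟨n, hn⟩ := hE
    omega

/-- propagation through free positions -/
theorem Ctx.prop_right (hC : Ctx G L A B) {q q' : ℤ}
    (hf : ∀ p : ℤ, q < p → p < q' → L p ∩ A = ∅) {p : ℤ} (h1 : q < p) (hp : p ∈ B) :
    ∀ n : ℕ, p + n ≤ q' → p + n ∈ B := by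
  intro n
  induction n with
  | zero => intro _; simpa using hp
  | succ n ih =>
    intro hn
    push_cast at hn ⊢
    have h2 := ih (by omega)
    have h3 := (hC.free h2 (hf _ (by omega) (by omega))).2
    rw [show p + ((n : ℤ) + 1) = p + n + 1 by ring]
    exact h3

theorem Ctx.prop_left (hC : Ctx G L A B) {q q' : ℤ}
    (hf : ∀ p : ℤ, q < p → p < q' → L p ∩ A = ∅) {p : ℤ} (h1 : p < q') (hp : p ∈ B) :
    ∀ n : ℕ, q ≤ p - n → p - n ∈ B := by
  intro n
  induction n with
  | zero => intro _; simpa using hp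
  | succ n ih =>
    intro hn
    push_cast at hn ⊢
    have h2 := ih (by omega)
    have h3 := (hC.free h2 (hf _ (by omega) (by omega))).1
    rw [show p - ((n : ℤ) + 1) = p - n - 1 by ring]
    exact h3

/-- all positions between (inclusive) are in `B` if one strictly between is -/
theorem Ctx.fill (hC : Ctx G L A B) {q q' : ℤ}
    (hf : ∀ p : ℤ, q < p → p < q' → L p ∩ A = ∅) {p : ℤ} (h1 : q < p) (h2 : p < q')
    (hp : p ∈ B) : ∀ r : ℤ, q ≤ r → r ≤ q' → r ∈ B := by
  intro r hr1 hr2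
  rcases le_total p r with h | h
  · have := hC.prop_right hf h1 hp (r - p).toNat (by omega)
    rwa [show p + ((r - p).toNat : ℤ) = r by omega] at this
  · have := hC.prop_left hf h2 hp (p - r).toNat (by omega)
    rwa [show p - ((p - r).toNat : ℤ) = r by omega] at this

/-- no position strictly between two attached positions with the wrong parity -/
theorem Ctx.sec (hC : Ctx G L A B) {q q' : ℤ}
    (hf : ∀ p : ℤ, q < p → p < q' → L p ∩ A = ∅) {x y : V} (hx : x ∈ L q) (hxA : x ∈ A)
    (hy : y ∈ L q') (hyA : y ∈ A)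
    (hpar : (x = y ∧ Odd (q' - q)) ∨ (G.Adj x y ∧ Even (q' - q))) :
    ∀ p : ℤ, q < p → p < q' → p ∉ B := by
  intro p h1 h2 hp
  exact hC.run (by omega) (hC.fill hf h1 h2 hp) hx hxA hy hyA hpar


/-- a position without neighbours in `B` is not in `B` -/
theorem Ctx.lonely (hC : Ctx G L A B) {p : ℤ} (h1 : p - 1 ∉ B) (h2 : p + 1 ∉ B) : p ∉ B := by
  intro hp
  have h3 := hC.h.degB p hp
  have h4 := hC.one hp
  rw [if_neg h1, if_neg h2] at h3
  omega

end

/-- offsets whose label contains `w k` -/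
def cw (j : ℤ) : Prop :=
  j = 1 ∨ j = 35 ∨ j = 4 ∨ j = 7 ∨ j = 22 ∨ j = 29 ∨ j = 32 ∨ j = 14 ∨ j = 19
/-- offsets whose label contains `a k` -/
def ca (j : ℤ) : Prop := j = 9 ∨ j = 24 ∨ j = 27 ∨ j = 12 ∨ j = 19
/-- offsets whose label contains `b k` -/
def cb (j : ℤ) : Prop := j = 9 ∨ j = 24 ∨ j = 27 ∨ j = 14 ∨ j = 19
/-- offsets whose label contains `c k` -/
def cc (j : ℤ) : Prop := j = 9 ∨ j = 24 ∨ j = 27 ∨ j = 14 ∨ j = 17
/-- labelled offsets -/
def c14 (j : ℤ) : Prop := j = 1 ∨ j = 4 ∨ j = 7 ∨ j = 9 ∨ j = 12 ∨ j = 14 ∨ j = 17 ∨ j = 19 ∨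
  j = 22 ∨ j = 24 ∨ j = 27 ∨ j = 29 ∨ j = 32 ∨ j = 35

theorem mem_lb (w : ℤ → V) (a b c : ℤ → Finset V) (k j : ℤ) (h0 : 0 ≤ j) (h1 : j ≤ 36) (v : V) :
    v ∈ lb w a b c (37 * k + j) ↔ (v = w k ∧ cw j) ∨ (v ∈ a k ∧ ca j) ∨ (v ∈ b k ∧ cb j) ∨
      (v ∈ c k ∧ cc j) ∨ (v = w (k - 1) ∧ j = 1) ∨ (v = w (k + 1) ∧ j = 35) := by
  rw [lb_at w a b c k j h0 h1]
  by_cases e1 : j = 1
  · subst e1
    simp [cw, ca, cb, cc]
    tauto
  by_cases e2 : j = 35
  · subst e2
    simp [cw, ca, cb, cc]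
  by_cases e3 : j = 4 ∨ j = 7 ∨ j = 22 ∨ j = 29 ∨ j = 32
  · rw [if_neg e1, if_neg e2, if_pos e3]
    rcases e3 with rfl | rfl | rfl | rfl | rfl <;> simp [cw, ca, cb, cc]
  by_cases e4 : j = 9 ∨ j = 24 ∨ j = 27
  · rw [if_neg e1, if_neg e2, if_neg e3, if_pos e4]
    rcases e4 with rfl | rfl | rfl <;> simp [cw, ca, cb, cc]
  by_cases e5 : j = 12
  · subst e5
    simp [cw, ca, cb, cc]
  by_cases e6 : j = 14
  · subst e6
    simp [cw, ca, cb, cc]
  by_cases e7 : j = 17
  · subst e7
    simp [cw, ca, cb, cc]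
  by_cases e8 : j = 19
  · subst e8
    simp [cw, ca, cb, cc]
  rw [if_neg e1, if_neg e2, if_neg e3, if_neg e4, if_neg e5, if_neg e6, if_neg e7, if_neg e8]
  constructor
  · intro h
    simp at h
  · unfold cw ca cb cc
    rintro (⟨-, h⟩ | ⟨-, h⟩ | ⟨-, h⟩ | ⟨-, h⟩ | ⟨-, h⟩ | ⟨-, h⟩) <;> exfalso <;> omega

section

variable {G : SimpleGraph V} {D : V → Prop} {w : ℤ → V} {a b c : ℤ → Finset V}
  {A : Finset V} {B : Finset ℤ}

/-- the positions strictly between the offsets `s` and `s'` are free -/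
theorem fr (k s s' : ℤ) (h0 : 1 ≤ s) (h1 : s' ≤ 35)
    (hw : w k ∉ A ∨ ∀ j, s < j → j < s' → ¬ cw j)
    (ha : (∀ v ∈ a k, v ∉ A) ∨ ∀ j, s < j → j < s' → ¬ ca j)
    (hb : (∀ v ∈ b k, v ∉ A) ∨ ∀ j, s < j → j < s' → ¬ cb j)
    (hc : (∀ v ∈ c k, v ∉ A) ∨ ∀ j, s < j → j < s' → ¬ cc j) :
    ∀ p : ℤ, 37 * k + s < p → p < 37 * k + s' → lb w a b c p ∩ A = ∅ := by
  intro p hp1 hp2
  obtain ⟨j, rfl⟩ : ∃ j, p = 37 * k + j := ⟨p - 37 * k, by ring⟩
  have hj1 : s < j := by omega
  have hj2 : j < s' := by omega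
  ext v
  simp only [Finset.mem_inter, Finset.notMem_empty, iff_false, not_and]
  intro hv hvA
  rw [mem_lb w a b c k j (by omega) (by omega)] at hv
  rcases hv with ⟨rfl, h⟩ | ⟨h', h⟩ | ⟨h', h⟩ | ⟨h', h⟩ | ⟨h', h⟩ | ⟨h', h⟩
  · rcases hw with hw | hw
    · exact hw hvA
    · exact hw j hj1 hj2 h
  · rcases ha with ha | ha
    · exact ha v h' hvA
    · exact ha j hj1 hj2 h
  · rcases hb with hb | hb
    · exact hb v h' hvA
    · exact hb j hj1 hj2 h
  · rcases hc with hc | hc
    · exact hc v h' hvA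
    · exact hc j hj1 hj2 h
  · omega
  · omega

/-- sector lemma inside a block -/
theorem secb (hC : Ctx G (lb w a b c) A B) (k s s' : ℤ) (h0 : 1 ≤ s) (hss : s < s')
    (h1 : s' ≤ 35)
    (hw : w k ∉ A ∨ ∀ j, s < j → j < s' → ¬ cw j)
    (ha : (∀ v ∈ a k, v ∉ A) ∨ ∀ j, s < j → j < s' → ¬ ca j)
    (hb : (∀ v ∈ b k, v ∉ A) ∨ ∀ j, s < j → j < s' → ¬ cb j)
    (hc : (∀ v ∈ c k, v ∉ A) ∨ ∀ j, s < j → j < s' → ¬ cc j)
    {x y : V} (hxA : x ∈ A) (hyA : y ∈ A)
    (hx : (x = w k ∧ cw s) ∨ (x ∈ a k ∧ ca s) ∨ (x ∈ b k ∧ cb s) ∨ (x ∈ c k ∧ cc s))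
    (hy : (y = w k ∧ cw s') ∨ (y ∈ a k ∧ ca s') ∨ (y ∈ b k ∧ cb s') ∨ (y ∈ c k ∧ cc s'))
    (hpar : (x = y ∧ Odd (s' - s)) ∨ (G.Adj x y ∧ Even (s' - s))) :
    ∀ j : ℤ, s < j → j < s' → 37 * k + j ∉ B := by
  intro j hj1 hj2
  have hx' : x ∈ lb w a b c (37 * k + s) := by
    rw [mem_lb w a b c k s (by omega) (by omega)]
    rcases hx with h | h | h | h
    · exact Or.inl h
    · exact Or.inr (Or.inl h)
    · exact Or.inr (Or.inr (Or.inl h))
    · exact Or.inr (Or.inr (Or.inr (Or.inl h)))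
  have hy' : y ∈ lb w a b c (37 * k + s') := by
    rw [mem_lb w a b c k s' (by omega) (by omega)]
    rcases hy with h | h | h | h
    · exact Or.inl h
    · exact Or.inr (Or.inl h)
    · exact Or.inr (Or.inr (Or.inl h))
    · exact Or.inr (Or.inr (Or.inr (Or.inl h)))
  refine hC.sec (fr k s s' h0 h1 hw ha hb hc) hx' hxA hy' hyA ?_ (37 * k + j) (by omega)
    (by omega)
  rw [show 37 * k + s' - (37 * k + s) = s' - s by ring]
  exact hpar

/-- the boundary sector -/
theorem bd (hC : Ctx G (lb w a b c) A B) (k : ℤ) (hA : w k ∈ A ∨ w (k - 1) ∈ A) :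
    37 * k ∉ B ∧ 37 * k - 1 ∉ B := by
  have e1 : 37 * (k - 1) + 35 = 37 * k - 2 := by ring
  have hfree : ∀ p : ℤ, 37 * k - 2 < p → p < 37 * k + 1 → lb w a b c p ∩ A = ∅ := by
    intro p h1 h2
    have : p = 37 * (k - 1) + 36 ∨ p = 37 * k + 0 := by omega
    rcases this with rfl | rfl
    · rw [lb_at w a b c (k - 1) 36 (by omega) (by omega)]
      norm_num
    · rw [lb_at w a b c k 0 (by omega) (by omega)]
      norm_num
  have m1 : ∀ x, x = w k ∨ x = w (k - 1) → x ∈ lb w a b c (37 * k - 2) := by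
    intro x hx
    rw [← e1, lb_at w a b c (k - 1) 35 (by omega) (by omega)]
    norm_num
    tauto
  have m2 : ∀ x, x = w k ∨ x = w (k - 1) → x ∈ lb w a b c (37 * k + 1) := by
    intro x hx
    rw [lb_at w a b c k 1 (by omega) (by omega)]
    norm_num
    tauto
  have key : ∀ x, x = w k ∨ x = w (k - 1) → x ∈ A → ∀ p : ℤ, 37 * k - 2 < p → p < 37 * k + 1 →
      p ∉ B := by
    intro x hx hxA
    refine hC.sec hfree (m1 x hx) hxA (m2 x hx) hxA (Or.inl ⟨rfl, ?_⟩)
    exact ⟨1, by ring⟩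
  rcases hA with h | h
  · exact ⟨key _ (Or.inl rfl) h _ (by omega) (by omega), key _ (Or.inl rfl) h _ (by omega) (by omega)⟩
  · exact ⟨key _ (Or.inr rfl) h _ (by omega) (by omega), key _ (Or.inr rfl) h _ (by omega) (by omega)⟩

/-- if no unlabelled position of the block is in `B` then none is -/
theorem allN (hC : Ctx G (lb w a b c) A B) (k : ℤ) (s s' : ℤ)
    (hz : ∀ j : ℤ, s ≤ j → j ≤ s' → ¬ c14 j → 37 * k + j ∉ B) :
    ∀ j : ℤ, s < j → j < s' → 37 * k + j ∉ B := by
  intro j h1 h2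
  by_cases hj : c14 j
  · apply hC.lonely
    · rw [show 37 * k + j - 1 = 37 * k + (j - 1) by ring]
      apply hz _ (by omega) (by omega)
      unfold c14 at hj ⊢
      omega
    · rw [show 37 * k + j + 1 = 37 * k + (j + 1) by ring]
      apply hz _ (by omega) (by omega)
      unfold c14 at hj ⊢
      omega
  · exact hz j h1.le h2.le hj

end

section

variable {G : SimpleGraph V} {w : ℤ → V} {a b c : ℤ → Finset V}
  {A : Finset V} {B : Finset ℤ}

theorem clsW0 (hC : Ctx G (lb w a b c) A B) (k : ℤ)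
    (hw : w k ∈ A)
    (na : ∀ v ∈ a k, v ∉ A)
    (nb : ∀ v ∈ b k, v ∉ A)
    (nc : ∀ v ∈ c k, v ∉ A)
    (N0 : 37 * k + 0 ∉ B) (N36 : 37 * k + 36 ∉ B) :
    ∀ j : ℤ, 0 ≤ j → j ≤ 36 → 37 * k + j ∉ B := by
  have S1 := secb hC k 1 4 (by norm_num) (by norm_num) (by norm_num)
      (by first | exact Or.inl nw | exact Or.inr (fun j _ _ => by unfold cw; omega))
      (by first | exact Or.inl na | exact Or.inr (fun j _ _ => by unfold ca; omega))
      (by first | exact Or.inl nb | exact Or.inr (fun j _ _ => by unfold cb; omega))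
      (by first | exact Or.inl nc | exact Or.inr (fun j _ _ => by unfold cc; omega))
      hw hw (Or.inl ⟨rfl, by simp [cw]⟩) (Or.inl ⟨rfl, by simp [cw]⟩)
      (Or.inl ⟨rfl, ⟨1, by norm_num⟩⟩)
  have S4 := secb hC k 4 7 (by norm_num) (by norm_num) (by norm_num)
      (by first | exact Or.inl nw | exact Or.inr (fun j _ _ => by unfold cw; omega))
      (by first | exact Or.inl na | exact Or.inr (fun j _ _ => by unfold ca; omega))
      (by first | exact Or.inl nb | exact Or.inr (fun j _ _ => by unfold cb; omega))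
      (by first | exact Or.inl nc | exact Or.inr (fun j _ _ => by unfold cc; omega))
      hw hw (Or.inl ⟨rfl, by simp [cw]⟩) (Or.inl ⟨rfl, by simp [cw]⟩)
      (Or.inl ⟨rfl, ⟨1, by norm_num⟩⟩)
  have S7 := secb hC k 7 14 (by norm_num) (by norm_num) (by norm_num)
      (by first | exact Or.inl nw | exact Or.inr (fun j _ _ => by unfold cw; omega))
      (by first | exact Or.inl na | exact Or.inr (fun j _ _ => by unfold ca; omega))
      (by first | exact Or.inl nb | exact Or.inr (fun j _ _ => by unfold cb; omega))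
      (by first | exact Or.inl nc | exact Or.inr (fun j _ _ => by unfold cc; omega))
      hw hw (Or.inl ⟨rfl, by simp [cw]⟩) (Or.inl ⟨rfl, by simp [cw]⟩)
      (Or.inl ⟨rfl, ⟨3, by norm_num⟩⟩)
  have S14 := secb hC k 14 19 (by norm_num) (by norm_num) (by norm_num)
      (by first | exact Or.inl nw | exact Or.inr (fun j _ _ => by unfold cw; omega))
      (by first | exact Or.inl na | exact Or.inr (fun j _ _ => by unfold ca; omega))
      (by first | exact Or.inl nb | exact Or.inr (fun j _ _ => by unfold cb; omega))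
      (by first | exact Or.inl nc | exact Or.inr (fun j _ _ => by unfold cc; omega))
      hw hw (Or.inl ⟨rfl, by simp [cw]⟩) (Or.inl ⟨rfl, by simp [cw]⟩)
      (Or.inl ⟨rfl, ⟨2, by norm_num⟩⟩)
  have S19 := secb hC k 19 22 (by norm_num) (by norm_num) (by norm_num)
      (by first | exact Or.inl nw | exact Or.inr (fun j _ _ => by unfold cw; omega))
      (by first | exact Or.inl na | exact Or.inr (fun j _ _ => by unfold ca; omega))
      (by first | exact Or.inl nb | exact Or.inr (fun j _ _ => by unfold cb; omega))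
      (by first | exact Or.inl nc | exact Or.inr (fun j _ _ => by unfold cc; omega))
      hw hw (Or.inl ⟨rfl, by simp [cw]⟩) (Or.inl ⟨rfl, by simp [cw]⟩)
      (Or.inl ⟨rfl, ⟨1, by norm_num⟩⟩)
  have S22 := secb hC k 22 29 (by norm_num) (by norm_num) (by norm_num)
      (by first | exact Or.inl nw | exact Or.inr (fun j _ _ => by unfold cw; omega))
      (by first | exact Or.inl na | exact Or.inr (fun j _ _ => by unfold ca; omega))
      (by first | exact Or.inl nb | exact Or.inr (fun j _ _ => by unfold cb; omega))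
      (by first | exact Or.inl nc | exact Or.inr (fun j _ _ => by unfold cc; omega))
      hw hw (Or.inl ⟨rfl, by simp [cw]⟩) (Or.inl ⟨rfl, by simp [cw]⟩)
      (Or.inl ⟨rfl, ⟨3, by norm_num⟩⟩)
  have S29 := secb hC k 29 32 (by norm_num) (by norm_num) (by norm_num)
      (by first | exact Or.inl nw | exact Or.inr (fun j _ _ => by unfold cw; omega))
      (by first | exact Or.inl na | exact Or.inr (fun j _ _ => by unfold ca; omega))
      (by first | exact Or.inl nb | exact Or.inr (fun j _ _ => by unfold cb; omega))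
      (by first | exact Or.inl nc | exact Or.inr (fun j _ _ => by unfold cc; omega))
      hw hw (Or.inl ⟨rfl, by simp [cw]⟩) (Or.inl ⟨rfl, by simp [cw]⟩)
      (Or.inl ⟨rfl, ⟨1, by norm_num⟩⟩)
  have S32 := secb hC k 32 35 (by norm_num) (by norm_num) (by norm_num)
      (by first | exact Or.inl nw | exact Or.inr (fun j _ _ => by unfold cw; omega))
      (by first | exact Or.inl na | exact Or.inr (fun j _ _ => by unfold ca; omega))
      (by first | exact Or.inl nb | exact Or.inr (fun j _ _ => by unfold cb; omega))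
      (by first | exact Or.inl nc | exact Or.inr (fun j _ _ => by unfold cc; omega))
      hw hw (Or.inl ⟨rfl, by simp [cw]⟩) (Or.inl ⟨rfl, by simp [cw]⟩)
      (Or.inl ⟨rfl, ⟨1, by norm_num⟩⟩)
  have hz : ∀ j : ℤ, 0 ≤ j → j ≤ 36 → ¬ c14 j → 37 * k + j ∉ B := by
    intro j h1 h2 h3
    unfold c14 at h3
    have hj : j = 0 ∨ j = 36 ∨ (1 < j ∧ j < 4) ∨ (4 < j ∧ j < 7) ∨ (7 < j ∧ j < 14) ∨ (14 < j ∧ j < 19) ∨ (19 < j ∧ j < 22) ∨ (22 < j ∧ j < 29) ∨ (29 < j ∧ j < 32) ∨ (32 < j ∧ j < 35) := by omega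
    rcases hj with rfl | rfl | ⟨e1, e2⟩ | ⟨e1, e2⟩ | ⟨e1, e2⟩ | ⟨e1, e2⟩ | ⟨e1, e2⟩ | ⟨e1, e2⟩ | ⟨e1, e2⟩ | ⟨e1, e2⟩
    · exact N0
    · exact N36
    · exact S1 j e1 e2
    · exact S4 j e1 e2
    · exact S7 j e1 e2
    · exact S14 j e1 e2
    · exact S19 j e1 e2
    · exact S22 j e1 e2
    · exact S29 j e1 e2
    · exact S32 j e1 e2
  intro j h1 h2
  rcases h1.eq_or_lt with h | h
  · rw [← h]; exact N0
  rcases h2.eq_or_lt with h' | h'
  · rw [h']; exact N36
  exact allN hC k 0 36 hz j h h'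

theorem clsWa (hC : Ctx G (lb w a b c) A B) (k : ℤ)
    (hw : w k ∈ A)
    {xa : V} (ha : xa ∈ a k) (haA : xa ∈ A)
    (nb : ∀ v ∈ b k, v ∉ A)
    (nc : ∀ v ∈ c k, v ∉ A)
    (wa' : G.Adj (w k) xa)
    (N0 : 37 * k + 0 ∉ B) (N36 : 37 * k + 36 ∉ B) :
    ∀ j : ℤ, 0 ≤ j → j ≤ 36 → 37 * k + j ∉ B := by
  have S1 := secb hC k 1 4 (by norm_num) (by norm_num) (by norm_num)
      (by first | exact Or.inl nw | exact Or.inr (fun j _ _ => by unfold cw; omega))
      (by first | exact Or.inl na | exact Or.inr (fun j _ _ => by unfold ca; omega))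
      (by first | exact Or.inl nb | exact Or.inr (fun j _ _ => by unfold cb; omega))
      (by first | exact Or.inl nc | exact Or.inr (fun j _ _ => by unfold cc; omega))
      hw hw (Or.inl ⟨rfl, by simp [cw]⟩) (Or.inl ⟨rfl, by simp [cw]⟩)
      (Or.inl ⟨rfl, ⟨1, by norm_num⟩⟩)
  have S4 := secb hC k 4 7 (by norm_num) (by norm_num) (by norm_num)
      (by first | exact Or.inl nw | exact Or.inr (fun j _ _ => by unfold cw; omega))
      (by first | exact Or.inl na | exact Or.inr (fun j _ _ => by unfold ca; omega))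
      (by first | exact Or.inl nb | exact Or.inr (fun j _ _ => by unfold cb; omega))
      (by first | exact Or.inl nc | exact Or.inr (fun j _ _ => by unfold cc; omega))
      hw hw (Or.inl ⟨rfl, by simp [cw]⟩) (Or.inl ⟨rfl, by simp [cw]⟩)
      (Or.inl ⟨rfl, ⟨1, by norm_num⟩⟩)
  have S7 := secb hC k 7 9 (by norm_num) (by norm_num) (by norm_num)
      (by first | exact Or.inl nw | exact Or.inr (fun j _ _ => by unfold cw; omega))
      (by first | exact Or.inl na | exact Or.inr (fun j _ _ => by unfold ca; omega))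
      (by first | exact Or.inl nb | exact Or.inr (fun j _ _ => by unfold cb; omega))
      (by first | exact Or.inl nc | exact Or.inr (fun j _ _ => by unfold cc; omega))
      hw haA (Or.inl ⟨rfl, by simp [cw]⟩) (Or.inr (Or.inl ⟨ha, by simp [ca]⟩))
      (Or.inr ⟨wa', ⟨1, by norm_num⟩⟩)
  have S9 := secb hC k 9 12 (by norm_num) (by norm_num) (by norm_num)
      (by first | exact Or.inl nw | exact Or.inr (fun j _ _ => by unfold cw; omega))
      (by first | exact Or.inl na | exact Or.inr (fun j _ _ => by unfold ca; omega))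
      (by first | exact Or.inl nb | exact Or.inr (fun j _ _ => by unfold cb; omega))
      (by first | exact Or.inl nc | exact Or.inr (fun j _ _ => by unfold cc; omega))
      haA haA (Or.inr (Or.inl ⟨ha, by simp [ca]⟩)) (Or.inr (Or.inl ⟨ha, by simp [ca]⟩))
      (Or.inl ⟨rfl, ⟨1, by norm_num⟩⟩)
  have S12 := secb hC k 12 14 (by norm_num) (by norm_num) (by norm_num)
      (by first | exact Or.inl nw | exact Or.inr (fun j _ _ => by unfold cw; omega))
      (by first | exact Or.inl na | exact Or.inr (fun j _ _ => by unfold ca; omega))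
      (by first | exact Or.inl nb | exact Or.inr (fun j _ _ => by unfold cb; omega))
      (by first | exact Or.inl nc | exact Or.inr (fun j _ _ => by unfold cc; omega))
      haA hw (Or.inr (Or.inl ⟨ha, by simp [ca]⟩)) (Or.inl ⟨rfl, by simp [cw]⟩)
      (Or.inr ⟨wa'.symm, ⟨1, by norm_num⟩⟩)
  have S14 := secb hC k 14 19 (by norm_num) (by norm_num) (by norm_num)
      (by first | exact Or.inl nw | exact Or.inr (fun j _ _ => by unfold cw; omega))
      (by first | exact Or.inl na | exact Or.inr (fun j _ _ => by unfold ca; omega))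
      (by first | exact Or.inl nb | exact Or.inr (fun j _ _ => by unfold cb; omega))
      (by first | exact Or.inl nc | exact Or.inr (fun j _ _ => by unfold cc; omega))
      hw hw (Or.inl ⟨rfl, by simp [cw]⟩) (Or.inl ⟨rfl, by simp [cw]⟩)
      (Or.inl ⟨rfl, ⟨2, by norm_num⟩⟩)
  have S19 := secb hC k 19 22 (by norm_num) (by norm_num) (by norm_num)
      (by first | exact Or.inl nw | exact Or.inr (fun j _ _ => by unfold cw; omega))
      (by first | exact Or.inl na | exact Or.inr (fun j _ _ => by unfold ca; omega))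
      (by first | exact Or.inl nb | exact Or.inr (fun j _ _ => by unfold cb; omega))
      (by first | exact Or.inl nc | exact Or.inr (fun j _ _ => by unfold cc; omega))
      hw hw (Or.inl ⟨rfl, by simp [cw]⟩) (Or.inl ⟨rfl, by simp [cw]⟩)
      (Or.inl ⟨rfl, ⟨1, by norm_num⟩⟩)
  have S22 := secb hC k 22 24 (by norm_num) (by norm_num) (by norm_num)
      (by first | exact Or.inl nw | exact Or.inr (fun j _ _ => by unfold cw; omega))
      (by first | exact Or.inl na | exact Or.inr (fun j _ _ => by unfold ca; omega))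
      (by first | exact Or.inl nb | exact Or.inr (fun j _ _ => by unfold cb; omega))
      (by first | exact Or.inl nc | exact Or.inr (fun j _ _ => by unfold cc; omega))
      hw haA (Or.inl ⟨rfl, by simp [cw]⟩) (Or.inr (Or.inl ⟨ha, by simp [ca]⟩))
      (Or.inr ⟨wa', ⟨1, by norm_num⟩⟩)
  have S24 := secb hC k 24 27 (by norm_num) (by norm_num) (by norm_num)
      (by first | exact Or.inl nw | exact Or.inr (fun j _ _ => by unfold cw; omega))
      (by first | exact Or.inl na | exact Or.inr (fun j _ _ => by unfold ca; omega))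
      (by first | exact Or.inl nb | exact Or.inr (fun j _ _ => by unfold cb; omega))
      (by first | exact Or.inl nc | exact Or.inr (fun j _ _ => by unfold cc; omega))
      haA haA (Or.inr (Or.inl ⟨ha, by simp [ca]⟩)) (Or.inr (Or.inl ⟨ha, by simp [ca]⟩))
      (Or.inl ⟨rfl, ⟨1, by norm_num⟩⟩)
  have S27 := secb hC k 27 29 (by norm_num) (by norm_num) (by norm_num)
      (by first | exact Or.inl nw | exact Or.inr (fun j _ _ => by unfold cw; omega))
      (by first | exact Or.inl na | exact Or.inr (fun j _ _ => by unfold ca; omega))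
      (by first | exact Or.inl nb | exact Or.inr (fun j _ _ => by unfold cb; omega))
      (by first | exact Or.inl nc | exact Or.inr (fun j _ _ => by unfold cc; omega))
      haA hw (Or.inr (Or.inl ⟨ha, by simp [ca]⟩)) (Or.inl ⟨rfl, by simp [cw]⟩)
      (Or.inr ⟨wa'.symm, ⟨1, by norm_num⟩⟩)
  have S29 := secb hC k 29 32 (by norm_num) (by norm_num) (by norm_num)
      (by first | exact Or.inl nw | exact Or.inr (fun j _ _ => by unfold cw; omega))
      (by first | exact Or.inl na | exact Or.inr (fun j _ _ => by unfold ca; omega))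
      (by first | exact Or.inl nb | exact Or.inr (fun j _ _ => by unfold cb; omega))
      (by first | exact Or.inl nc | exact Or.inr (fun j _ _ => by unfold cc; omega))
      hw hw (Or.inl ⟨rfl, by simp [cw]⟩) (Or.inl ⟨rfl, by simp [cw]⟩)
      (Or.inl ⟨rfl, ⟨1, by norm_num⟩⟩)
  have S32 := secb hC k 32 35 (by norm_num) (by norm_num) (by norm_num)
      (by first | exact Or.inl nw | exact Or.inr (fun j _ _ => by unfold cw; omega))
      (by first | exact Or.inl na | exact Or.inr (fun j _ _ => by unfold ca; omega))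
      (by first | exact Or.inl nb | exact Or.inr (fun j _ _ => by unfold cb; omega))
      (by first | exact Or.inl nc | exact Or.inr (fun j _ _ => by unfold cc; omega))
      hw hw (Or.inl ⟨rfl, by simp [cw]⟩) (Or.inl ⟨rfl, by simp [cw]⟩)
      (Or.inl ⟨rfl, ⟨1, by norm_num⟩⟩)
  have hz : ∀ j : ℤ, 0 ≤ j → j ≤ 36 → ¬ c14 j → 37 * k + j ∉ B := by
    intro j h1 h2 h3
    unfold c14 at h3
    have hj : j = 0 ∨ j = 36 ∨ (1 < j ∧ j < 4) ∨ (4 < j ∧ j < 7) ∨ (7 < j ∧ j < 9) ∨ (9 < j ∧ j < 12) ∨ (12 < j ∧ j < 14) ∨ (14 < j ∧ j < 19) ∨ (19 < j ∧ j < 22) ∨ (22 < j ∧ j < 24) ∨ (24 < j ∧ j < 27) ∨ (27 < j ∧ j < 29) ∨ (29 < j ∧ j < 32) ∨ (32 < j ∧ j < 35) := by omega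
    rcases hj with rfl | rfl | ⟨e1, e2⟩ | ⟨e1, e2⟩ | ⟨e1, e2⟩ | ⟨e1, e2⟩ | ⟨e1, e2⟩ | ⟨e1, e2⟩ | ⟨e1, e2⟩ | ⟨e1, e2⟩ | ⟨e1, e2⟩ | ⟨e1, e2⟩ | ⟨e1, e2⟩ | ⟨e1, e2⟩
    · exact N0
    · exact N36
    · exact S1 j e1 e2
    · exact S4 j e1 e2
    · exact S7 j e1 e2
    · exact S9 j e1 e2
    · exact S12 j e1 e2
    · exact S14 j e1 e2
    · exact S19 j e1 e2
    · exact S22 j e1 e2
    · exact S24 j e1 e2
    · exact S27 j e1 e2
    · exact S29 j e1 e2
    · exact S32 j e1 e2
  intro j h1 h2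
  rcases h1.eq_or_lt with h | h
  · rw [← h]; exact N0
  rcases h2.eq_or_lt with h' | h'
  · rw [h']; exact N36
  exact allN hC k 0 36 hz j h h'

theorem clsWb (hC : Ctx G (lb w a b c) A B) (k : ℤ)
    (hw : w k ∈ A)
    (na : ∀ v ∈ a k, v ∉ A)
    {xb : V} (hb : xb ∈ b k) (hbA : xb ∈ A)
    (nc : ∀ v ∈ c k, v ∉ A)
    (wb' : G.Adj (w k) xb)
    (N0 : 37 * k + 0 ∉ B) (N36 : 37 * k + 36 ∉ B) :
    ∀ j : ℤ, 0 ≤ j → j ≤ 36 → 37 * k + j ∉ B := by
  have S1 := secb hC k 1 4 (by norm_num) (by norm_num) (by norm_num)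
      (by first | exact Or.inl nw | exact Or.inr (fun j _ _ => by unfold cw; omega))
      (by first | exact Or.inl na | exact Or.inr (fun j _ _ => by unfold ca; omega))
      (by first | exact Or.inl nb | exact Or.inr (fun j _ _ => by unfold cb; omega))
      (by first | exact Or.inl nc | exact Or.inr (fun j _ _ => by unfold cc; omega))
      hw hw (Or.inl ⟨rfl, by simp [cw]⟩) (Or.inl ⟨rfl, by simp [cw]⟩)
      (Or.inl ⟨rfl, ⟨1, by norm_num⟩⟩)
  have S4 := secb hC k 4 7 (by norm_num) (by norm_num) (by norm_num)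
      (by first | exact Or.inl nw | exact Or.inr (fun j _ _ => by unfold cw; omega))
      (by first | exact Or.inl na | exact Or.inr (fun j _ _ => by unfold ca; omega))
      (by first | exact Or.inl nb | exact Or.inr (fun j _ _ => by unfold cb; omega))
      (by first | exact Or.inl nc | exact Or.inr (fun j _ _ => by unfold cc; omega))
      hw hw (Or.inl ⟨rfl, by simp [cw]⟩) (Or.inl ⟨rfl, by simp [cw]⟩)
      (Or.inl ⟨rfl, ⟨1, by norm_num⟩⟩)
  have S7 := secb hC k 7 9 (by norm_num) (by norm_num) (by norm_num)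
      (by first | exact Or.inl nw | exact Or.inr (fun j _ _ => by unfold cw; omega))
      (by first | exact Or.inl na | exact Or.inr (fun j _ _ => by unfold ca; omega))
      (by first | exact Or.inl nb | exact Or.inr (fun j _ _ => by unfold cb; omega))
      (by first | exact Or.inl nc | exact Or.inr (fun j _ _ => by unfold cc; omega))
      hw hbA (Or.inl ⟨rfl, by simp [cw]⟩) (Or.inr (Or.inr (Or.inl ⟨hb, by simp [cb]⟩)))
      (Or.inr ⟨wb', ⟨1, by norm_num⟩⟩)
  have S9 := secb hC k 9 14 (by norm_num) (by norm_num) (by norm_num)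
      (by first | exact Or.inl nw | exact Or.inr (fun j _ _ => by unfold cw; omega))
      (by first | exact Or.inl na | exact Or.inr (fun j _ _ => by unfold ca; omega))
      (by first | exact Or.inl nb | exact Or.inr (fun j _ _ => by unfold cb; omega))
      (by first | exact Or.inl nc | exact Or.inr (fun j _ _ => by unfold cc; omega))
      hbA hbA (Or.inr (Or.inr (Or.inl ⟨hb, by simp [cb]⟩))) (Or.inr (Or.inr (Or.inl ⟨hb, by simp [cb]⟩)))
      (Or.inl ⟨rfl, ⟨2, by norm_num⟩⟩)
  have S14 := secb hC k 14 19 (by norm_num) (by norm_num) (by norm_num)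
      (by first | exact Or.inl nw | exact Or.inr (fun j _ _ => by unfold cw; omega))
      (by first | exact Or.inl na | exact Or.inr (fun j _ _ => by unfold ca; omega))
      (by first | exact Or.inl nb | exact Or.inr (fun j _ _ => by unfold cb; omega))
      (by first | exact Or.inl nc | exact Or.inr (fun j _ _ => by unfold cc; omega))
      hbA hbA (Or.inr (Or.inr (Or.inl ⟨hb, by simp [cb]⟩))) (Or.inr (Or.inr (Or.inl ⟨hb, by simp [cb]⟩)))
      (Or.inl ⟨rfl, ⟨2, by norm_num⟩⟩)
  have S19 := secb hC k 19 22 (by norm_num) (by norm_num) (by norm_num)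
      (by first | exact Or.inl nw | exact Or.inr (fun j _ _ => by unfold cw; omega))
      (by first | exact Or.inl na | exact Or.inr (fun j _ _ => by unfold ca; omega))
      (by first | exact Or.inl nb | exact Or.inr (fun j _ _ => by unfold cb; omega))
      (by first | exact Or.inl nc | exact Or.inr (fun j _ _ => by unfold cc; omega))
      hw hw (Or.inl ⟨rfl, by simp [cw]⟩) (Or.inl ⟨rfl, by simp [cw]⟩)
      (Or.inl ⟨rfl, ⟨1, by norm_num⟩⟩)
  have S22 := secb hC k 22 24 (by norm_num) (by norm_num) (by norm_num)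
      (by first | exact Or.inl nw | exact Or.inr (fun j _ _ => by unfold cw; omega))
      (by first | exact Or.inl na | exact Or.inr (fun j _ _ => by unfold ca; omega))
      (by first | exact Or.inl nb | exact Or.inr (fun j _ _ => by unfold cb; omega))
      (by first | exact Or.inl nc | exact Or.inr (fun j _ _ => by unfold cc; omega))
      hw hbA (Or.inl ⟨rfl, by simp [cw]⟩) (Or.inr (Or.inr (Or.inl ⟨hb, by simp [cb]⟩)))
      (Or.inr ⟨wb', ⟨1, by norm_num⟩⟩)
  have S24 := secb hC k 24 27 (by norm_num) (by norm_num) (by norm_num)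
      (by first | exact Or.inl nw | exact Or.inr (fun j _ _ => by unfold cw; omega))
      (by first | exact Or.inl na | exact Or.inr (fun j _ _ => by unfold ca; omega))
      (by first | exact Or.inl nb | exact Or.inr (fun j _ _ => by unfold cb; omega))
      (by first | exact Or.inl nc | exact Or.inr (fun j _ _ => by unfold cc; omega))
      hbA hbA (Or.inr (Or.inr (Or.inl ⟨hb, by simp [cb]⟩))) (Or.inr (Or.inr (Or.inl ⟨hb, by simp [cb]⟩)))
      (Or.inl ⟨rfl, ⟨1, by norm_num⟩⟩)
  have S27 := secb hC k 27 29 (by norm_num) (by norm_num) (by norm_num)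
      (by first | exact Or.inl nw | exact Or.inr (fun j _ _ => by unfold cw; omega))
      (by first | exact Or.inl na | exact Or.inr (fun j _ _ => by unfold ca; omega))
      (by first | exact Or.inl nb | exact Or.inr (fun j _ _ => by unfold cb; omega))
      (by first | exact Or.inl nc | exact Or.inr (fun j _ _ => by unfold cc; omega))
      hbA hw (Or.inr (Or.inr (Or.inl ⟨hb, by simp [cb]⟩))) (Or.inl ⟨rfl, by simp [cw]⟩)
      (Or.inr ⟨wb'.symm, ⟨1, by norm_num⟩⟩)
  have S29 := secb hC k 29 32 (by norm_num) (by norm_num) (by norm_num)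
      (by first | exact Or.inl nw | exact Or.inr (fun j _ _ => by unfold cw; omega))
      (by first | exact Or.inl na | exact Or.inr (fun j _ _ => by unfold ca; omega))
      (by first | exact Or.inl nb | exact Or.inr (fun j _ _ => by unfold cb; omega))
      (by first | exact Or.inl nc | exact Or.inr (fun j _ _ => by unfold cc; omega))
      hw hw (Or.inl ⟨rfl, by simp [cw]⟩) (Or.inl ⟨rfl, by simp [cw]⟩)
      (Or.inl ⟨rfl, ⟨1, by norm_num⟩⟩)
  have S32 := secb hC k 32 35 (by norm_num) (by norm_num) (by norm_num)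
      (by first | exact Or.inl nw | exact Or.inr (fun j _ _ => by unfold cw; omega))
      (by first | exact Or.inl na | exact Or.inr (fun j _ _ => by unfold ca; omega))
      (by first | exact Or.inl nb | exact Or.inr (fun j _ _ => by unfold cb; omega))
      (by first | exact Or.inl nc | exact Or.inr (fun j _ _ => by unfold cc; omega))
      hw hw (Or.inl ⟨rfl, by simp [cw]⟩) (Or.inl ⟨rfl, by simp [cw]⟩)
      (Or.inl ⟨rfl, ⟨1, by norm_num⟩⟩)
  have hz : ∀ j : ℤ, 0 ≤ j → j ≤ 36 → ¬ c14 j → 37 * k + j ∉ B := by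
    intro j h1 h2 h3
    unfold c14 at h3
    have hj : j = 0 ∨ j = 36 ∨ (1 < j ∧ j < 4) ∨ (4 < j ∧ j < 7) ∨ (7 < j ∧ j < 9) ∨ (9 < j ∧ j < 14) ∨ (14 < j ∧ j < 19) ∨ (19 < j ∧ j < 22) ∨ (22 < j ∧ j < 24) ∨ (24 < j ∧ j < 27) ∨ (27 < j ∧ j < 29) ∨ (29 < j ∧ j < 32) ∨ (32 < j ∧ j < 35) := by omega
    rcases hj with rfl | rfl | ⟨e1, e2⟩ | ⟨e1, e2⟩ | ⟨e1, e2⟩ | ⟨e1, e2⟩ | ⟨e1, e2⟩ | ⟨e1, e2⟩ | ⟨e1, e2⟩ | ⟨e1, e2⟩ | ⟨e1, e2⟩ | ⟨e1, e2⟩ | ⟨e1, e2⟩
    · exact N0
    · exact N36
    · exact S1 j e1 e2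
    · exact S4 j e1 e2
    · exact S7 j e1 e2
    · exact S9 j e1 e2
    · exact S14 j e1 e2
    · exact S19 j e1 e2
    · exact S22 j e1 e2
    · exact S24 j e1 e2
    · exact S27 j e1 e2
    · exact S29 j e1 e2
    · exact S32 j e1 e2
  intro j h1 h2
  rcases h1.eq_or_lt with h | h
  · rw [← h]; exact N0
  rcases h2.eq_or_lt with h' | h'
  · rw [h']; exact N36
  exact allN hC k 0 36 hz j h h'

theorem clsWc (hC : Ctx G (lb w a b c) A B) (k : ℤ)
    (hw : w k ∈ A)
    (na : ∀ v ∈ a k, v ∉ A)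
    (nb : ∀ v ∈ b k, v ∉ A)
    {xc : V} (hc : xc ∈ c k) (hcA : xc ∈ A)
    (wc' : G.Adj (w k) xc)
    (N0 : 37 * k + 0 ∉ B) (N36 : 37 * k + 36 ∉ B) :
    ∀ j : ℤ, 0 ≤ j → j ≤ 36 → 37 * k + j ∉ B := by
  have S1 := secb hC k 1 4 (by norm_num) (by norm_num) (by norm_num)
      (by first | exact Or.inl nw | exact Or.inr (fun j _ _ => by unfold cw; omega))
      (by first | exact Or.inl na | exact Or.inr (fun j _ _ => by unfold ca; omega))
      (by first | exact Or.inl nb | exact Or.inr (fun j _ _ => by unfold cb; omega))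
      (by first | exact Or.inl nc | exact Or.inr (fun j _ _ => by unfold cc; omega))
      hw hw (Or.inl ⟨rfl, by simp [cw]⟩) (Or.inl ⟨rfl, by simp [cw]⟩)
      (Or.inl ⟨rfl, ⟨1, by norm_num⟩⟩)
  have S4 := secb hC k 4 7 (by norm_num) (by norm_num) (by norm_num)
      (by first | exact Or.inl nw | exact Or.inr (fun j _ _ => by unfold cw; omega))
      (by first | exact Or.inl na | exact Or.inr (fun j _ _ => by unfold ca; omega))
      (by first | exact Or.inl nb | exact Or.inr (fun j _ _ => by unfold cb; omega))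
      (by first | exact Or.inl nc | exact Or.inr (fun j _ _ => by unfold cc; omega))
      hw hw (Or.inl ⟨rfl, by simp [cw]⟩) (Or.inl ⟨rfl, by simp [cw]⟩)
      (Or.inl ⟨rfl, ⟨1, by norm_num⟩⟩)
  have S7 := secb hC k 7 9 (by norm_num) (by norm_num) (by norm_num)
      (by first | exact Or.inl nw | exact Or.inr (fun j _ _ => by unfold cw; omega))
      (by first | exact Or.inl na | exact Or.inr (fun j _ _ => by unfold ca; omega))
      (by first | exact Or.inl nb | exact Or.inr (fun j _ _ => by unfold cb; omega))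
      (by first | exact Or.inl nc | exact Or.inr (fun j _ _ => by unfold cc; omega))
      hw hcA (Or.inl ⟨rfl, by simp [cw]⟩) (Or.inr (Or.inr (Or.inr ⟨hc, by simp [cc]⟩)))
      (Or.inr ⟨wc', ⟨1, by norm_num⟩⟩)
  have S9 := secb hC k 9 14 (by norm_num) (by norm_num) (by norm_num)
      (by first | exact Or.inl nw | exact Or.inr (fun j _ _ => by unfold cw; omega))
      (by first | exact Or.inl na | exact Or.inr (fun j _ _ => by unfold ca; omega))
      (by first | exact Or.inl nb | exact Or.inr (fun j _ _ => by unfold cb; omega))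
      (by first | exact Or.inl nc | exact Or.inr (fun j _ _ => by unfold cc; omega))
      hcA hcA (Or.inr (Or.inr (Or.inr ⟨hc, by simp [cc]⟩))) (Or.inr (Or.inr (Or.inr ⟨hc, by simp [cc]⟩)))
      (Or.inl ⟨rfl, ⟨2, by norm_num⟩⟩)
  have S14 := secb hC k 14 17 (by norm_num) (by norm_num) (by norm_num)
      (by first | exact Or.inl nw | exact Or.inr (fun j _ _ => by unfold cw; omega))
      (by first | exact Or.inl na | exact Or.inr (fun j _ _ => by unfold ca; omega))
      (by first | exact Or.inl nb | exact Or.inr (fun j _ _ => by unfold cb; omega))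
      (by first | exact Or.inl nc | exact Or.inr (fun j _ _ => by unfold cc; omega))
      hcA hcA (Or.inr (Or.inr (Or.inr ⟨hc, by simp [cc]⟩))) (Or.inr (Or.inr (Or.inr ⟨hc, by simp [cc]⟩)))
      (Or.inl ⟨rfl, ⟨1, by norm_num⟩⟩)
  have S17 := secb hC k 17 19 (by norm_num) (by norm_num) (by norm_num)
      (by first | exact Or.inl nw | exact Or.inr (fun j _ _ => by unfold cw; omega))
      (by first | exact Or.inl na | exact Or.inr (fun j _ _ => by unfold ca; omega))
      (by first | exact Or.inl nb | exact Or.inr (fun j _ _ => by unfold cb; omega))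
      (by first | exact Or.inl nc | exact Or.inr (fun j _ _ => by unfold cc; omega))
      hcA hw (Or.inr (Or.inr (Or.inr ⟨hc, by simp [cc]⟩))) (Or.inl ⟨rfl, by simp [cw]⟩)
      (Or.inr ⟨wc'.symm, ⟨1, by norm_num⟩⟩)
  have S19 := secb hC k 19 22 (by norm_num) (by norm_num) (by norm_num)
      (by first | exact Or.inl nw | exact Or.inr (fun j _ _ => by unfold cw; omega))
      (by first | exact Or.inl na | exact Or.inr (fun j _ _ => by unfold ca; omega))
      (by first | exact Or.inl nb | exact Or.inr (fun j _ _ => by unfold cb; omega))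
      (by first | exact Or.inl nc | exact Or.inr (fun j _ _ => by unfold cc; omega))
      hw hw (Or.inl ⟨rfl, by simp [cw]⟩) (Or.inl ⟨rfl, by simp [cw]⟩)
      (Or.inl ⟨rfl, ⟨1, by norm_num⟩⟩)
  have S22 := secb hC k 22 24 (by norm_num) (by norm_num) (by norm_num)
      (by first | exact Or.inl nw | exact Or.inr (fun j _ _ => by unfold cw; omega))
      (by first | exact Or.inl na | exact Or.inr (fun j _ _ => by unfold ca; omega))
      (by first | exact Or.inl nb | exact Or.inr (fun j _ _ => by unfold cb; omega))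
      (by first | exact Or.inl nc | exact Or.inr (fun j _ _ => by unfold cc; omega))
      hw hcA (Or.inl ⟨rfl, by simp [cw]⟩) (Or.inr (Or.inr (Or.inr ⟨hc, by simp [cc]⟩)))
      (Or.inr ⟨wc', ⟨1, by norm_num⟩⟩)
  have S24 := secb hC k 24 27 (by norm_num) (by norm_num) (by norm_num)
      (by first | exact Or.inl nw | exact Or.inr (fun j _ _ => by unfold cw; omega))
      (by first | exact Or.inl na | exact Or.inr (fun j _ _ => by unfold ca; omega))
      (by first | exact Or.inl nb | exact Or.inr (fun j _ _ => by unfold cb; omega))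
      (by first | exact Or.inl nc | exact Or.inr (fun j _ _ => by unfold cc; omega))
      hcA hcA (Or.inr (Or.inr (Or.inr ⟨hc, by simp [cc]⟩))) (Or.inr (Or.inr (Or.inr ⟨hc, by simp [cc]⟩)))
      (Or.inl ⟨rfl, ⟨1, by norm_num⟩⟩)
  have S27 := secb hC k 27 29 (by norm_num) (by norm_num) (by norm_num)
      (by first | exact Or.inl nw | exact Or.inr (fun j _ _ => by unfold cw; omega))
      (by first | exact Or.inl na | exact Or.inr (fun j _ _ => by unfold ca; omega))
      (by first | exact Or.inl nb | exact Or.inr (fun j _ _ => by unfold cb; omega))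
      (by first | exact Or.inl nc | exact Or.inr (fun j _ _ => by unfold cc; omega))
      hcA hw (Or.inr (Or.inr (Or.inr ⟨hc, by simp [cc]⟩))) (Or.inl ⟨rfl, by simp [cw]⟩)
      (Or.inr ⟨wc'.symm, ⟨1, by norm_num⟩⟩)
  have S29 := secb hC k 29 32 (by norm_num) (by norm_num) (by norm_num)
      (by first | exact Or.inl nw | exact Or.inr (fun j _ _ => by unfold cw; omega))
      (by first | exact Or.inl na | exact Or.inr (fun j _ _ => by unfold ca; omega))
      (by first | exact Or.inl nb | exact Or.inr (fun j _ _ => by unfold cb; omega))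
      (by first | exact Or.inl nc | exact Or.inr (fun j _ _ => by unfold cc; omega))
      hw hw (Or.inl ⟨rfl, by simp [cw]⟩) (Or.inl ⟨rfl, by simp [cw]⟩)
      (Or.inl ⟨rfl, ⟨1, by norm_num⟩⟩)
  have S32 := secb hC k 32 35 (by norm_num) (by norm_num) (by norm_num)
      (by first | exact Or.inl nw | exact Or.inr (fun j _ _ => by unfold cw; omega))
      (by first | exact Or.inl na | exact Or.inr (fun j _ _ => by unfold ca; omega))
      (by first | exact Or.inl nb | exact Or.inr (fun j _ _ => by unfold cb; omega))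
      (by first | exact Or.inl nc | exact Or.inr (fun j _ _ => by unfold cc; omega))
      hw hw (Or.inl ⟨rfl, by simp [cw]⟩) (Or.inl ⟨rfl, by simp [cw]⟩)
      (Or.inl ⟨rfl, ⟨1, by norm_num⟩⟩)
  have hz : ∀ j : ℤ, 0 ≤ j → j ≤ 36 → ¬ c14 j → 37 * k + j ∉ B := by
    intro j h1 h2 h3
    unfold c14 at h3
    have hj : j = 0 ∨ j = 36 ∨ (1 < j ∧ j < 4) ∨ (4 < j ∧ j < 7) ∨ (7 < j ∧ j < 9) ∨ (9 < j ∧ j < 14) ∨ (14 < j ∧ j < 17) ∨ (17 < j ∧ j < 19) ∨ (19 < j ∧ j < 22) ∨ (22 < j ∧ j < 24) ∨ (24 < j ∧ j < 27) ∨ (27 < j ∧ j < 29) ∨ (29 < j ∧ j < 32) ∨ (32 < j ∧ j < 35) := by omega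
    rcases hj with rfl | rfl | ⟨e1, e2⟩ | ⟨e1, e2⟩ | ⟨e1, e2⟩ | ⟨e1, e2⟩ | ⟨e1, e2⟩ | ⟨e1, e2⟩ | ⟨e1, e2⟩ | ⟨e1, e2⟩ | ⟨e1, e2⟩ | ⟨e1, e2⟩ | ⟨e1, e2⟩ | ⟨e1, e2⟩
    · exact N0
    · exact N36
    · exact S1 j e1 e2
    · exact S4 j e1 e2
    · exact S7 j e1 e2
    · exact S9 j e1 e2
    · exact S14 j e1 e2
    · exact S17 j e1 e2
    · exact S19 j e1 e2
    · exact S22 j e1 e2
    · exact S24 j e1 e2
    · exact S27 j e1 e2
    · exact S29 j e1 e2
    · exact S32 j e1 e2
  intro j h1 h2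
  rcases h1.eq_or_lt with h | h
  · rw [← h]; exact N0
  rcases h2.eq_or_lt with h' | h'
  · rw [h']; exact N36
  exact allN hC k 0 36 hz j h h'

theorem clsIa (hC : Ctx G (lb w a b c) A B) (k : ℤ)
    (nw : w k ∉ A)
    {xa : V} (ha : xa ∈ a k) (haA : xa ∈ A)
    (nb : ∀ v ∈ b k, v ∉ A)
    (nc : ∀ v ∈ c k, v ∉ A) :
    ∀ j : ℤ, 10 ≤ j → j ≤ 26 → 37 * k + j ∉ B := by
  have S9 := secb hC k 9 12 (by norm_num) (by norm_num) (by norm_num)
      (by first | exact Or.inl nw | exact Or.inr (fun j _ _ => by unfold cw; omega))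
      (by first | exact Or.inl na | exact Or.inr (fun j _ _ => by unfold ca; omega))
      (by first | exact Or.inl nb | exact Or.inr (fun j _ _ => by unfold cb; omega))
      (by first | exact Or.inl nc | exact Or.inr (fun j _ _ => by unfold cc; omega))
      haA haA (Or.inr (Or.inl ⟨ha, by simp [ca]⟩)) (Or.inr (Or.inl ⟨ha, by simp [ca]⟩))
      (Or.inl ⟨rfl, ⟨1, by norm_num⟩⟩)
  have S12 := secb hC k 12 19 (by norm_num) (by norm_num) (by norm_num)
      (by first | exact Or.inl nw | exact Or.inr (fun j _ _ => by unfold cw; omega))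
      (by first | exact Or.inl na | exact Or.inr (fun j _ _ => by unfold ca; omega))
      (by first | exact Or.inl nb | exact Or.inr (fun j _ _ => by unfold cb; omega))
      (by first | exact Or.inl nc | exact Or.inr (fun j _ _ => by unfold cc; omega))
      haA haA (Or.inr (Or.inl ⟨ha, by simp [ca]⟩)) (Or.inr (Or.inl ⟨ha, by simp [ca]⟩))
      (Or.inl ⟨rfl, ⟨3, by norm_num⟩⟩)
  have S19 := secb hC k 19 24 (by norm_num) (by norm_num) (by norm_num)
      (by first | exact Or.inl nw | exact Or.inr (fun j _ _ => by unfold cw; omega))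
      (by first | exact Or.inl na | exact Or.inr (fun j _ _ => by unfold ca; omega))
      (by first | exact Or.inl nb | exact Or.inr (fun j _ _ => by unfold cb; omega))
      (by first | exact Or.inl nc | exact Or.inr (fun j _ _ => by unfold cc; omega))
      haA haA (Or.inr (Or.inl ⟨ha, by simp [ca]⟩)) (Or.inr (Or.inl ⟨ha, by simp [ca]⟩))
      (Or.inl ⟨rfl, ⟨2, by norm_num⟩⟩)
  have S24 := secb hC k 24 27 (by norm_num) (by norm_num) (by norm_num)
      (by first | exact Or.inl nw | exact Or.inr (fun j _ _ => by unfold cw; omega))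
      (by first | exact Or.inl na | exact Or.inr (fun j _ _ => by unfold ca; omega))
      (by first | exact Or.inl nb | exact Or.inr (fun j _ _ => by unfold cb; omega))
      (by first | exact Or.inl nc | exact Or.inr (fun j _ _ => by unfold cc; omega))
      haA haA (Or.inr (Or.inl ⟨ha, by simp [ca]⟩)) (Or.inr (Or.inl ⟨ha, by simp [ca]⟩))
      (Or.inl ⟨rfl, ⟨1, by norm_num⟩⟩)
  have hz : ∀ j : ℤ, 10 ≤ j → j ≤ 26 → ¬ c14 j → 37 * k + j ∉ B := by
    intro j h1 h2 h3
    unfold c14 at h3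
    have hj : (9 < j ∧ j < 12) ∨ (12 < j ∧ j < 19) ∨ (19 < j ∧ j < 24) ∨ (24 < j ∧ j < 27) := by omega
    rcases hj with ⟨e1, e2⟩ | ⟨e1, e2⟩ | ⟨e1, e2⟩ | ⟨e1, e2⟩
    · exact S9 j e1 e2
    · exact S12 j e1 e2
    · exact S19 j e1 e2
    · exact S24 j e1 e2
  intro j h1 h2
  rcases h1.eq_or_lt with h | h
  · rw [← h]; exact hz 10 (by norm_num) (by norm_num) (by unfold c14; omega)
  rcases h2.eq_or_lt with h' | h'
  · rw [h']; exact hz 26 (by norm_num) (by norm_num) (by unfold c14; omega)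
  exact allN hC k 10 26 hz j h h'

theorem clsIb (hC : Ctx G (lb w a b c) A B) (k : ℤ)
    (nw : w k ∉ A)
    (na : ∀ v ∈ a k, v ∉ A)
    {xb : V} (hb : xb ∈ b k) (hbA : xb ∈ A)
    (nc : ∀ v ∈ c k, v ∉ A) :
    ∀ j : ℤ, 10 ≤ j → j ≤ 26 → 37 * k + j ∉ B := by
  have S9 := secb hC k 9 14 (by norm_num) (by norm_num) (by norm_num)
      (by first | exact Or.inl nw | exact Or.inr (fun j _ _ => by unfold cw; omega))
      (by first | exact Or.inl na | exact Or.inr (fun j _ _ => by unfold ca; omega))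
      (by first | exact Or.inl nb | exact Or.inr (fun j _ _ => by unfold cb; omega))
      (by first | exact Or.inl nc | exact Or.inr (fun j _ _ => by unfold cc; omega))
      hbA hbA (Or.inr (Or.inr (Or.inl ⟨hb, by simp [cb]⟩))) (Or.inr (Or.inr (Or.inl ⟨hb, by simp [cb]⟩)))
      (Or.inl ⟨rfl, ⟨2, by norm_num⟩⟩)
  have S14 := secb hC k 14 19 (by norm_num) (by norm_num) (by norm_num)
      (by first | exact Or.inl nw | exact Or.inr (fun j _ _ => by unfold cw; omega))
      (by first | exact Or.inl na | exact Or.inr (fun j _ _ => by unfold ca; omega))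
      (by first | exact Or.inl nb | exact Or.inr (fun j _ _ => by unfold cb; omega))
      (by first | exact Or.inl nc | exact Or.inr (fun j _ _ => by unfold cc; omega))
      hbA hbA (Or.inr (Or.inr (Or.inl ⟨hb, by simp [cb]⟩))) (Or.inr (Or.inr (Or.inl ⟨hb, by simp [cb]⟩)))
      (Or.inl ⟨rfl, ⟨2, by norm_num⟩⟩)
  have S19 := secb hC k 19 24 (by norm_num) (by norm_num) (by norm_num)
      (by first | exact Or.inl nw | exact Or.inr (fun j _ _ => by unfold cw; omega))
      (by first | exact Or.inl na | exact Or.inr (fun j _ _ => by unfold ca; omega))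
      (by first | exact Or.inl nb | exact Or.inr (fun j _ _ => by unfold cb; omega))
      (by first | exact Or.inl nc | exact Or.inr (fun j _ _ => by unfold cc; omega))
      hbA hbA (Or.inr (Or.inr (Or.inl ⟨hb, by simp [cb]⟩))) (Or.inr (Or.inr (Or.inl ⟨hb, by simp [cb]⟩)))
      (Or.inl ⟨rfl, ⟨2, by norm_num⟩⟩)
  have S24 := secb hC k 24 27 (by norm_num) (by norm_num) (by norm_num)
      (by first | exact Or.inl nw | exact Or.inr (fun j _ _ => by unfold cw; omega))
      (by first | exact Or.inl na | exact Or.inr (fun j _ _ => by unfold ca; omega))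
      (by first | exact Or.inl nb | exact Or.inr (fun j _ _ => by unfold cb; omega))
      (by first | exact Or.inl nc | exact Or.inr (fun j _ _ => by unfold cc; omega))
      hbA hbA (Or.inr (Or.inr (Or.inl ⟨hb, by simp [cb]⟩))) (Or.inr (Or.inr (Or.inl ⟨hb, by simp [cb]⟩)))
      (Or.inl ⟨rfl, ⟨1, by norm_num⟩⟩)
  have hz : ∀ j : ℤ, 10 ≤ j → j ≤ 26 → ¬ c14 j → 37 * k + j ∉ B := by
    intro j h1 h2 h3
    unfold c14 at h3
    have hj : (9 < j ∧ j < 14) ∨ (14 < j ∧ j < 19) ∨ (19 < j ∧ j < 24) ∨ (24 < j ∧ j < 27) := by omega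
    rcases hj with ⟨e1, e2⟩ | ⟨e1, e2⟩ | ⟨e1, e2⟩ | ⟨e1, e2⟩
    · exact S9 j e1 e2
    · exact S14 j e1 e2
    · exact S19 j e1 e2
    · exact S24 j e1 e2
  intro j h1 h2
  rcases h1.eq_or_lt with h | h
  · rw [← h]; exact hz 10 (by norm_num) (by norm_num) (by unfold c14; omega)
  rcases h2.eq_or_lt with h' | h'
  · rw [h']; exact hz 26 (by norm_num) (by norm_num) (by unfold c14; omega)
  exact allN hC k 10 26 hz j h h'

theorem clsIc (hC : Ctx G (lb w a b c) A B) (k : ℤ)
    (nw : w k ∉ A)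
    (na : ∀ v ∈ a k, v ∉ A)
    (nb : ∀ v ∈ b k, v ∉ A)
    {xc : V} (hc : xc ∈ c k) (hcA : xc ∈ A) :
    ∀ j : ℤ, 10 ≤ j → j ≤ 26 → 37 * k + j ∉ B := by
  have S9 := secb hC k 9 14 (by norm_num) (by norm_num) (by norm_num)
      (by first | exact Or.inl nw | exact Or.inr (fun j _ _ => by unfold cw; omega))
      (by first | exact Or.inl na | exact Or.inr (fun j _ _ => by unfold ca; omega))
      (by first | exact Or.inl nb | exact Or.inr (fun j _ _ => by unfold cb; omega))
      (by first | exact Or.inl nc | exact Or.inr (fun j _ _ => by unfold cc; omega))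
      hcA hcA (Or.inr (Or.inr (Or.inr ⟨hc, by simp [cc]⟩))) (Or.inr (Or.inr (Or.inr ⟨hc, by simp [cc]⟩)))
      (Or.inl ⟨rfl, ⟨2, by norm_num⟩⟩)
  have S14 := secb hC k 14 17 (by norm_num) (by norm_num) (by norm_num)
      (by first | exact Or.inl nw | exact Or.inr (fun j _ _ => by unfold cw; omega))
      (by first | exact Or.inl na | exact Or.inr (fun j _ _ => by unfold ca; omega))
      (by first | exact Or.inl nb | exact Or.inr (fun j _ _ => by unfold cb; omega))
      (by first | exact Or.inl nc | exact Or.inr (fun j _ _ => by unfold cc; omega))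
      hcA hcA (Or.inr (Or.inr (Or.inr ⟨hc, by simp [cc]⟩))) (Or.inr (Or.inr (Or.inr ⟨hc, by simp [cc]⟩)))
      (Or.inl ⟨rfl, ⟨1, by norm_num⟩⟩)
  have S17 := secb hC k 17 24 (by norm_num) (by norm_num) (by norm_num)
      (by first | exact Or.inl nw | exact Or.inr (fun j _ _ => by unfold cw; omega))
      (by first | exact Or.inl na | exact Or.inr (fun j _ _ => by unfold ca; omega))
      (by first | exact Or.inl nb | exact Or.inr (fun j _ _ => by unfold cb; omega))
      (by first | exact Or.inl nc | exact Or.inr (fun j _ _ => by unfold cc; omega))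
      hcA hcA (Or.inr (Or.inr (Or.inr ⟨hc, by simp [cc]⟩))) (Or.inr (Or.inr (Or.inr ⟨hc, by simp [cc]⟩)))
      (Or.inl ⟨rfl, ⟨3, by norm_num⟩⟩)
  have S24 := secb hC k 24 27 (by norm_num) (by norm_num) (by norm_num)
      (by first | exact Or.inl nw | exact Or.inr (fun j _ _ => by unfold cw; omega))
      (by first | exact Or.inl na | exact Or.inr (fun j _ _ => by unfold ca; omega))
      (by first | exact Or.inl nb | exact Or.inr (fun j _ _ => by unfold cb; omega))
      (by first | exact Or.inl nc | exact Or.inr (fun j _ _ => by unfold cc; omega))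
      hcA hcA (Or.inr (Or.inr (Or.inr ⟨hc, by simp [cc]⟩))) (Or.inr (Or.inr (Or.inr ⟨hc, by simp [cc]⟩)))
      (Or.inl ⟨rfl, ⟨1, by norm_num⟩⟩)
  have hz : ∀ j : ℤ, 10 ≤ j → j ≤ 26 → ¬ c14 j → 37 * k + j ∉ B := by
    intro j h1 h2 h3
    unfold c14 at h3
    have hj : (9 < j ∧ j < 14) ∨ (14 < j ∧ j < 17) ∨ (17 < j ∧ j < 24) ∨ (24 < j ∧ j < 27) := by omega
    rcases hj with ⟨e1, e2⟩ | ⟨e1, e2⟩ | ⟨e1, e2⟩ | ⟨e1, e2⟩
    · exact S9 j e1 e2
    · exact S14 j e1 e2
    · exact S17 j e1 e2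
    · exact S24 j e1 e2
  intro j h1 h2
  rcases h1.eq_or_lt with h | h
  · rw [← h]; exact hz 10 (by norm_num) (by norm_num) (by unfold c14; omega)
  rcases h2.eq_or_lt with h' | h'
  · rw [h']; exact hz 26 (by norm_num) (by norm_num) (by unfold c14; omega)
  exact allN hC k 10 26 hz j h h'

theorem clsIab (hC : Ctx G (lb w a b c) A B) (k : ℤ)
    (nw : w k ∉ A)
    {xa : V} (ha : xa ∈ a k) (haA : xa ∈ A)
    {xb : V} (hb : xb ∈ b k) (hbA : xb ∈ A)
    (nc : ∀ v ∈ c k, v ∉ A)
    (ab' : G.Adj xa xb) :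
    ∀ j : ℤ, 10 ≤ j → j ≤ 26 → 37 * k + j ∉ B := by
  have S9 := secb hC k 9 12 (by norm_num) (by norm_num) (by norm_num)
      (by first | exact Or.inl nw | exact Or.inr (fun j _ _ => by unfold cw; omega))
      (by first | exact Or.inl na | exact Or.inr (fun j _ _ => by unfold ca; omega))
      (by first | exact Or.inl nb | exact Or.inr (fun j _ _ => by unfold cb; omega))
      (by first | exact Or.inl nc | exact Or.inr (fun j _ _ => by unfold cc; omega))
      haA haA (Or.inr (Or.inl ⟨ha, by simp [ca]⟩)) (Or.inr (Or.inl ⟨ha, by simp [ca]⟩))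
      (Or.inl ⟨rfl, ⟨1, by norm_num⟩⟩)
  have S12 := secb hC k 12 14 (by norm_num) (by norm_num) (by norm_num)
      (by first | exact Or.inl nw | exact Or.inr (fun j _ _ => by unfold cw; omega))
      (by first | exact Or.inl na | exact Or.inr (fun j _ _ => by unfold ca; omega))
      (by first | exact Or.inl nb | exact Or.inr (fun j _ _ => by unfold cb; omega))
      (by first | exact Or.inl nc | exact Or.inr (fun j _ _ => by unfold cc; omega))
      haA hbA (Or.inr (Or.inl ⟨ha, by simp [ca]⟩)) (Or.inr (Or.inr (Or.inl ⟨hb, by simp [cb]⟩)))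
      (Or.inr ⟨ab', ⟨1, by norm_num⟩⟩)
  have S14 := secb hC k 14 19 (by norm_num) (by norm_num) (by norm_num)
      (by first | exact Or.inl nw | exact Or.inr (fun j _ _ => by unfold cw; omega))
      (by first | exact Or.inl na | exact Or.inr (fun j _ _ => by unfold ca; omega))
      (by first | exact Or.inl nb | exact Or.inr (fun j _ _ => by unfold cb; omega))
      (by first | exact Or.inl nc | exact Or.inr (fun j _ _ => by unfold cc; omega))
      hbA hbA (Or.inr (Or.inr (Or.inl ⟨hb, by simp [cb]⟩))) (Or.inr (Or.inr (Or.inl ⟨hb, by simp [cb]⟩)))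
      (Or.inl ⟨rfl, ⟨2, by norm_num⟩⟩)
  have S19 := secb hC k 19 24 (by norm_num) (by norm_num) (by norm_num)
      (by first | exact Or.inl nw | exact Or.inr (fun j _ _ => by unfold cw; omega))
      (by first | exact Or.inl na | exact Or.inr (fun j _ _ => by unfold ca; omega))
      (by first | exact Or.inl nb | exact Or.inr (fun j _ _ => by unfold cb; omega))
      (by first | exact Or.inl nc | exact Or.inr (fun j _ _ => by unfold cc; omega))
      haA haA (Or.inr (Or.inl ⟨ha, by simp [ca]⟩)) (Or.inr (Or.inl ⟨ha, by simp [ca]⟩))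
      (Or.inl ⟨rfl, ⟨2, by norm_num⟩⟩)
  have S24 := secb hC k 24 27 (by norm_num) (by norm_num) (by norm_num)
      (by first | exact Or.inl nw | exact Or.inr (fun j _ _ => by unfold cw; omega))
      (by first | exact Or.inl na | exact Or.inr (fun j _ _ => by unfold ca; omega))
      (by first | exact Or.inl nb | exact Or.inr (fun j _ _ => by unfold cb; omega))
      (by first | exact Or.inl nc | exact Or.inr (fun j _ _ => by unfold cc; omega))
      haA haA (Or.inr (Or.inl ⟨ha, by simp [ca]⟩)) (Or.inr (Or.inl ⟨ha, by simp [ca]⟩))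
      (Or.inl ⟨rfl, ⟨1, by norm_num⟩⟩)
  have hz : ∀ j : ℤ, 10 ≤ j → j ≤ 26 → ¬ c14 j → 37 * k + j ∉ B := by
    intro j h1 h2 h3
    unfold c14 at h3
    have hj : (9 < j ∧ j < 12) ∨ (12 < j ∧ j < 14) ∨ (14 < j ∧ j < 19) ∨ (19 < j ∧ j < 24) ∨ (24 < j ∧ j < 27) := by omega
    rcases hj with ⟨e1, e2⟩ | ⟨e1, e2⟩ | ⟨e1, e2⟩ | ⟨e1, e2⟩ | ⟨e1, e2⟩
    · exact S9 j e1 e2
    · exact S12 j e1 e2
    · exact S14 j e1 e2
    · exact S19 j e1 e2
    · exact S24 j e1 e2
  intro j h1 h2
  rcases h1.eq_or_lt with h | h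
  · rw [← h]; exact hz 10 (by norm_num) (by norm_num) (by unfold c14; omega)
  rcases h2.eq_or_lt with h' | h'
  · rw [h']; exact hz 26 (by norm_num) (by norm_num) (by unfold c14; omega)
  exact allN hC k 10 26 hz j h h'

theorem clsIac (hC : Ctx G (lb w a b c) A B) (k : ℤ)
    (nw : w k ∉ A)
    {xa : V} (ha : xa ∈ a k) (haA : xa ∈ A)
    (nb : ∀ v ∈ b k, v ∉ A)
    {xc : V} (hc : xc ∈ c k) (hcA : xc ∈ A)
    (ac' : G.Adj xa xc) :
    ∀ j : ℤ, 10 ≤ j → j ≤ 26 → 37 * k + j ∉ B := by
  have S9 := secb hC k 9 12 (by norm_num) (by norm_num) (by norm_num)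
      (by first | exact Or.inl nw | exact Or.inr (fun j _ _ => by unfold cw; omega))
      (by first | exact Or.inl na | exact Or.inr (fun j _ _ => by unfold ca; omega))
      (by first | exact Or.inl nb | exact Or.inr (fun j _ _ => by unfold cb; omega))
      (by first | exact Or.inl nc | exact Or.inr (fun j _ _ => by unfold cc; omega))
      haA haA (Or.inr (Or.inl ⟨ha, by simp [ca]⟩)) (Or.inr (Or.inl ⟨ha, by simp [ca]⟩))
      (Or.inl ⟨rfl, ⟨1, by norm_num⟩⟩)
  have S12 := secb hC k 12 14 (by norm_num) (by norm_num) (by norm_num)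
      (by first | exact Or.inl nw | exact Or.inr (fun j _ _ => by unfold cw; omega))
      (by first | exact Or.inl na | exact Or.inr (fun j _ _ => by unfold ca; omega))
      (by first | exact Or.inl nb | exact Or.inr (fun j _ _ => by unfold cb; omega))
      (by first | exact Or.inl nc | exact Or.inr (fun j _ _ => by unfold cc; omega))
      haA hcA (Or.inr (Or.inl ⟨ha, by simp [ca]⟩)) (Or.inr (Or.inr (Or.inr ⟨hc, by simp [cc]⟩)))
      (Or.inr ⟨ac', ⟨1, by norm_num⟩⟩)
  have S14 := secb hC k 14 17 (by norm_num) (by norm_num) (by norm_num)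
      (by first | exact Or.inl nw | exact Or.inr (fun j _ _ => by unfold cw; omega))
      (by first | exact Or.inl na | exact Or.inr (fun j _ _ => by unfold ca; omega))
      (by first | exact Or.inl nb | exact Or.inr (fun j _ _ => by unfold cb; omega))
      (by first | exact Or.inl nc | exact Or.inr (fun j _ _ => by unfold cc; omega))
      hcA hcA (Or.inr (Or.inr (Or.inr ⟨hc, by simp [cc]⟩))) (Or.inr (Or.inr (Or.inr ⟨hc, by simp [cc]⟩)))
      (Or.inl ⟨rfl, ⟨1, by norm_num⟩⟩)
  have S17 := secb hC k 17 19 (by norm_num) (by norm_num) (by norm_num)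
      (by first | exact Or.inl nw | exact Or.inr (fun j _ _ => by unfold cw; omega))
      (by first | exact Or.inl na | exact Or.inr (fun j _ _ => by unfold ca; omega))
      (by first | exact Or.inl nb | exact Or.inr (fun j _ _ => by unfold cb; omega))
      (by first | exact Or.inl nc | exact Or.inr (fun j _ _ => by unfold cc; omega))
      hcA haA (Or.inr (Or.inr (Or.inr ⟨hc, by simp [cc]⟩))) (Or.inr (Or.inl ⟨ha, by simp [ca]⟩))
      (Or.inr ⟨ac'.symm, ⟨1, by norm_num⟩⟩)
  have S19 := secb hC k 19 24 (by norm_num) (by norm_num) (by norm_num)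
      (by first | exact Or.inl nw | exact Or.inr (fun j _ _ => by unfold cw; omega))
      (by first | exact Or.inl na | exact Or.inr (fun j _ _ => by unfold ca; omega))
      (by first | exact Or.inl nb | exact Or.inr (fun j _ _ => by unfold cb; omega))
      (by first | exact Or.inl nc | exact Or.inr (fun j _ _ => by unfold cc; omega))
      haA haA (Or.inr (Or.inl ⟨ha, by simp [ca]⟩)) (Or.inr (Or.inl ⟨ha, by simp [ca]⟩))
      (Or.inl ⟨rfl, ⟨2, by norm_num⟩⟩)
  have S24 := secb hC k 24 27 (by norm_num) (by norm_num) (by norm_num)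
      (by first | exact Or.inl nw | exact Or.inr (fun j _ _ => by unfold cw; omega))
      (by first | exact Or.inl na | exact Or.inr (fun j _ _ => by unfold ca; omega))
      (by first | exact Or.inl nb | exact Or.inr (fun j _ _ => by unfold cb; omega))
      (by first | exact Or.inl nc | exact Or.inr (fun j _ _ => by unfold cc; omega))
      haA haA (Or.inr (Or.inl ⟨ha, by simp [ca]⟩)) (Or.inr (Or.inl ⟨ha, by simp [ca]⟩))
      (Or.inl ⟨rfl, ⟨1, by norm_num⟩⟩)
  have hz : ∀ j : ℤ, 10 ≤ j → j ≤ 26 → ¬ c14 j → 37 * k + j ∉ B := by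
    intro j h1 h2 h3
    unfold c14 at h3
    have hj : (9 < j ∧ j < 12) ∨ (12 < j ∧ j < 14) ∨ (14 < j ∧ j < 17) ∨ (17 < j ∧ j < 19) ∨ (19 < j ∧ j < 24) ∨ (24 < j ∧ j < 27) := by omega
    rcases hj with ⟨e1, e2⟩ | ⟨e1, e2⟩ | ⟨e1, e2⟩ | ⟨e1, e2⟩ | ⟨e1, e2⟩ | ⟨e1, e2⟩
    · exact S9 j e1 e2
    · exact S12 j e1 e2
    · exact S14 j e1 e2
    · exact S17 j e1 e2
    · exact S19 j e1 e2
    · exact S24 j e1 e2
  intro j h1 h2
  rcases h1.eq_or_lt with h | h
  · rw [← h]; exact hz 10 (by norm_num) (by norm_num) (by unfold c14; omega)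
  rcases h2.eq_or_lt with h' | h'
  · rw [h']; exact hz 26 (by norm_num) (by norm_num) (by unfold c14; omega)
  exact allN hC k 10 26 hz j h h'

theorem clsIbc (hC : Ctx G (lb w a b c) A B) (k : ℤ)
    (nw : w k ∉ A)
    (na : ∀ v ∈ a k, v ∉ A)
    {xb : V} (hb : xb ∈ b k) (hbA : xb ∈ A)
    {xc : V} (hc : xc ∈ c k) (hcA : xc ∈ A)
    (bc' : G.Adj xb xc) :
    ∀ j : ℤ, 10 ≤ j → j ≤ 26 → 37 * k + j ∉ B := by
  have S9 := secb hC k 9 14 (by norm_num) (by norm_num) (by norm_num)
      (by first | exact Or.inl nw | exact Or.inr (fun j _ _ => by unfold cw; omega))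
      (by first | exact Or.inl na | exact Or.inr (fun j _ _ => by unfold ca; omega))
      (by first | exact Or.inl nb | exact Or.inr (fun j _ _ => by unfold cb; omega))
      (by first | exact Or.inl nc | exact Or.inr (fun j _ _ => by unfold cc; omega))
      hbA hbA (Or.inr (Or.inr (Or.inl ⟨hb, by simp [cb]⟩))) (Or.inr (Or.inr (Or.inl ⟨hb, by simp [cb]⟩)))
      (Or.inl ⟨rfl, ⟨2, by norm_num⟩⟩)
  have S14 := secb hC k 14 17 (by norm_num) (by norm_num) (by norm_num)
      (by first | exact Or.inl nw | exact Or.inr (fun j _ _ => by unfold cw; omega))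
      (by first | exact Or.inl na | exact Or.inr (fun j _ _ => by unfold ca; omega))
      (by first | exact Or.inl nb | exact Or.inr (fun j _ _ => by unfold cb; omega))
      (by first | exact Or.inl nc | exact Or.inr (fun j _ _ => by unfold cc; omega))
      hcA hcA (Or.inr (Or.inr (Or.inr ⟨hc, by simp [cc]⟩))) (Or.inr (Or.inr (Or.inr ⟨hc, by simp [cc]⟩)))
      (Or.inl ⟨rfl, ⟨1, by norm_num⟩⟩)
  have S17 := secb hC k 17 19 (by norm_num) (by norm_num) (by norm_num)
      (by first | exact Or.inl nw | exact Or.inr (fun j _ _ => by unfold cw; omega))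
      (by first | exact Or.inl na | exact Or.inr (fun j _ _ => by unfold ca; omega))
      (by first | exact Or.inl nb | exact Or.inr (fun j _ _ => by unfold cb; omega))
      (by first | exact Or.inl nc | exact Or.inr (fun j _ _ => by unfold cc; omega))
      hcA hbA (Or.inr (Or.inr (Or.inr ⟨hc, by simp [cc]⟩))) (Or.inr (Or.inr (Or.inl ⟨hb, by simp [cb]⟩)))
      (Or.inr ⟨bc'.symm, ⟨1, by norm_num⟩⟩)
  have S19 := secb hC k 19 24 (by norm_num) (by norm_num) (by norm_num)
      (by first | exact Or.inl nw | exact Or.inr (fun j _ _ => by unfold cw; omega))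
      (by first | exact Or.inl na | exact Or.inr (fun j _ _ => by unfold ca; omega))
      (by first | exact Or.inl nb | exact Or.inr (fun j _ _ => by unfold cb; omega))
      (by first | exact Or.inl nc | exact Or.inr (fun j _ _ => by unfold cc; omega))
      hbA hbA (Or.inr (Or.inr (Or.inl ⟨hb, by simp [cb]⟩))) (Or.inr (Or.inr (Or.inl ⟨hb, by simp [cb]⟩)))
      (Or.inl ⟨rfl, ⟨2, by norm_num⟩⟩)
  have S24 := secb hC k 24 27 (by norm_num) (by norm_num) (by norm_num)
      (by first | exact Or.inl nw | exact Or.inr (fun j _ _ => by unfold cw; omega))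
      (by first | exact Or.inl na | exact Or.inr (fun j _ _ => by unfold ca; omega))
      (by first | exact Or.inl nb | exact Or.inr (fun j _ _ => by unfold cb; omega))
      (by first | exact Or.inl nc | exact Or.inr (fun j _ _ => by unfold cc; omega))
      hbA hbA (Or.inr (Or.inr (Or.inl ⟨hb, by simp [cb]⟩))) (Or.inr (Or.inr (Or.inl ⟨hb, by simp [cb]⟩)))
      (Or.inl ⟨rfl, ⟨1, by norm_num⟩⟩)
  have hz : ∀ j : ℤ, 10 ≤ j → j ≤ 26 → ¬ c14 j → 37 * k + j ∉ B := by
    intro j h1 h2 h3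
    unfold c14 at h3
    have hj : (9 < j ∧ j < 14) ∨ (14 < j ∧ j < 17) ∨ (17 < j ∧ j < 19) ∨ (19 < j ∧ j < 24) ∨ (24 < j ∧ j < 27) := by omega
    rcases hj with ⟨e1, e2⟩ | ⟨e1, e2⟩ | ⟨e1, e2⟩ | ⟨e1, e2⟩ | ⟨e1, e2⟩
    · exact S9 j e1 e2
    · exact S14 j e1 e2
    · exact S17 j e1 e2
    · exact S19 j e1 e2
    · exact S24 j e1 e2
  intro j h1 h2
  rcases h1.eq_or_lt with h | h
  · rw [← h]; exact hz 10 (by norm_num) (by norm_num) (by unfold c14; omega)
  rcases h2.eq_or_lt with h' | h'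
  · rw [h']; exact hz 26 (by norm_num) (by norm_num) (by unfold c14; omega)
  exact allN hC k 10 26 hz j h h'

end

section

variable {G : SimpleGraph V} {D : V → Prop} {w : ℤ → V} {a b c : ℤ → Finset V}
  {A : Finset V} {B : Finset ℤ}

theorem left0 (hC : Ctx G (lb w a b c) A B) (k : ℤ) (nw : w k ∉ A) (h2 : 37 * k + 2 ∉ B) :
    37 * k + 0 ∉ B ∧ 37 * k + 1 ∉ B := by
  have h0 : 37 * k + 0 ∉ B := by
    intro h0
    have hf : lb w a b c (37 * k + 0) ∩ A = ∅ := by
      rw [lb_at w a b c k 0 (by omega) (by omega)]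
      norm_num
    have h1 : 37 * k + 1 ∈ B := by
      have := (hC.free h0 hf).2
      rwa [show 37 * k + 0 + 1 = 37 * k + 1 by ring] at this
    by_cases hwl : w (k - 1) ∈ A
    · have := (bd hC k (Or.inr hwl)).1
      rw [add_zero] at h0
      exact this h0
    · have hf1 : lb w a b c (37 * k + 1) ∩ A = ∅ := by
        rw [lb_at w a b c k 1 (by omega) (by omega)]
        ext v
        simp only [if_true, Finset.mem_inter, Finset.mem_insert, Finset.mem_singleton,
          Finset.notMem_empty, iff_false, not_and]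
        rintro (rfl | rfl)
        · exact hwl
        · exact nw
      have := (hC.free h1 hf1).2
      rw [show 37 * k + 1 + 1 = 37 * k + 2 by ring] at this
      exact h2 this
  refine ⟨h0, ?_⟩
  apply hC.lonely
  · rwa [show 37 * k + 1 - 1 = 37 * k + 0 by ring]
  · rwa [show 37 * k + 1 + 1 = 37 * k + 2 by ring]

theorem right36 (hC : Ctx G (lb w a b c) A B) (k : ℤ) (nw : w k ∉ A) (h2 : 37 * k + 34 ∉ B) :
    37 * k + 36 ∉ B ∧ 37 * k + 35 ∉ B := by
  have h0 : 37 * k + 36 ∉ B := by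
    intro h0
    have hf : lb w a b c (37 * k + 36) ∩ A = ∅ := by
      rw [lb_at w a b c k 36 (by omega) (by omega)]
      norm_num
    have h1 : 37 * k + 35 ∈ B := by
      have := (hC.free h0 hf).1
      rwa [show 37 * k + 36 - 1 = 37 * k + 35 by ring] at this
    by_cases hwl : w (k + 1) ∈ A
    · have := (bd hC (k + 1) (Or.inl hwl)).2
      rw [show 37 * (k + 1) - 1 = 37 * k + 36 by ring] at this
      exact this h0
    · have hf1 : lb w a b c (37 * k + 35) ∩ A = ∅ := by
        rw [lb_at w a b c k 35 (by omega) (by omega)]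
        rw [if_neg (by norm_num), if_pos rfl]
        ext v
        simp only [Finset.mem_inter, Finset.mem_insert, Finset.mem_singleton,
          Finset.notMem_empty, iff_false, not_and]
        rintro (rfl | rfl)
        · exact nw
        · exact hwl
      have := (hC.free h1 hf1).1
      rw [show 37 * k + 35 - 1 = 37 * k + 34 by ring] at this
      exact h2 this
  refine ⟨h0, ?_⟩
  apply hC.lonely
  · rwa [show 37 * k + 35 - 1 = 37 * k + 34 by ring]
  · rwa [show 37 * k + 35 + 1 = 37 * k + 36 by ring]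

/-- the third kind of block -/
def Third (w : ℤ → V) (a b c : ℤ → Finset V) (A : Finset V) (B : Finset ℤ) (k : ℤ) : Prop :=
  w k ∉ A ∧ ((a k ∪ b k ∪ c k) ∩ A).card = 1 ∧ (∀ j : ℤ, 10 ≤ j → j ≤ 26 → 37 * k + j ∉ B) ∧
    ((∀ j : ℤ, 1 ≤ j → j ≤ 9 → 37 * k + j ∈ B) ∨ (∀ j : ℤ, 0 ≤ j → j ≤ 9 → 37 * k + j ∉ B)) ∧
    ((∀ j : ℤ, 27 ≤ j → j ≤ 35 → 37 * k + j ∈ B) ∨
      (∀ j : ℤ, 27 ≤ j → j ≤ 36 → 37 * k + j ∉ B))

theorem left_or (hC : Ctx G (lb w a b c) A B) (k : ℤ) (nw : w k ∉ A)
    (h10 : 37 * k + 10 ∉ B) :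
    (∀ j : ℤ, 1 ≤ j → j ≤ 9 → 37 * k + j ∈ B) ∨ (∀ j : ℤ, 0 ≤ j → j ≤ 9 → 37 * k + j ∉ B) := by
  by_cases hm : ∃ j : ℤ, 1 < j ∧ j < 9 ∧ 37 * k + j ∈ B
  · left
    obtain ⟨j, h1, h2, h3⟩ := hm
    intro r hr1 hr2
    exact hC.fill (fr k 1 9 (by norm_num) (by norm_num) (Or.inl nw)
      (Or.inr (fun j _ _ => by unfold ca; omega)) (Or.inr (fun j _ _ => by unfold cb; omega))
      (Or.inr (fun j _ _ => by unfold cc; omega))) (p := 37 * k + j) (by omega) (by omega) h3
      (37 * k + r) (by omega) (by omega)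
  · right
    have h28 : ∀ j : ℤ, 1 < j → j < 9 → 37 * k + j ∉ B := fun j h1 h2 h3 => hm ⟨j, h1, h2, h3⟩
    obtain ⟨h0, h1⟩ := left0 hC k nw (h28 2 (by norm_num) (by norm_num))
    have h9 : 37 * k + 9 ∉ B := by
      apply hC.lonely
      · rw [show 37 * k + 9 - 1 = 37 * k + 8 by ring]
        exact h28 8 (by norm_num) (by norm_num)
      · rwa [show 37 * k + 9 + 1 = 37 * k + 10 by ring]
    intro j hj1 hj2
    have : j = 0 ∨ j = 1 ∨ (1 < j ∧ j < 9) ∨ j = 9 := by omega
    rcases this with rfl | rfl | ⟨h1', h2'⟩ | rfl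
    · exact h0
    · exact h1
    · exact h28 j h1' h2'
    · exact h9

theorem right_or (hC : Ctx G (lb w a b c) A B) (k : ℤ) (nw : w k ∉ A)
    (h26 : 37 * k + 26 ∉ B) :
    (∀ j : ℤ, 27 ≤ j → j ≤ 35 → 37 * k + j ∈ B) ∨
      (∀ j : ℤ, 27 ≤ j → j ≤ 36 → 37 * k + j ∉ B) := by
  by_cases hm : ∃ j : ℤ, 27 < j ∧ j < 35 ∧ 37 * k + j ∈ B
  · left
    obtain ⟨j, h1, h2, h3⟩ := hm
    intro r hr1 hr2
    exact hC.fill (fr k 27 35 (by norm_num) (by norm_num) (Or.inl nw)
      (Or.inr (fun j _ _ => by unfold ca; omega)) (Or.inr (fun j _ _ => by unfold cb; omega))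
      (Or.inr (fun j _ _ => by unfold cc; omega))) (p := 37 * k + j) (by omega) (by omega) h3
      (37 * k + r) (by omega) (by omega)
  · right
    have h28 : ∀ j : ℤ, 27 < j → j < 35 → 37 * k + j ∉ B := fun j h1 h2 h3 => hm ⟨j, h1, h2, h3⟩
    obtain ⟨h0, h1⟩ := right36 hC k nw (h28 34 (by norm_num) (by norm_num))
    have h9 : 37 * k + 27 ∉ B := by
      apply hC.lonely
      · rwa [show 37 * k + 27 - 1 = 37 * k + 26 by ring]
      · rw [show 37 * k + 27 + 1 = 37 * k + 28 by ring]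
        exact h28 28 (by norm_num) (by norm_num)
    intro j hj1 hj2
    have : j = 27 ∨ (27 < j ∧ j < 35) ∨ j = 35 ∨ j = 36 := by omega
    rcases this with rfl | ⟨h1', h2'⟩ | rfl | rfl
    · exact h9
    · exact h28 j h1' h2'
    · exact h1
    · exact h0

theorem cls_in (hC : Ctx G (lb w a b c) A B) (k : ℤ) (nw : w k ∉ A) {x : V}
    (hx : x ∈ a k ∪ b k ∪ c k) (hxA : x ∈ A)
    (hin : ∀ j : ℤ, 10 ≤ j → j ≤ 26 → 37 * k + j ∉ B) :
    (∀ j : ℤ, 0 ≤ j → j ≤ 36 → 37 * k + j ∉ B) ∨ Third w a b c A B k := by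
  have hl := left_or hC k nw (hin 10 (by norm_num) (by norm_num))
  have hr := right_or hC k nw (hin 26 (by norm_num) (by norm_num))
  by_cases h1 : ((a k ∪ b k ∪ c k) ∩ A).card = 1
  · exact Or.inr ⟨nw, h1, hin, hl, hr⟩
  · left
    have hpos : 0 < ((a k ∪ b k ∪ c k) ∩ A).card :=
      Finset.card_pos.2 ⟨x, Finset.mem_inter.2 ⟨hx, hxA⟩⟩
    have h9 : 37 * k + 9 ∉ B := by
      intro h9
      have := hC.one h9
      have e : lb w a b c (37 * k + 9) = a k ∪ b k ∪ c k := by
        rw [lb_at w a b c k 9 (by omega) (by omega)]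
        norm_num
      rw [e] at this
      omega
    have h27 : 37 * k + 27 ∉ B := by
      intro h9
      have := hC.one h9
      have e : lb w a b c (37 * k + 27) = a k ∪ b k ∪ c k := by
        rw [lb_at w a b c k 27 (by omega) (by omega)]
        norm_num
      rw [e] at this
      omega
    have hl' : ∀ j : ℤ, 0 ≤ j → j ≤ 9 → 37 * k + j ∉ B := by
      rcases hl with hl | hl
      · exact absurd (hl 9 (by norm_num) (by norm_num)) h9
      · exact hl
    have hr' : ∀ j : ℤ, 27 ≤ j → j ≤ 36 → 37 * k + j ∉ B := by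
      rcases hr with hr | hr
      · exact absurd (hr 27 (by norm_num) (by norm_num)) h27
      · exact hr
    intro j hj1 hj2
    have : (0 ≤ j ∧ j ≤ 9) ∨ (10 ≤ j ∧ j ≤ 26) ∨ (27 ≤ j ∧ j ≤ 36) := by omega
    rcases this with ⟨e1, e2⟩ | ⟨e1, e2⟩ | ⟨e1, e2⟩
    · exact hl' j e1 e2
    · exact hin j e1 e2
    · exact hr' j e1 e2

/-- the three kinds of blocks -/
theorem cls (hL : Lay G D w a b c) (hDU : ∀ k, ∀ x ∈ a k ∪ b k ∪ c k, D x)
    (hC : Ctx G (lb w a b c) A B) (k : ℤ) :
    (∀ j : ℤ, 0 ≤ j → j ≤ 36 → 37 * k + j ∉ B) ∨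
    (w k ∉ A ∧ (a k ∪ b k ∪ c k) ∩ A = ∅ ∧ (∀ j : ℤ, 1 ≤ j → j ≤ 35 → 37 * k + j ∈ B)) ∨
    Third w a b c A B k := by
  have na_or : (∀ v ∈ a k, v ∉ A) ∨ ∃ v ∈ a k, v ∈ A := by
    by_cases h : ∃ v ∈ a k, v ∈ A
    · exact Or.inr h
    · exact Or.inl fun v hv hA => h ⟨v, hv, hA⟩
  have nb_or : (∀ v ∈ b k, v ∉ A) ∨ ∃ v ∈ b k, v ∈ A := by
    by_cases h : ∃ v ∈ b k, v ∈ A
    · exact Or.inr h
    · exact Or.inl fun v hv hA => h ⟨v, hv, hA⟩
  have nc_or : (∀ v ∈ c k, v ∉ A) ∨ ∃ v ∈ c k, v ∈ A := by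
    by_cases h : ∃ v ∈ c k, v ∈ A
    · exact Or.inr h
    · exact Or.inl fun v hv hA => h ⟨v, hv, hA⟩
  have ma : ∀ {v}, v ∈ a k → v ∈ a k ∪ b k ∪ c k := fun h => by simp [h]
  have mb : ∀ {v}, v ∈ b k → v ∈ a k ∪ b k ∪ c k := fun h => by simp [h]
  have mc : ∀ {v}, v ∈ c k → v ∈ a k ∪ b k ∪ c k := fun h => by simp [h]
  have ab : ∀ {u v}, u ∈ a k → v ∈ b k → G.Adj u v := fun {u v} hu hv =>
    hL.clique k u (ma hu) v (mb hv)
      (fun h => (Finset.disjoint_left.1 (hL.dab k)) hu (h ▸ hv))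
  have ac : ∀ {u v}, u ∈ a k → v ∈ c k → G.Adj u v := fun {u v} hu hv =>
    hL.clique k u (ma hu) v (mc hv)
      (fun h => (Finset.disjoint_left.1 (hL.dac k)) hu (h ▸ hv))
  have bc : ∀ {u v}, u ∈ b k → v ∈ c k → G.Adj u v := fun {u v} hu hv =>
    hL.clique k u (mb hu) v (mc hv)
      (fun h => (Finset.disjoint_left.1 (hL.dbc k)) hu (h ▸ hv))
  have wu : ∀ {v}, v ∈ a k ∪ b k ∪ c k → G.Adj (w k) v := fun h => wu_adj hL hDU k h
  by_cases hw : w k ∈ A
  · left
    have N0 : 37 * k + 0 ∉ B := by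
      rw [add_zero]
      exact (bd hC k (Or.inl hw)).1
    have N36 : 37 * k + 36 ∉ B := by
      have := (bd hC (k + 1) (Or.inr (by rwa [add_sub_cancel_right]))).2
      rwa [show 37 * (k + 1) - 1 = 37 * k + 36 by ring] at this
    rcases na_or with na | ⟨xa, ha, haA⟩ <;> rcases nb_or with nb | ⟨xb, hb, hbA⟩ <;>
      rcases nc_or with nc | ⟨xc, hc, hcA⟩
    · exact clsW0 hC k hw na nb nc N0 N36
    · exact clsWc hC k hw na nb hc hcA (wu (mc hc)) N0 N36
    · exact clsWb hC k hw na hb hbA nc (wu (mb hb)) N0 N36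
    · exact (hC.two hw hbA hcA (wu (mb hb)) (wu (mc hc)) (bc hb hc)).elim
    · exact clsWa hC k hw ha haA nb nc (wu (ma ha)) N0 N36
    · exact (hC.two hw haA hcA (wu (ma ha)) (wu (mc hc)) (ac ha hc)).elim
    · exact (hC.two hw haA hbA (wu (ma ha)) (wu (mb hb)) (ab ha hb)).elim
    · exact (hC.two hw haA hbA (wu (ma ha)) (wu (mb hb)) (ab ha hb)).elim
  · rcases na_or with na | ⟨xa, ha, haA⟩ <;> rcases nb_or with nb | ⟨xb, hb, hbA⟩ <;>
      rcases nc_or with nc | ⟨xc, hc, hcA⟩
    · -- nothing attached: all or nothing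
      have hempty : (a k ∪ b k ∪ c k) ∩ A = ∅ := by
        ext v
        simp only [Finset.mem_inter, Finset.mem_union, Finset.notMem_empty, iff_false, not_and]
        rintro ((h | h) | h)
        · exact na v h
        · exact nb v h
        · exact nc v h
      by_cases hm : ∃ j : ℤ, 1 < j ∧ j < 35 ∧ 37 * k + j ∈ B
      · right
        left
        refine ⟨hw, hempty, ?_⟩
        obtain ⟨j, h1, h2, h3⟩ := hm
        intro r hr1 hr2
        exact hC.fill (fr k 1 35 (by norm_num) (by norm_num) (Or.inl hw) (Or.inl na)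
          (Or.inl nb) (Or.inl nc)) (p := 37 * k + j) (by omega) (by omega) h3
          (37 * k + r) (by omega) (by omega)
      · left
        have h28 : ∀ j : ℤ, 1 < j → j < 35 → 37 * k + j ∉ B :=
          fun j h1 h2 h3 => hm ⟨j, h1, h2, h3⟩
        obtain ⟨h0, h1⟩ := left0 hC k hw (h28 2 (by norm_num) (by norm_num))
        obtain ⟨h0', h1'⟩ := right36 hC k hw (h28 34 (by norm_num) (by norm_num))
        intro j hj1 hj2
        have : j = 0 ∨ j = 1 ∨ (1 < j ∧ j < 35) ∨ j = 35 ∨ j = 36 := by omega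
        rcases this with rfl | rfl | ⟨e1, e2⟩ | rfl | rfl
        · exact h0
        · exact h1
        · exact h28 j e1 e2
        · exact h1'
        · exact h0'
    · rcases cls_in hC k hw (mc hc) hcA (clsIc hC k hw na nb hc hcA) with h | h
      · exact Or.inl h
      · exact Or.inr (Or.inr h)
    · rcases cls_in hC k hw (mb hb) hbA (clsIb hC k hw na hb hbA nc) with h | h
      · exact Or.inl h
      · exact Or.inr (Or.inr h)
    · rcases cls_in hC k hw (mb hb) hbA (clsIbc hC k hw na hb hbA hc hcA (bc hb hc)) with h | h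
      · exact Or.inl h
      · exact Or.inr (Or.inr h)
    · rcases cls_in hC k hw (ma ha) haA (clsIa hC k hw ha haA nb nc) with h | h
      · exact Or.inl h
      · exact Or.inr (Or.inr h)
    · rcases cls_in hC k hw (ma ha) haA (clsIac hC k hw ha haA nb hc hcA (ac ha hc)) with h | h
      · exact Or.inl h
      · exact Or.inr (Or.inr h)
    · rcases cls_in hC k hw (ma ha) haA (clsIab hC k hw ha haA hb hbA nc (ab ha hb)) with h | h
      · exact Or.inl h
      · exact Or.inr (Or.inr h)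
    · exact (hC.two haA hbA hcA (ab ha hb) (ac ha hc) (bc hb hc)).elim

/-- the possible traces on the blocks -/
theorem pat (hL : Lay G D w a b c) (hDU : ∀ k, ∀ x ∈ a k ∪ b k ∪ c k, D x)
    {A : Finset V} {B : Finset ℤ} (_hA : ∀ v ∈ A, D v)
    (h : Hol G (lb w a b c) A B) (hE : Even (A.card + B.card)) : Pat w a b c A B := by
  have hC : Ctx G (lb w a b c) A B := ⟨h, hE, lb_clique hL hDU⟩
  have C := fun k => cls hL hDU hC k
  refine
    { p1 := ?_, p2l := ?_, p2m := ?_, p2r := ?_, p3l := ?_, p3m := ?_, p3r := ?_, p4l := ?_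
      p4r := ?_, p5 := ?_, p6 := ?_, p7l := ?_, p7r := ?_, p8l := ?_, p8r := ?_, p9 := ?_ }
  · -- p1
    intro k j h0 h1 hj
    rcases C k with H | H | H
    · exact absurd hj (H j h0 h1)
    · exact H.1
    · exact H.1
  · -- p2l
    intro k j h0 h1 hj
    rcases C k with H | H | ⟨_, _, hin, hl, hr⟩
    · exact absurd hj (H j h0 (by omega))
    · exact H.2.2 9 (by norm_num) (by norm_num)
    · rcases hl with hl | hl
      · exact hl 9 (by norm_num) (by norm_num)
      · exact absurd hj (hl j h0 h1)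
  · -- p2m
    intro k j h0 h1 hj
    rcases C k with H | H | ⟨_, _, hin, hl, hr⟩
    · exact absurd hj (H j (by omega) (by omega))
    · exact ⟨H.2.2 9 (by norm_num) (by norm_num), H.2.2 10 (by norm_num) (by norm_num),
        H.2.2 26 (by norm_num) (by norm_num), H.2.2 27 (by norm_num) (by norm_num)⟩
    · exact absurd hj (hin j h0 h1)
  · -- p2r
    intro k j h0 h1 hj
    rcases C k with H | H | ⟨_, _, hin, hl, hr⟩
    · exact absurd hj (H j (by omega) (by omega))
    · exact H.2.2 27 (by norm_num) (by norm_num)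
    · rcases hr with hr | hr
      · exact hr 27 (by norm_num) (by norm_num)
      · exact absurd hj (hr j h0 h1)
  · -- p3l
    intro k j h0 h1 hj
    rcases C k with H | H | ⟨_, _, hin, hl, hr⟩
    · exact absurd hj (H 9 (by omega) (by omega))
    · exact H.2.2 j (by omega) (by omega)
    · rcases hl with hl | hl
      · exact hl j h0 h1
      · exact absurd hj (hl 9 (by norm_num) (by norm_num))
  · -- p3m
    intro k j h0 h1 hj
    rcases C k with H | H | ⟨_, _, hin, hl, hr⟩
    · rcases hj with hj | hj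
      · exact absurd hj (H 10 (by omega) (by omega))
      · exact absurd hj (H 26 (by omega) (by omega))
    · exact H.2.2 j (by omega) (by omega)
    · rcases hj with hj | hj
      · exact absurd hj (hin 10 (by omega) (by omega))
      · exact absurd hj (hin 26 (by omega) (by omega))
  · -- p3r
    intro k j h0 h1 hj
    rcases C k with H | H | ⟨_, _, hin, hl, hr⟩
    · exact absurd hj (H 27 (by omega) (by omega))
    · exact H.2.2 j (by omega) (by omega)
    · rcases hr with hr | hr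
      · exact hr j h0 h1
      · exact absurd hj (hr 27 (by norm_num) (by norm_num))
  · -- p4l
    intro k h9
    by_contra hcon
    have hcon1 : 37 * k ∉ B := fun h => hcon (Or.inl h)
    have hcon2 : w (k - 1) ∉ A := fun h => hcon (Or.inr h)
    have h1B : 37 * k + 1 ∈ B ∧ w k ∉ A := by
      rcases C k with H | H | ⟨nw, _, hin, hl, hr⟩
      · exact absurd h9 (H 9 (by omega) (by omega))
      · exact ⟨H.2.2 1 (by omega) (by omega), H.1⟩
      · rcases hl with hl | hl
        · exact ⟨hl 1 (by norm_num) (by norm_num), nw⟩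
        · exact absurd h9 (hl 9 (by norm_num) (by norm_num))
    have hf1 : lb w a b c (37 * k + 1) ∩ A = ∅ := by
      rw [lb_at w a b c k 1 (by omega) (by omega)]
      ext v
      simp only [if_true, Finset.mem_inter, Finset.mem_insert, Finset.mem_singleton,
        Finset.notMem_empty, iff_false, not_and]
      rintro (rfl | rfl)
      · exact hcon2
      · exact h1B.2
    have := (hC.free h1B.1 hf1).1
    rw [show 37 * k + 1 - 1 = 37 * k by ring] at this
    exact hcon1 this
  · -- p4r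
    intro k h27
    by_contra hcon
    have hcon1 : 37 * k + 36 ∉ B := fun h => hcon (Or.inl h)
    have hcon2 : w (k + 1) ∉ A := fun h => hcon (Or.inr h)
    have h1B : 37 * k + 35 ∈ B ∧ w k ∉ A := by
      rcases C k with H | H | ⟨nw, _, hin, hl, hr⟩
      · exact absurd h27 (H 27 (by omega) (by omega))
      · exact ⟨H.2.2 35 (by omega) (by omega), H.1⟩
      · rcases hr with hr | hr
        · exact ⟨hr 35 (by norm_num) (by norm_num), nw⟩
        · exact absurd h27 (hr 27 (by norm_num) (by norm_num))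
    have hf1 : lb w a b c (37 * k + 35) ∩ A = ∅ := by
      rw [lb_at w a b c k 35 (by omega) (by omega)]
      rw [if_neg (by norm_num), if_pos rfl]
      ext v
      simp only [Finset.mem_inter, Finset.mem_insert, Finset.mem_singleton,
        Finset.notMem_empty, iff_false, not_and]
      rintro (rfl | rfl)
      · exact h1B.2
      · exact hcon2
    have := (hC.free h1B.1 hf1).2
    rw [show 37 * k + 35 + 1 = 37 * k + 36 by ring] at this
    exact hcon1 this
  · -- p5
    intro k j h0 h1 hj v hvA hv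
    rw [mem_lb w a b c k j h0 h1] at hv
    have hv3 : v ∈ a k ∪ b k ∪ c k → (j = 9 ∨ j = 24 ∨ j = 27 ∨ j = 12 ∨ j = 19 ∨ j = 14 ∨ j = 17) →
        ((j = 9 ∨ j = 27) ∧ v ∈ a k ∪ b k ∪ c k) := by
      intro hvm hjj
      refine ⟨?_, hvm⟩
      rcases C k with H | H | ⟨nw, _, hin, hl, hr⟩
      · exact absurd hj (H j h0 h1)
      · have := H.2.1
        have hmem : v ∈ (a k ∪ b k ∪ c k) ∩ A := Finset.mem_inter.2 ⟨hvm, hvA⟩
        rw [this] at hmem
        exact absurd hmem (Finset.notMem_empty _)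
      · by_contra hne
        exact hin j (by omega) (by omega) hj
    rcases hv with ⟨rfl, h⟩ | ⟨h', h⟩ | ⟨h', h⟩ | ⟨h', h⟩ | ⟨h', h⟩ | ⟨h', h⟩
    · exfalso
      rcases C k with H | H | H
      · exact H j h0 h1 hj
      · exact H.1 hvA
      · exact H.1 hvA
    · right; right
      unfold ca at h
      exact hv3 (by simp [h']) (by omega)
    · right; right
      unfold cb at h
      exact hv3 (by simp [h']) (by omega)
    · right; right
      unfold cc at h
      exact hv3 (by simp [h']) (by omega)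
    · exact Or.inl ⟨h, h'⟩
    · exact Or.inr (Or.inl ⟨h, h'⟩)
  · -- p6
    intro k
    constructor
    · intro hk
      have hf : lb w a b c (37 * k + 0) ∩ A = ∅ := by
        rw [lb_at w a b c k 0 (by omega) (by omega)]
        norm_num
      rw [add_zero] at hf
      exact (hC.free hk hf).1
    · intro hk
      have hf : lb w a b c (37 * (k - 1) + 36) ∩ A = ∅ := by
        rw [lb_at w a b c (k - 1) 36 (by omega) (by omega)]
        norm_num
      rw [show 37 * (k - 1) + 36 = 37 * k - 1 by ring] at hf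
      have := (hC.free hk hf).2
      rwa [sub_add_cancel] at this
  · -- p7l
    intro k h9 h10
    rcases C k with H | H | ⟨nw, _, hin, hl, hr⟩
    · exact absurd h9 (H 9 (by omega) (by omega))
    · exact H.2.1
    · exact absurd h10 (hin 10 (by norm_num) (by norm_num))
  · -- p7r
    intro k h9 h10
    rcases C k with H | H | ⟨nw, _, hin, hl, hr⟩
    · exact absurd h9 (H 27 (by omega) (by omega))
    · exact H.2.1
    · exact absurd h10 (hin 10 (by norm_num) (by norm_num))
  · -- p8l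
    intro k h9 h10
    rcases C k with H | H | ⟨nw, h1, hin, hl, hr⟩
    · exact absurd h9 (H 9 (by omega) (by omega))
    · exact absurd (H.2.2 10 (by norm_num) (by norm_num)) h10
    · exact h1
  · -- p8r
    intro k h9 h10
    rcases C k with H | H | ⟨nw, h1, hin, hl, hr⟩
    · exact absurd h9 (H 27 (by omega) (by omega))
    · exact absurd (H.2.2 10 (by norm_num) (by norm_num)) h10
    · exact h1
  · -- p9
    intro p hp
    exact hC.one hp

end

end Pool.Agent.Helper32.EH
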