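import Pool.Agent.Helper32.EH.UFacts

set_option autoImplicit false

namespace Pool.Agent.Helper32.EH

/-- the finite graphs -/
def box (m : ℕ) : SimpleGraph {x : P // inBox m x} := gr.comap Subtype.val

instance box_finite (m : ℕ) : Finite {x : P // inBox m x} := by
  have hfin : ({x : P | inBox m x}).Finite := by
    apply Set.Finite.subset ((Set.finite_Iic m).prod (Set.finite_Icc (0 : ℤ) (37 ^ m)))
    rintro ⟨a, b⟩ ⟨h1, h2, h3⟩
    simp only at h1 h2 h3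
    refine ⟨h1, h2, ?_⟩
    have h4 : (37 : ℤ) ^ a ≤ 37 ^ m := pow_le_pow_right₀ (by norm_num) h1
    have h5 : b ≤ 37 ^ m := by linarith
    exact h5
  exact hfin.to_subtype

theorem Box_adj_succ {l : ℕ} {i : ℤ} : gr.Adj (l, i) (l, i + 1) := by
  have h : older (l, i) (l, i + 1) := Or.inr ⟨rfl, by simp⟩
  exact (adj_older h).2 (Or.inr ⟨rfl, rfl⟩)

/-- the layers of the box are connected -/
theorem box_conn (m : ℕ) (G' : SimpleGraph {x : P // inBox m x}) (hG : box m ≤ G')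
    (l : Fin (m + 1)) :
    (G'.induce {x : {x : P // inBox m x} | x.1.1 = (l : ℕ)}).Connected := by
  have hl : (l : ℕ) ≤ m := by have := l.2; omega
  have hbox : ∀ n : ℕ, (n : ℤ) < 37 ^ (l : ℕ) → inBox m ((l : ℕ), (n : ℤ)) := by
    intro n hn
    exact ⟨hl, Int.natCast_nonneg n, hn⟩
  have h0 : inBox m ((l : ℕ), ((0 : ℕ) : ℤ)) := hbox 0 (by push_cast; positivity)
  have key : ∀ n : ℕ, ∀ hn : (n : ℤ) < 37 ^ (l : ℕ),
      (G'.induce {x : {x : P // inBox m x} | x.1.1 = (l : ℕ)}).Reachable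
        ⟨⟨((l : ℕ), ((0 : ℕ) : ℤ)), h0⟩, rfl⟩ ⟨⟨((l : ℕ), (n : ℤ)), hbox n hn⟩, rfl⟩ := by
    intro n
    induction n with
    | zero => intro hn; exact SimpleGraph.Reachable.refl _
    | succ n ih =>
      intro hn
      have hn' : (n : ℤ) < 37 ^ (l : ℕ) := by push_cast at hn; linarith
      refine (ih hn').trans ?_
      apply SimpleGraph.Adj.reachable
      have hadj : (box m).Adj ⟨((l : ℕ), (n : ℤ)), hbox n hn'⟩
          ⟨((l : ℕ), ((n + 1 : ℕ) : ℤ)), hbox (n + 1) hn⟩ := by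
        change gr.Adj ((l : ℕ), (n : ℤ)) ((l : ℕ), ((n + 1 : ℕ) : ℤ))
        push_cast
        exact Box_adj_succ
      exact hG hadj
  have : Nonempty {x : {x : P // inBox m x} | x.1.1 = (l : ℕ)} :=
    ⟨⟨⟨((l : ℕ), ((0 : ℕ) : ℤ)), h0⟩, rfl⟩⟩
  have hall : ∀ x : {x : {x : P // inBox m x} | x.1.1 = (l : ℕ)},
      (G'.induce {x : {x : P // inBox m x} | x.1.1 = (l : ℕ)}).Reachable
        ⟨⟨((l : ℕ), ((0 : ℕ) : ℤ)), h0⟩, rfl⟩ x := by
    rintro ⟨⟨⟨a, i⟩, hx⟩, ha⟩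
    have ha' : a = (l : ℕ) := ha
    subst ha'
    have h2 : 0 ≤ i := hx.2.1
    have h3 : i < 37 ^ (l : ℕ) := hx.2.2
    obtain ⟨n, rfl⟩ := Int.eq_ofNat_of_zero_le h2
    exact key n h3
  exact ⟨fun x y => (hall x).symm.trans (hall y)⟩

theorem Box_mem_succ (l : ℕ) (i : ℤ) : (l, i) ∈ U (l + 1) (37 * i + 4) := by
  have e1 : (37 * i + 4) / 37 = i := by omega
  have e2 : (37 * i + 4) % 37 = 4 := by omega
  rw [U, e1, e2, lab]
  simp

theorem Box_mem_step {l' : ℕ} {i' : ℤ} {x : P} (h : x ∈ U l' i') :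
    x ∈ U (l' + 1) (37 * i' + 9) := by
  have e1 : (37 * i' + 9) / 37 = i' := by omega
  have e2 : (37 * i' + 9) % 37 = 9 := by omega
  rw [U, e1, e2, lab]
  simpa using h

theorem Box_exists (l : ℕ) (i : ℤ) (h0 : 0 ≤ i) (h1 : i < 37 ^ l) (d : ℕ) :
    ∃ i' : ℤ, 0 ≤ i' ∧ i' < 37 ^ (l + 1 + d) ∧ (l, i) ∈ U (l + 1 + d) i' := by
  induction d with
  | zero =>
    refine ⟨37 * i + 4, by omega, ?_, Box_mem_succ l i⟩
    rw [add_zero, pow_succ]
    linarith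
  | succ d ih =>
    obtain ⟨i', h2, h3, h4⟩ := ih
    refine ⟨37 * i' + 9, by omega, ?_, Box_mem_step h4⟩
    rw [show l + 1 + (d + 1) = (l + 1 + d) + 1 by ring, pow_succ]
    linarith

/-- every vertex of the box has a neighbour in every later layer of the box -/
theorem box_touch (m : ℕ) (l l' : ℕ) (h : l < l') (hl' : l' ≤ m) (x : {x : P // inBox m x})
    (hx : x.1.1 = l) : ∃ y : {x : P // inBox m x}, y.1.1 = l' ∧ (box m).Adj x y := by
  obtain ⟨⟨a, i⟩, hxb⟩ := x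
  have ha : a = l := hx
  subst ha
  obtain ⟨d, rfl⟩ : ∃ d, l' = a + 1 + d := ⟨l' - (a + 1), by omega⟩
  obtain ⟨i', h2, h3, h4⟩ := Box_exists a i hxb.2.1 hxb.2.2 d
  exact ⟨⟨(a + 1 + d, i'), hl', h2, h3⟩, rfl, U_adj h4⟩

end Pool.Agent.Helper32.EH
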