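import Pool.Agent.Helper32.EH.Block

set_option autoImplicit false

namespace Pool.Agent.Helper32.EH

variable {V : Type} [DecidableEq V]

theorem conn_lb9 (w : ℤ → V) (a b c : ℤ → Finset V) (k : ℤ) :
    lb w a b c (37 * k + 9) = a k ∪ b k ∪ c k := by
  rw [lb_at w a b c k 9 (by norm_num) (by norm_num)]
  norm_num

theorem conn_lb27 (w : ℤ → V) (a b c : ℤ → Finset V) (k : ℤ) :
    lb w a b c (37 * k + 27) = a k ∪ b k ∪ c k := by
  rw [lb_at w a b c k 27 (by norm_num) (by norm_num)]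
  norm_num

theorem conn_tee {B : Finset ℤ} {k : ℤ} :
    k ∈ tee B ↔ 37 * k + 9 ∈ B ∧ 37 * k + 27 ∈ B ∧ 37 * k + 10 ∉ B := by
  unfold tee
  rw [Finset.mem_filter]
  constructor
  · exact fun h => h.2
  · intro h
    refine ⟨?_, h⟩
    unfold blk
    rw [Finset.mem_image]
    exact ⟨37 * k + 9, h.1, by omega⟩

theorem conn_xt {a b c : ℤ → Finset V} {A : Finset V} {B : Finset ℤ} {v : V} :
    v ∈ xt a b c A B ↔ v ∈ A ∧ ∃ k ∈ tee B, v ∈ a k ∪ b k ∪ c k := by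
  classical
  unfold xt
  rw [Finset.mem_filter]

/-- an exit vertex has no old neighbour and exactly two positions -/
theorem conn_exit {G : SimpleGraph V} {w : ℤ → V} {a b c : ℤ → Finset V}
    {A : Finset V} {B : Finset ℤ} (h : Hol G (lb w a b c) A B) {v : V} (hv : v ∈ A) {k : ℤ}
    (hk : k ∈ tee B) (hvk : v ∈ a k ∪ b k ∪ c k) :
    nb G A v = ∅ ∧ B.filter (fun p => v ∈ lb w a b c p) = {37 * k + 9, 37 * k + 27} := by
  rw [conn_tee] at hk
  have hsub : ({37 * k + 9, 37 * k + 27} : Finset ℤ) ⊆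
      B.filter (fun p => v ∈ lb w a b c p) := by
    intro p hp
    rw [Finset.mem_insert, Finset.mem_singleton] at hp
    rw [Finset.mem_filter]
    rcases hp with rfl | rfl
    · rw [conn_lb9]; exact ⟨hk.1, hvk⟩
    · rw [conn_lb27]; exact ⟨hk.2.1, hvk⟩
  have hc2 : ({37 * k + 9, 37 * k + 27} : Finset ℤ).card = 2 :=
    Finset.card_pair (by omega)
  have hle := Finset.card_le_card hsub
  have hdeg := h.degA v hv
  refine ⟨?_, ?_⟩
  · rw [← Finset.card_eq_zero]; omega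
  · exact (Finset.eq_of_subset_of_card_le hsub (by omega)).symm

theorem conn_exit_pos {G : SimpleGraph V} {w : ℤ → V} {a b c : ℤ → Finset V}
    {A : Finset V} {B : Finset ℤ} (h : Hol G (lb w a b c) A B) {v : V} (hv : v ∈ A) {k : ℤ}
    (hk : k ∈ tee B) (hvk : v ∈ a k ∪ b k ∪ c k) {p : ℤ} (hp : p ∈ B)
    (hvp : v ∈ lb w a b c p) : p / 37 = k := by
  have h1 : p ∈ B.filter (fun p => v ∈ lb w a b c p) := Finset.mem_filter.mpr ⟨hp, hvp⟩
  rw [(conn_exit h hv hk hvk).2, Finset.mem_insert, Finset.mem_singleton] at h1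
  omega

theorem conn_blk {B : Finset ℤ} {p : ℤ} (hp : p ∈ B) : p / 37 ∈ blk B := by
  unfold blk
  exact Finset.mem_image_of_mem _ hp

theorem conn_w_prj {w : ℤ → V} {a b c : ℤ → Finset V} {A : Finset V} {B : Finset ℤ} {p : ℤ}
    (hp : p ∈ B) : w (p / 37) ∈ prj w a b c A B := by
  unfold prj
  exact Finset.mem_union_right _ (Finset.mem_image_of_mem _ (conn_blk hp))

theorem conn_A_prj {w : ℤ → V} {a b c : ℤ → Finset V} {A : Finset V} {B : Finset ℤ} {v : V}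
    (hv : v ∈ A) (hx : v ∉ xt a b c A B) : v ∈ prj w a b c A B := by
  unfold prj
  exact Finset.mem_union_left _ (Finset.mem_sdiff.mpr ⟨hv, hx⟩)

/-- a label vertex is adjacent to the path vertex of the block -/
theorem conn_adj {G : SimpleGraph V} {D : V → Prop} {w : ℤ → V} {a b c : ℤ → Finset V}
    (hL : Lay G D w a b c) {A : Finset V} {B : Finset ℤ} (hA : ∀ v ∈ A, D v)
    (hP : Pat w a b c A B) {v : V} (hv : v ∈ A) {p : ℤ} (hp : p ∈ B)
    (hvp : v ∈ lb w a b c p) : G.Adj (w (p / 37)) v := by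
  have e : 37 * (p / 37) + p % 37 = p := by omega
  rw [hL.adj (p / 37) v (hA v hv)]
  rcases hP.p5 (p / 37) (p % 37) (by omega) (by omega) (by rw [e]; exact hp) v hv
    (by rw [e]; exact hvp) with h1 | h1 | h1
  · exact Or.inl h1.2
  · exact Or.inr (Or.inl h1.2)
  · exact Or.inr (Or.inr h1.2)

/-- the projected cycle is connected -/
theorem prj_conn {G : SimpleGraph V} {D : V → Prop} {w : ℤ → V} {a b c : ℤ → Finset V}
    (hL : Lay G D w a b c) (hDU : ∀ k, ∀ x ∈ a k ∪ b k ∪ c k, D x)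
    {A : Finset V} {B : Finset ℤ} (hA : ∀ v ∈ A, D v)
    (h : Hol G (lb w a b c) A B) (hP : Pat w a b c A B) :
    ∀ T ⊆ prj w a b c A B, T.Nonempty →
      (∀ u ∈ T, ∀ v ∈ prj w a b c A B, G.Adj u v → v ∈ T) → T = prj w a b c A B := by
  classical
  intro T hT hTn hcl
  set A' : Finset V := A.filter (fun v => (v ∉ xt a b c A B ∧ v ∈ T) ∨
    (∃ k ∈ tee B, v ∈ a k ∪ b k ∪ c k ∧ w k ∈ T)) with hA'
  set B' : Finset ℤ := B.filter (fun p => w (p / 37) ∈ T) with hB'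
  have memA : ∀ v, v ∈ A' ↔ v ∈ A ∧ ((v ∉ xt a b c A B ∧ v ∈ T) ∨
    (∃ k ∈ tee B, v ∈ a k ∪ b k ∪ c k ∧ w k ∈ T)) := fun v => Finset.mem_filter
  have memB : ∀ p, p ∈ B' ↔ p ∈ B ∧ w (p / 37) ∈ T := fun p => Finset.mem_filter
  have c0 : A'.Nonempty ∨ B'.Nonempty := by
    obtain ⟨x, hx⟩ := hTn
    have hx' := hT hx
    unfold prj at hx'
    rcases Finset.mem_union.mp hx' with h1 | h1
    · rw [Finset.mem_sdiff] at h1
      exact Or.inl ⟨x, (memA x).mpr ⟨h1.1, Or.inl ⟨h1.2, hx⟩⟩⟩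
    · obtain ⟨k, hk, rfl⟩ := Finset.mem_image.mp h1
      unfold blk at hk
      obtain ⟨p, hp, rfl⟩ := Finset.mem_image.mp hk
      exact Or.inr ⟨p, (memB p).mpr ⟨hp, hx⟩⟩
  have c1 : ∀ u ∈ A', ∀ v ∈ A, G.Adj u v → v ∈ A' := by
    intro u hu v hv huv
    rw [memA] at hu
    have hnx : ∀ y z : V, y ∈ A → z ∈ A → G.Adj y z → ∀ k ∈ tee B, y ∉ a k ∪ b k ∪ c k := by
      intro y z hy hz hyz k hk hyk
      have h1 := (conn_exit h hy hk hyk).1
      have h2 : z ∈ nb G A y := mem_nb.mpr ⟨hz, hyz⟩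
      rw [h1] at h2
      simp at h2
    have hvx : v ∉ xt a b c A B := by
      rw [conn_xt]
      rintro ⟨_, k, hk, hvk⟩
      exact hnx v u hv hu.1 huv.symm k hk hvk
    rcases hu.2 with ⟨_, huT⟩ | ⟨k, hk, huk, _⟩
    · exact (memA v).mpr ⟨hv, Or.inl ⟨hvx, hcl u huT v (conn_A_prj hv hvx) huv⟩⟩
    · exact absurd huk (hnx u v hu.1 hv huv k hk)
  have c2 : ∀ u ∈ A', ∀ p ∈ B, u ∈ lb w a b c p → p ∈ B' := by
    intro u hu p hp hup
    rw [memA] at hu
    refine (memB p).mpr ⟨hp, ?_⟩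
    rcases hu.2 with ⟨_, huT⟩ | ⟨k, hk, huk, hwk⟩
    · exact hcl u huT _ (conn_w_prj hp) (conn_adj hL hA hP hu.1 hp hup).symm
    · rw [conn_exit_pos h hu.1 hk huk hp hup]
      exact hwk
  have c3 : ∀ p ∈ B', ∀ v ∈ A, v ∈ lb w a b c p → v ∈ A' := by
    intro p hp v hv hvp
    rw [memB] at hp
    rw [memA]
    refine ⟨hv, ?_⟩
    by_cases hvx : v ∈ xt a b c A B
    · right
      obtain ⟨_, k, hk, hvk⟩ := conn_xt.mp hvx
      refine ⟨k, hk, hvk, ?_⟩
      rw [← conn_exit_pos h hv hk hvk hp.1 hvp]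
      exact hp.2
    · left
      exact ⟨hvx, hcl _ hp.2 v (conn_A_prj hv hvx) (conn_adj hL hA hP hv hp.1 hvp)⟩
  have c4 : ∀ p ∈ B', ∀ q ∈ B, (q = p + 1 ∨ q = p - 1) → q ∈ B' := by
    intro p hp q hq hpq
    rw [memB] at hp ⊢
    refine ⟨hq, ?_⟩
    have hcase : q / 37 = p / 37 ∨ q / 37 = p / 37 - 1 ∨ q / 37 = p / 37 + 1 := by omega
    rcases hcase with h1 | h1 | h1
    · rw [h1]; exact hp.2
    · refine hcl _ hp.2 _ (conn_w_prj hq) ?_
      rw [hL.adj (p / 37) _ (hL.wD _)]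
      left; rw [h1]
    · refine hcl _ hp.2 _ (conn_w_prj hq) ?_
      rw [hL.adj (p / 37) _ (hL.wD _)]
      right; left; rw [h1]
  obtain ⟨eA, eB⟩ := h.conn A' (Finset.filter_subset _ _) B' (Finset.filter_subset _ _) c0 c1 c2 c3 c4
  refine Finset.Subset.antisymm hT ?_
  intro x hx
  unfold prj at hx
  rcases Finset.mem_union.mp hx with h1 | h1
  · rw [Finset.mem_sdiff] at h1
    have h2 : x ∈ A' := by rw [eA]; exact h1.1
    rcases ((memA x).mp h2).2 with h3 | ⟨k, hk, hxk, _⟩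
    · exact h3.2
    · exact absurd (conn_xt.mpr ⟨h1.1, k, hk, hxk⟩) h1.2
  · obtain ⟨k, hk, rfl⟩ := Finset.mem_image.mp h1
    unfold blk at hk
    obtain ⟨p, hp, rfl⟩ := Finset.mem_image.mp hk
    have h2 : p ∈ B' := by rw [eB]; exact hp
    exact ((memB p).mp h2).2

end Pool.Agent.Helper32.EH
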