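import Pool.Agent.Helper32.EH.Near

set_option autoImplicit false

namespace Pool.Agent.Helper32.EH

/-- an induced cycle gives a cycle in the set sense -/
theorem cyc_of_emb {V : Type} (G : SimpleGraph V) (n : ℕ) (hn : 4 ≤ n)
    (f : SimpleGraph.cycleGraph n ↪g G) :
    ∃ S : Finset V, IsCyc G S ∧ S.card = n := by
  classical
  obtain ⟨m, rfl⟩ : ∃ m, n = m + 3 := ⟨n - 3, by omega⟩
  refine ⟨Finset.univ.map f.toEmbedding, ⟨?_, ?_, ?_⟩, by simp⟩
  · exact ⟨f 0, by simp⟩
  · intro v hv
    rw [Finset.mem_map] at hv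
    obtain ⟨i, -, rfl⟩ := hv
    have h1 : nb G (Finset.univ.map f.toEmbedding) (f.toEmbedding i) =
        ((SimpleGraph.cycleGraph (m + 3)).neighborFinset i).map f.toEmbedding := by
      ext x
      unfold nb
      rw [Finset.mem_filter, Finset.mem_map, Finset.mem_map]
      constructor
      · rintro ⟨⟨j, -, rfl⟩, h⟩
        refine ⟨j, ?_, rfl⟩
        rw [SimpleGraph.mem_neighborFinset]
        exact f.map_adj_iff.1 h
      · rintro ⟨j, hj, rfl⟩
        rw [SimpleGraph.mem_neighborFinset] at hj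
        exact ⟨⟨j, Finset.mem_univ _, rfl⟩, f.map_adj_iff.2 hj⟩
    rw [h1, Finset.card_map]
    exact SimpleGraph.cycleGraph_degree_three_le
  · intro T hT hne hcl
    apply Finset.Subset.antisymm hT
    intro x hx
    rw [Finset.mem_map] at hx
    obtain ⟨j, -, rfl⟩ := hx
    obtain ⟨t, ht⟩ := hne
    obtain ⟨i, -, rfl⟩ := Finset.mem_map.1 (hT ht)
    obtain ⟨p⟩ := (SimpleGraph.cycleGraph_preconnected (n := m + 3)) i j
    induction p with
    | nil => exact ht
    | cons h p ih =>
      apply ih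
      exact hcl _ ht _ (Finset.mem_map.2 ⟨_, Finset.mem_univ _, rfl⟩) (f.map_adj_iff.2 h)

end Pool.Agent.Helper32.EH
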