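import Mathlib

set_option autoImplicit false

/-!
Definitions for the disproof of the conjecture of MP_391dbe_co.
Vertices are pairs (layer, index) in ℕ × ℤ.
-/

namespace Pool.Agent.Helper32.EH

/-! ### Generic part: cycles as vertex sets, and the substitution step -/

section Generic

variable {V : Type}

open Classical in
/-- the neighbours of `v` inside the finite set `A` -/
noncomputable def nb (G : SimpleGraph V) (A : Finset V) (v : V) : Finset V :=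
  A.filter (fun x => G.Adj v x)

/-- `S` induces a connected graph with all degrees 2 -/
structure IsCyc (G : SimpleGraph V) (S : Finset V) : Prop where
  ne : S.Nonempty
  deg : ∀ v ∈ S, (nb G S v).card = 2
  conn : ∀ T ⊆ S, T.Nonempty → (∀ u ∈ T, ∀ v ∈ S, G.Adj u v → v ∈ T) → T = S

variable [DecidableEq V]

/-- labels of the new path: the vertex at position `p` of the new path is adjacent exactly to
the vertices in `lb w a b c p` of the old graph -/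
def lb (w : ℤ → V) (a b c : ℤ → Finset V) (p : ℤ) : Finset V :=
  if p % 37 = 1 then {w (p / 37 - 1), w (p / 37)}
  else if p % 37 = 35 then {w (p / 37), w (p / 37 + 1)}
  else if p % 37 = 4 ∨ p % 37 = 7 ∨ p % 37 = 22 ∨ p % 37 = 29 ∨ p % 37 = 32 then {w (p / 37)}
  else if p % 37 = 9 ∨ p % 37 = 24 ∨ p % 37 = 27 then a (p / 37) ∪ b (p / 37) ∪ c (p / 37)
  else if p % 37 = 12 then a (p / 37)
  else if p % 37 = 14 then insert (w (p / 37)) (b (p / 37) ∪ c (p / 37))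
  else if p % 37 = 17 then c (p / 37)
  else if p % 37 = 19 then insert (w (p / 37)) (a (p / 37) ∪ b (p / 37))
  else ∅

/-- the hypotheses on the old graph: `w` is its last path, the other neighbours of `w k` are the
at most three elements of `a k ∪ b k ∪ c k`, a clique -/
structure Lay (G : SimpleGraph V) (D : V → Prop) (w : ℤ → V) (a b c : ℤ → Finset V) : Prop where
  winj : Function.Injective w
  wD : ∀ k, D (w k)
  adj : ∀ k v, D v → (G.Adj (w k) v ↔ v = w (k - 1) ∨ v = w (k + 1) ∨ v ∈ a k ∪ b k ∪ c k)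
  clique : ∀ k, ∀ x ∈ a k ∪ b k ∪ c k, ∀ y ∈ a k ∪ b k ∪ c k, x ≠ y → G.Adj x y
  notw : ∀ k l, w l ∉ a k ∪ b k ∪ c k
  ca : ∀ k, (a k).card ≤ 1
  cb : ∀ k, (b k).card ≤ 1
  cc : ∀ k, (c k).card ≤ 1
  dab : ∀ k, Disjoint (a k) (b k)
  dac : ∀ k, Disjoint (a k) (c k)
  dbc : ∀ k, Disjoint (b k) (c k)
  gap : ∀ k, a k ∪ b k ∪ c k = ∅ ∨ a (k + 1) ∪ b (k + 1) ∪ c (k + 1) = ∅

/-- a cycle of the new graph: `A` old vertices, `B` positions on the new path, `L` the labels -/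
structure Hol (G : SimpleGraph V) (L : ℤ → Finset V) (A : Finset V) (B : Finset ℤ) : Prop where
  degB : ∀ p ∈ B, (if p - 1 ∈ B then 1 else 0) + (if p + 1 ∈ B then 1 else 0)
    + (L p ∩ A).card = 2
  degA : ∀ v ∈ A, (nb G A v).card + (B.filter (fun p => v ∈ L p)).card = 2
  conn : ∀ A' ⊆ A, ∀ B' ⊆ B, (A'.Nonempty ∨ B'.Nonempty) →
    (∀ u ∈ A', ∀ v ∈ A, G.Adj u v → v ∈ A') →
    (∀ u ∈ A', ∀ p ∈ B, u ∈ L p → p ∈ B') →
    (∀ p ∈ B', ∀ v ∈ A, v ∈ L p → v ∈ A') →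
    (∀ p ∈ B', ∀ q ∈ B, (q = p + 1 ∨ q = p - 1) → q ∈ B') → A' = A ∧ B' = B

/-- the possible traces of `B` on the blocks -/
structure Pat (w : ℤ → V) (a b c : ℤ → Finset V) (A : Finset V) (B : Finset ℤ) : Prop where
  /-- a visited block has its old path vertex outside the cycle -/
  p1 : ∀ k j : ℤ, 0 ≤ j → j ≤ 36 → 37 * k + j ∈ B → w k ∉ A
  p2l : ∀ k j : ℤ, 0 ≤ j → j ≤ 9 → 37 * k + j ∈ B → 37 * k + 9 ∈ B
  p2m : ∀ k j : ℤ, 10 ≤ j → j ≤ 26 → 37 * k + j ∈ B →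
    37 * k + 9 ∈ B ∧ 37 * k + 10 ∈ B ∧ 37 * k + 26 ∈ B ∧ 37 * k + 27 ∈ B
  p2r : ∀ k j : ℤ, 27 ≤ j → j ≤ 36 → 37 * k + j ∈ B → 37 * k + 27 ∈ B
  p3l : ∀ k j : ℤ, 1 ≤ j → j ≤ 9 → 37 * k + 9 ∈ B → 37 * k + j ∈ B
  p3m : ∀ k j : ℤ, 10 ≤ j → j ≤ 26 → (37 * k + 10 ∈ B ∨ 37 * k + 26 ∈ B) → 37 * k + j ∈ B
  p3r : ∀ k j : ℤ, 27 ≤ j → j ≤ 35 → 37 * k + 27 ∈ B → 37 * k + j ∈ B
  p4l : ∀ k : ℤ, 37 * k + 9 ∈ B → (37 * k ∈ B ∨ w (k - 1) ∈ A)
  p4r : ∀ k : ℤ, 37 * k + 27 ∈ B → (37 * k + 36 ∈ B ∨ w (k + 1) ∈ A)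
  /-- attachments -/
  p5 : ∀ k j : ℤ, 0 ≤ j → j ≤ 36 → 37 * k + j ∈ B → ∀ v ∈ A, v ∈ lb w a b c (37 * k + j) →
    (j = 1 ∧ v = w (k - 1)) ∨ (j = 35 ∧ v = w (k + 1)) ∨
    ((j = 9 ∨ j = 27) ∧ v ∈ a k ∪ b k ∪ c k)
  /-- the two boundary zeros between consecutive blocks -/
  p6 : ∀ k : ℤ, 37 * k ∈ B ↔ 37 * k - 1 ∈ B
  p7l : ∀ k : ℤ, 37 * k + 9 ∈ B → 37 * k + 10 ∈ B → (a k ∪ b k ∪ c k) ∩ A = ∅
  p7r : ∀ k : ℤ, 37 * k + 27 ∈ B → 37 * k + 10 ∈ B → (a k ∪ b k ∪ c k) ∩ A = ∅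
  p8l : ∀ k : ℤ, 37 * k + 9 ∈ B → 37 * k + 10 ∉ B → ((a k ∪ b k ∪ c k) ∩ A).card = 1
  p8r : ∀ k : ℤ, 37 * k + 27 ∈ B → 37 * k + 10 ∉ B → ((a k ∪ b k ∪ c k) ∩ A).card = 1
  /-- labels at a position of `B` meet `A` in at most one vertex -/
  p9 : ∀ p ∈ B, (lb w a b c p ∩ A).card ≤ 1

/-- the visited blocks -/
def blk (B : Finset ℤ) : Finset ℤ := B.image (fun p => p / 37)

/-- the visited blocks in which the new path is left and entered again -/
def tee (B : Finset ℤ) : Finset ℤ :=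
  (blk B).filter (fun k => 37 * k + 9 ∈ B ∧ 37 * k + 27 ∈ B ∧ 37 * k + 10 ∉ B)

open Classical in
/-- the old vertices removed by the projection -/
noncomputable def xt (a b c : ℤ → Finset V) (A : Finset V) (B : Finset ℤ) : Finset V :=
  A.filter (fun v => ∃ k ∈ tee B, v ∈ a k ∪ b k ∪ c k)

/-- the projected cycle -/
noncomputable def prj (w : ℤ → V) (a b c : ℤ → Finset V) (A : Finset V) (B : Finset ℤ) :
    Finset V :=
  (A \ xt a b c A B) ∪ (blk B).image w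

end Generic

/-! ### The concrete graph -/

/-- vertices: (layer, index) -/
abbrev P := ℕ × ℤ

/-- label of the vertex at offset `j` in the block of `w`, where `W` lists the older
neighbours of `w` and `wl`, `wr` are its neighbours on its own layer -/
def lab (W : List P) (wl w wr : P) (j : ℤ) : List P :=
  if j = 1 then [wl, w]
  else if j = 35 then [w, wr]
  else if j = 4 ∨ j = 7 ∨ j = 22 ∨ j = 29 ∨ j = 32 then [w]
  else if j = 9 ∨ j = 24 ∨ j = 27 then W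
  else if j = 12 then W.take 1
  else if j = 14 then W.drop 1 ++ [w]
  else if j = 17 then W.drop 2
  else if j = 19 then W.take 2 ++ [w]
  else []

/-- the list of neighbours of the vertex `(m, i)` in earlier layers, oldest first -/
def U : ℕ → ℤ → List P
  | 0, _ => []
  | m + 1, i => lab (U m (i / 37)) (m, i / 37 - 1) (m, i / 37) (m, i / 37 + 1) (i % 37)

/-- the graph -/
def gr : SimpleGraph P :=
  SimpleGraph.fromRel (fun x y => (x.1 = y.1 ∧ x.2 + 1 = y.2) ∨ x ∈ U y.1 y.2)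

/-- age order: `older x y` -/
def older (x y : P) : Prop := x.1 < y.1 ∨ (x.1 = y.1 ∧ x.2 < y.2)

/-- the finite vertex sets used -/
def inBox (m : ℕ) (x : P) : Prop := x.1 ≤ m ∧ 0 ≤ x.2 ∧ x.2 < 37 ^ x.1

/-! ### The excluded 2-forest -/

/-- add, for every dart of `H`, a new vertex adjacent to the two ends of the dart -/
def dbl {W : Type} (H : SimpleGraph W) : SimpleGraph (W ⊕ H.Dart) where
  Adj x y := match x, y with
    | Sum.inl u, Sum.inl v => H.Adj u v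
    | Sum.inl u, Sum.inr e => u = e.fst ∨ u = e.snd
    | Sum.inr e, Sum.inl u => u = e.fst ∨ u = e.snd
    | Sum.inr _, Sum.inr _ => False
  symm := ⟨by
    rintro (u | e) (v | f) h
    · exact h.symm
    · exact h
    · exact h
    · exact h⟩
  loopless := ⟨by
    rintro (u | e) h
    · exact H.irrefl h
    · exact h⟩

/-- the base edge -/
def H0 : SimpleGraph Bool := ⊤

end Pool.Agent.Helper32.EH
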