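import Pool.Agent.Helper32.EH.Block

set_option autoImplicit false

namespace Pool.Agent.Helper32.EH

variable {V : Type} [DecidableEq V]

section DegAux

variable {G : SimpleGraph V} {D : V → Prop} {w : ℤ → V} {a b c : ℤ → Finset V}
  {A : Finset V} {B : Finset ℤ}

theorem Deg_blk {k : ℤ} : k ∈ blk B ↔ ∃ j : ℤ, 0 ≤ j ∧ j ≤ 36 ∧ 37 * k + j ∈ B := by
  unfold blk
  rw [Finset.mem_image]
  constructor
  · rintro ⟨p, hp, rfl⟩
    refine ⟨p % 37, by omega, by omega, ?_⟩
    have e : 37 * (p / 37) + p % 37 = p := by omega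
    rw [e]
    exact hp
  · rintro ⟨j, h0, h1, h⟩
    exact ⟨37 * k + j, h, by omega⟩

theorem Deg_lb1 (k : ℤ) : lb w a b c (37 * k + 1) = {w (k - 1), w k} := by
  rw [lb_at w a b c k 1 (by norm_num) (by norm_num)]
  simp

theorem Deg_lb35 (k : ℤ) : lb w a b c (37 * k + 35) = {w k, w (k + 1)} := by
  rw [lb_at w a b c k 35 (by norm_num) (by norm_num)]
  simp

theorem Deg_lb9 (k : ℤ) : lb w a b c (37 * k + 9) = a k ∪ b k ∪ c k := by
  rw [lb_at w a b c k 9 (by norm_num) (by norm_num)]
  simp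

theorem Deg_lb27 (k : ℤ) : lb w a b c (37 * k + 27) = a k ∪ b k ∪ c k := by
  rw [lb_at w a b c k 27 (by norm_num) (by norm_num)]
  simp

theorem Deg_notA (hP : Pat w a b c A B) {k : ℤ} (hk : k ∈ blk B) : w k ∉ A := by
  obtain ⟨j, h0, h1, h⟩ := Deg_blk.1 hk
  exact hP.p1 k j h0 h1 h

theorem Deg_or (hP : Pat w a b c A B) {k : ℤ} (hk : k ∈ blk B) :
    37 * k + 9 ∈ B ∨ 37 * k + 27 ∈ B := by
  obtain ⟨j, h0, h1, h⟩ := Deg_blk.1 hk
  rcases le_or_gt j 9 with h9 | h9
  · exact Or.inl (hP.p2l k j h0 h9 h)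
  · rcases le_or_gt j 26 with h26 | h26
    · exact Or.inl (hP.p2m k j (by omega) h26 h).1
    · exact Or.inr (hP.p2r k j (by omega) h1 h)

theorem Deg_ten (hP : Pat w a b c A B) {k : ℤ} (h10 : 37 * k + 10 ∈ B) :
    37 * k + 9 ∈ B ∧ 37 * k + 27 ∈ B := by
  have := hP.p2m k 10 (by norm_num) (by norm_num) h10
  exact ⟨this.1, this.2.2.2⟩

theorem Deg_xt {v : V} :
    v ∈ xt a b c A B ↔ v ∈ A ∧ ∃ k ∈ tee B, v ∈ a k ∪ b k ∪ c k := by
  classical
  unfold xt
  rw [Finset.mem_filter]

theorem Deg_tee {k : ℤ} :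
    k ∈ tee B ↔ 37 * k + 9 ∈ B ∧ 37 * k + 27 ∈ B ∧ 37 * k + 10 ∉ B := by
  unfold tee
  rw [Finset.mem_filter]
  constructor
  · exact fun h => h.2
  · intro h
    exact ⟨Deg_blk.2 ⟨9, by norm_num, by norm_num, h.1⟩, h⟩

/-- (i) removed vertices have exactly the two positions of their block -/
theorem Deg_i (h : Hol G (lb w a b c) A B) {v : V} (hv : v ∈ A) {k : ℤ} (hk : k ∈ tee B)
    (hvk : v ∈ a k ∪ b k ∪ c k) :
    (∀ x ∈ A, ¬ G.Adj v x) ∧
      ∀ p ∈ B, v ∈ lb w a b c p → p = 37 * k + 9 ∨ p = 37 * k + 27 := by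
  have hk' := Deg_tee.1 hk
  have hsub : ({37 * k + 9, 37 * k + 27} : Finset ℤ) ⊆
      B.filter (fun p => v ∈ lb w a b c p) := by
    intro p hp
    rw [Finset.mem_insert, Finset.mem_singleton] at hp
    rw [Finset.mem_filter]
    rcases hp with rfl | rfl
    · exact ⟨hk'.1, by rw [Deg_lb9]; exact hvk⟩
    · exact ⟨hk'.2.1, by rw [Deg_lb27]; exact hvk⟩
  have hc2 : ({37 * k + 9, 37 * k + 27} : Finset ℤ).card = 2 := Finset.card_pair (by omega)
  have hd := h.degA v hv
  have hle := Finset.card_le_card hsub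
  constructor
  · intro x hx hadj
    have : 0 < (nb G A v).card := Finset.card_pos.2 ⟨x, mem_nb.2 ⟨hx, hadj⟩⟩
    omega
  · intro p hp hvp
    have heq : ({37 * k + 9, 37 * k + 27} : Finset ℤ) =
        B.filter (fun p => v ∈ lb w a b c p) :=
      Finset.eq_of_subset_of_card_le hsub (by omega)
    have : p ∈ ({37 * k + 9, 37 * k + 27} : Finset ℤ) := by
      rw [heq, Finset.mem_filter]
      exact ⟨hp, hvp⟩
    simpa using this

theorem Deg_pfive (hP : Pat w a b c A B) {p : ℤ} (hp : p ∈ B) {v : V} (hv : v ∈ A)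
    (hvp : v ∈ lb w a b c p) :
    (p = 37 * (p / 37) + 1 ∧ v = w (p / 37 - 1)) ∨
    (p = 37 * (p / 37) + 35 ∧ v = w (p / 37 + 1)) ∨
    ((p = 37 * (p / 37) + 9 ∨ p = 37 * (p / 37) + 27) ∧
      v ∈ a (p / 37) ∪ b (p / 37) ∪ c (p / 37)) := by
  have e : 37 * (p / 37) + p % 37 = p := by omega
  have := hP.p5 (p / 37) (p % 37) (by omega) (by omega) (by rw [e]; exact hp) v hv
    (by rw [e]; exact hvp)
  rcases this with ⟨h1, h2⟩ | ⟨h1, h2⟩ | ⟨h1 | h1, h2⟩
  · exact Or.inl ⟨by omega, h2⟩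
  · exact Or.inr (Or.inl ⟨by omega, h2⟩)
  · exact Or.inr (Or.inr ⟨Or.inl (by omega), h2⟩)
  · exact Or.inr (Or.inr ⟨Or.inr (by omega), h2⟩)

theorem Deg_adj (hL : Lay G D w a b c) (hA : ∀ v ∈ A, D v) (hP : Pat w a b c A B) {p : ℤ}
    (hp : p ∈ B) {v : V} (hv : v ∈ A) (hvp : v ∈ lb w a b c p) : G.Adj v (w (p / 37)) := by
  apply SimpleGraph.Adj.symm
  rw [hL.adj (p / 37) v (hA v hv)]
  rcases Deg_pfive hP hp hv hvp with ⟨-, h2⟩ | ⟨-, h2⟩ | ⟨-, h2⟩
  · exact Or.inl h2
  · exact Or.inr (Or.inl h2)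
  · exact Or.inr (Or.inr h2)

/-- if block `k` is visited and `w (k-1)` is on the cycle, then position 9 is visited -/
theorem Deg_S1 (hL : Lay G D w a b c) (hA : ∀ v ∈ A, D v) (h : Hol G (lb w a b c) A B)
    (hP : Pat w a b c A B) {k : ℤ} (hk : k ∈ blk B) (hw : w (k - 1) ∈ A) :
    37 * k + 9 ∈ B := by
  by_contra h9
  have h27 : 37 * k + 27 ∈ B := (Deg_or hP hk).resolve_left h9
  have h10 : 37 * k + 10 ∉ B := fun h10 => h9 (Deg_ten hP h10).1
  have hne : (a k ∪ b k ∪ c k) ≠ ∅ := by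
    intro he
    have := hP.p8r k h27 h10
    rw [he] at this
    simp at this
  have hem : a (k - 1) ∪ b (k - 1) ∪ c (k - 1) = ∅ := by
    rcases hL.gap (k - 1) with hg | hg
    · exact hg
    · rw [sub_add_cancel] at hg
      exact absurd hg hne
  have hwk : w k ∉ A := Deg_notA hP hk
  have hnb : nb G A (w (k - 1)) ⊆ {w (k - 2)} := by
    intro x hx
    obtain ⟨hxA, hadj⟩ := mem_nb.1 hx
    rw [hL.adj (k - 1) x (hA x hxA)] at hadj
    rcases hadj with he | he | he
    · rw [Finset.mem_singleton, he]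
      congr 1
      ring
    · rw [sub_add_cancel] at he
      rw [he] at hxA
      exact absurd hxA hwk
    · rw [hem] at he
      simp at he
  have hfl : B.filter (fun p => w (k - 1) ∈ lb w a b c p) ⊆ {37 * (k - 2) + 35} := by
    intro p hp
    obtain ⟨hpB, hlp⟩ := Finset.mem_filter.1 hp
    rcases Deg_pfive hP hpB hw hlp with ⟨h1, h2⟩ | ⟨h1, h2⟩ | ⟨-, h2⟩
    · have h3 : k - 1 = p / 37 - 1 := hL.winj h2
      exfalso
      apply h9
      refine hP.p2l k 1 (by norm_num) (by norm_num) ?_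
      have e : 37 * k + 1 = p := by omega
      rw [e]
      exact hpB
    · have h3 : k - 1 = p / 37 + 1 := hL.winj h2
      rw [Finset.mem_singleton]
      omega
    · exact absurd h2 (hL.notw _ _)
  have hd := h.degA _ hw
  have c1 := Finset.card_le_card hnb
  have c2 := Finset.card_le_card hfl
  rw [Finset.card_singleton] at c1 c2
  have e1 : nb G A (w (k - 1)) = {w (k - 2)} :=
    Finset.eq_of_subset_of_card_le hnb (by rw [Finset.card_singleton]; omega)
  have e2 : B.filter (fun p => w (k - 1) ∈ lb w a b c p) = {37 * (k - 2) + 35} :=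
    Finset.eq_of_subset_of_card_le hfl (by rw [Finset.card_singleton]; omega)
  have m1 : w (k - 2) ∈ nb G A (w (k - 1)) := by
    rw [e1]
    exact Finset.mem_singleton_self _
  have m2 : 37 * (k - 2) + 35 ∈ B.filter (fun p => w (k - 1) ∈ lb w a b c p) := by
    rw [e2]
    exact Finset.mem_singleton_self _
  exact hP.p1 (k - 2) 35 (by norm_num) (by norm_num) (Finset.mem_filter.1 m2).1 (mem_nb.1 m1).1

/-- mirror image of `Deg_S1` -/
theorem Deg_S2 (hL : Lay G D w a b c) (hA : ∀ v ∈ A, D v) (h : Hol G (lb w a b c) A B)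
    (hP : Pat w a b c A B) {k : ℤ} (hk : k ∈ blk B) (hw : w (k + 1) ∈ A) :
    37 * k + 27 ∈ B := by
  by_contra h27
  have h9 : 37 * k + 9 ∈ B := (Deg_or hP hk).resolve_right h27
  have h10 : 37 * k + 10 ∉ B := fun h10 => h27 (Deg_ten hP h10).2
  have hne : (a k ∪ b k ∪ c k) ≠ ∅ := by
    intro he
    have := hP.p8l k h9 h10
    rw [he] at this
    simp at this
  have hem : a (k + 1) ∪ b (k + 1) ∪ c (k + 1) = ∅ := by
    rcases hL.gap k with hg | hg
    · exact absurd hg hne
    · exact hg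
  have hwk : w k ∉ A := Deg_notA hP hk
  have hnb : nb G A (w (k + 1)) ⊆ {w (k + 2)} := by
    intro x hx
    obtain ⟨hxA, hadj⟩ := mem_nb.1 hx
    rw [hL.adj (k + 1) x (hA x hxA)] at hadj
    rcases hadj with he | he | he
    · rw [add_sub_cancel_right] at he
      rw [he] at hxA
      exact absurd hxA hwk
    · rw [Finset.mem_singleton, he]
      congr 1
      ring
    · rw [hem] at he
      simp at he
  have hfl : B.filter (fun p => w (k + 1) ∈ lb w a b c p) ⊆ {37 * (k + 2) + 1} := by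
    intro p hp
    obtain ⟨hpB, hlp⟩ := Finset.mem_filter.1 hp
    rcases Deg_pfive hP hpB hw hlp with ⟨h1, h2⟩ | ⟨h1, h2⟩ | ⟨-, h2⟩
    · have h3 : k + 1 = p / 37 - 1 := hL.winj h2
      rw [Finset.mem_singleton]
      omega
    · have h3 : k + 1 = p / 37 + 1 := hL.winj h2
      exfalso
      apply h27
      refine hP.p2r k 35 (by norm_num) (by norm_num) ?_
      have e : 37 * k + 35 = p := by omega
      rw [e]
      exact hpB
    · exact absurd h2 (hL.notw _ _)
  have hd := h.degA _ hw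
  have c1 := Finset.card_le_card hnb
  have c2 := Finset.card_le_card hfl
  rw [Finset.card_singleton] at c1 c2
  have e1 : nb G A (w (k + 1)) = {w (k + 2)} :=
    Finset.eq_of_subset_of_card_le hnb (by rw [Finset.card_singleton]; omega)
  have e2 : B.filter (fun p => w (k + 1) ∈ lb w a b c p) = {37 * (k + 2) + 1} :=
    Finset.eq_of_subset_of_card_le hfl (by rw [Finset.card_singleton]; omega)
  have m1 : w (k + 2) ∈ nb G A (w (k + 1)) := by
    rw [e1]
    exact Finset.mem_singleton_self _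
  have m2 : 37 * (k + 2) + 1 ∈ B.filter (fun p => w (k + 1) ∈ lb w a b c p) := by
    rw [e2]
    exact Finset.mem_singleton_self _
  exact hP.p1 (k + 2) 1 (by norm_num) (by norm_num) (Finset.mem_filter.1 m2).1 (mem_nb.1 m1).1

theorem Deg_mem_prj {v : V} :
    v ∈ prj w a b c A B ↔ (v ∈ A ∧ v ∉ xt a b c A B) ∨ ∃ k ∈ blk B, w k = v := by
  unfold prj
  rw [Finset.mem_union, Finset.mem_sdiff, Finset.mem_image]

theorem Deg_w_prj (hL : Lay G D w a b c) {k : ℤ} :
    w k ∈ prj w a b c A B ↔ w k ∈ A ∨ k ∈ blk B := by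
  rw [Deg_mem_prj]
  constructor
  · rintro (⟨h1, -⟩ | ⟨l, hl, e⟩)
    · exact Or.inl h1
    · rw [hL.winj e] at hl
      exact Or.inr hl
  · rintro (h1 | h1)
    · refine Or.inl ⟨h1, ?_⟩
      rw [Deg_xt]
      rintro ⟨-, l, -, hl⟩
      exact hL.notw _ _ hl
    · exact Or.inr ⟨k, h1, rfl⟩

/-- (iii) left -/
theorem Deg_C1 (hL : Lay G D w a b c) (hA : ∀ v ∈ A, D v) (h : Hol G (lb w a b c) A B)
    (hP : Pat w a b c A B) {k : ℤ} (hk : k ∈ blk B) :
    w (k - 1) ∈ prj w a b c A B ↔ 37 * k + 9 ∈ B := by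
  rw [Deg_w_prj hL]
  constructor
  · rintro (h1 | h1)
    · exact Deg_S1 hL hA h hP hk h1
    · by_contra h9
      have h27 : 37 * k + 27 ∈ B := (Deg_or hP hk).resolve_left h9
      have h10 : 37 * k + 10 ∉ B := fun h10 => h9 (Deg_ten hP h10).1
      have hne : (a k ∪ b k ∪ c k) ≠ ∅ := by
        intro he
        have := hP.p8r k h27 h10
        rw [he] at this
        simp at this
      have hem : a (k - 1) ∪ b (k - 1) ∪ c (k - 1) = ∅ := by
        rcases hL.gap (k - 1) with hg | hg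
        · exact hg
        · rw [sub_add_cancel] at hg
          exact absurd hg hne
      have h27' : 37 * (k - 1) + 27 ∈ B := by
        by_contra h27'
        have h9' := (Deg_or hP h1).resolve_right h27'
        have h10' : 37 * (k - 1) + 10 ∉ B := fun h10 => h27' (Deg_ten hP h10).2
        have := hP.p8l _ h9' h10'
        rw [hem] at this
        simp at this
      have h35 := hP.p3r (k - 1) 35 (by norm_num) (by norm_num) h27'
      have hw1 : w (k - 1) ∉ A := Deg_notA hP h1
      have hw2 : w k ∉ A := Deg_notA hP hk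
      have hd := h.degB _ h35
      have hl : lb w a b c (37 * (k - 1) + 35) ∩ A = ∅ := by
        rw [Deg_lb35, sub_add_cancel]
        ext x
        simp only [Finset.mem_inter, Finset.mem_insert, Finset.mem_singleton,
          Finset.notMem_empty, iff_false, not_and]
        rintro (rfl | rfl)
        · exact hw1
        · exact hw2
      rw [hl, Finset.card_empty] at hd
      have h36 : 37 * (k - 1) + 35 + 1 ∈ B := by
        by_contra h36
        rw [if_neg h36] at hd
        split_ifs at hd <;> omega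
      apply h9
      refine hP.p2l k 0 le_rfl (by norm_num) ?_
      rw [add_zero, hP.p6]
      have e : 37 * (k - 1) + 35 + 1 = 37 * k - 1 := by ring
      rw [← e]
      exact h36
  · intro h9
    rcases hP.p4l k h9 with h1 | h1
    · right
      rw [Deg_blk]
      refine ⟨36, by norm_num, le_rfl, ?_⟩
      have e : 37 * (k - 1) + 36 = 37 * k - 1 := by ring
      rw [e, ← hP.p6]
      exact h1
    · exact Or.inl h1

/-- (iii) right -/
theorem Deg_C2 (hL : Lay G D w a b c) (hA : ∀ v ∈ A, D v) (h : Hol G (lb w a b c) A B)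
    (hP : Pat w a b c A B) {k : ℤ} (hk : k ∈ blk B) :
    w (k + 1) ∈ prj w a b c A B ↔ 37 * k + 27 ∈ B := by
  rw [Deg_w_prj hL]
  constructor
  · rintro (h1 | h1)
    · exact Deg_S2 hL hA h hP hk h1
    · by_contra h27
      have h9 : 37 * k + 9 ∈ B := (Deg_or hP hk).resolve_right h27
      have h10 : 37 * k + 10 ∉ B := fun h10 => h27 (Deg_ten hP h10).2
      have hne : (a k ∪ b k ∪ c k) ≠ ∅ := by
        intro he
        have := hP.p8l k h9 h10
        rw [he] at this
        simp at this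
      have hem : a (k + 1) ∪ b (k + 1) ∪ c (k + 1) = ∅ := by
        rcases hL.gap k with hg | hg
        · exact absurd hg hne
        · exact hg
      have h9' : 37 * (k + 1) + 9 ∈ B := by
        by_contra h9'
        have h27' := (Deg_or hP h1).resolve_left h9'
        have h10' : 37 * (k + 1) + 10 ∉ B := fun h10 => h9' (Deg_ten hP h10).1
        have := hP.p8r _ h27' h10'
        rw [hem] at this
        simp at this
      have h01 := hP.p3l (k + 1) 1 (by norm_num) (by norm_num) h9'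
      have hw1 : w (k + 1) ∉ A := Deg_notA hP h1
      have hw2 : w k ∉ A := Deg_notA hP hk
      have hd := h.degB _ h01
      have hl : lb w a b c (37 * (k + 1) + 1) ∩ A = ∅ := by
        rw [Deg_lb1, add_sub_cancel_right]
        ext x
        simp only [Finset.mem_inter, Finset.mem_insert, Finset.mem_singleton,
          Finset.notMem_empty, iff_false, not_and]
        rintro (rfl | rfl)
        · exact hw2
        · exact hw1
      rw [hl, Finset.card_empty] at hd
      have h00 : 37 * (k + 1) + 1 - 1 ∈ B := by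
        by_contra h00
        rw [if_neg h00] at hd
        split_ifs at hd <;> omega
      apply h27
      refine hP.p2r k 36 (by norm_num) le_rfl ?_
      have e : 37 * k + 36 = 37 * (k + 1) - 1 := by ring
      have e2 : 37 * (k + 1) + 1 - 1 = 37 * (k + 1) := by ring
      rw [e, ← hP.p6, ← e2]
      exact h00
  · intro h27
    rcases hP.p4r k h27 with h1 | h1
    · right
      rw [Deg_blk]
      refine ⟨0, le_rfl, by norm_num, ?_⟩
      rw [add_zero, hP.p6]
      have e : 37 * (k + 1) - 1 = 37 * k + 36 := by ring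
      rw [e]
      exact h1
    · exact Or.inl h1

/-- (ii) injectivity -/
theorem Deg_inj (hL : Lay G D w a b c) (hP : Pat w a b c A B) {v : V} (hv : v ∈ A)
    (hvx : v ∉ xt a b c A B) {p q : ℤ} (hp : p ∈ B) (hq : q ∈ B) (hvp : v ∈ lb w a b c p)
    (hvq : v ∈ lb w a b c q) (hpq : p / 37 = q / 37) : p = q := by
  have key : ∀ k : ℤ, 37 * k + 9 ∈ B → 37 * k + 27 ∈ B → v ∈ a k ∪ b k ∪ c k → False := by
    intro k h9 h27 hvk
    apply hvx
    rw [Deg_xt]
    refine ⟨hv, k, ?_, hvk⟩
    rw [Deg_tee]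
    refine ⟨h9, h27, fun h10 => ?_⟩
    have h0 := hP.p7l k h9 h10
    have : v ∈ (a k ∪ b k ∪ c k) ∩ A := Finset.mem_inter.2 ⟨hvk, hv⟩
    rw [h0] at this
    simp at this
  rcases Deg_pfive hP hp hv hvp with ⟨h1, h2⟩ | ⟨h1, h2⟩ | ⟨h1, h2⟩ <;>
  rcases Deg_pfive hP hq hv hvq with ⟨g1, g2⟩ | ⟨g1, g2⟩ | ⟨g1, g2⟩
  · omega
  · have h3 := hL.winj (h2.symm.trans g2)
    omega
  · rw [h2] at g2
    exact absurd g2 (hL.notw _ _)
  · have h3 := hL.winj (h2.symm.trans g2)
    omega
  · omega
  · rw [h2] at g2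
    exact absurd g2 (hL.notw _ _)
  · rw [g2] at h2
    exact absurd h2 (hL.notw _ _)
  · rw [g2] at h2
    exact absurd h2 (hL.notw _ _)
  · rcases h1 with h1 | h1 <;> rcases g1 with g1 | g1
    · omega
    · exfalso
      refine key (p / 37) ?_ ?_ h2
      · rw [← h1]; exact hp
      · rw [hpq, ← g1]; exact hq
    · exfalso
      refine key (p / 37) ?_ ?_ h2
      · rw [hpq, ← g1]; exact hq
      · rw [← h1]; exact hp
    · omega

/-- (ii) surjectivity -/
theorem Deg_surj (hL : Lay G D w a b c) (hA : ∀ v ∈ A, D v) (h : Hol G (lb w a b c) A B)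
    (hP : Pat w a b c A B) {v : V} (hv : v ∈ A) {k : ℤ} (hk : k ∈ blk B)
    (hadj : G.Adj v (w k)) : ∃ p ∈ B, v ∈ lb w a b c p ∧ p / 37 = k := by
  have hadj' := (hL.adj k v (hA v hv)).1 hadj.symm
  rcases hadj' with he | he | he
  · have h9 := Deg_S1 hL hA h hP hk (he ▸ hv)
    refine ⟨37 * k + 1, hP.p3l k 1 le_rfl (by norm_num) h9, ?_, by omega⟩
    rw [Deg_lb1, he]
    simp
  · have h27 := Deg_S2 hL hA h hP hk (he ▸ hv)
    refine ⟨37 * k + 35, hP.p3r k 35 (by norm_num) (by norm_num) h27, ?_, by omega⟩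
    rw [Deg_lb35, he]
    simp
  · rcases Deg_or hP hk with h9 | h27
    · exact ⟨37 * k + 9, h9, by rw [Deg_lb9]; exact he, by omega⟩
    · exact ⟨37 * k + 27, h27, by rw [Deg_lb27]; exact he, by omega⟩

end DegAux

/-- all degrees of the projected cycle are 2 -/
theorem prj_deg {G : SimpleGraph V} {D : V → Prop} {w : ℤ → V} {a b c : ℤ → Finset V}
    (hL : Lay G D w a b c) (hDU : ∀ k, ∀ x ∈ a k ∪ b k ∪ c k, D x)
    {A : Finset V} {B : Finset ℤ} (hA : ∀ v ∈ A, D v)
    (h : Hol G (lb w a b c) A B) (hP : Pat w a b c A B) :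
    ∀ v ∈ prj w a b c A B, (nb G (prj w a b c A B) v).card = 2 := by
  classical
  intro v hv
  by_cases hvw : ∃ k ∈ blk B, w k = v
  · -- a vertex of the last old path
    obtain ⟨k, hk, rfl⟩ := hvw
    have hwk : w k ∉ A := Deg_notA hP hk
    set S := (a k ∪ b k ∪ c k) ∩ A with hS
    have hnb : nb G (prj w a b c A B) (w k) =
        ((({w (k - 1), w (k + 1)} : Finset V).filter (fun x => x ∈ prj w a b c A B)) ∪
          (S \ xt a b c A B)) := by
      ext x
      rw [mem_nb, Finset.mem_union, Finset.mem_filter, Finset.mem_insert,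
        Finset.mem_singleton, Finset.mem_sdiff, hS, Finset.mem_inter]
      constructor
      · rintro ⟨hx, hadj⟩
        have hDx : D x := by
          rcases Deg_mem_prj.1 hx with ⟨h1, -⟩ | ⟨l, -, rfl⟩
          · exact hA x h1
          · exact hL.wD l
        rcases (hL.adj k x hDx).1 hadj with he | he | he
        · exact Or.inl ⟨Or.inl he, hx⟩
        · exact Or.inl ⟨Or.inr he, hx⟩
        · right
          rcases Deg_mem_prj.1 hx with ⟨h1, h2⟩ | ⟨l, -, rfl⟩
          · exact ⟨⟨he, h1⟩, h2⟩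
          · exact absurd he (hL.notw _ _)
      · rintro (⟨h1, h2⟩ | ⟨⟨h1, h2⟩, h3⟩)
        · refine ⟨h2, ?_⟩
          rcases h1 with rfl | rfl
          · exact (hL.adj k _ (hL.wD _)).2 (Or.inl rfl)
          · exact (hL.adj k _ (hL.wD _)).2 (Or.inr (Or.inl rfl))
        · refine ⟨Deg_mem_prj.2 (Or.inl ⟨h2, h3⟩), ?_⟩
          exact (hL.adj k _ (hA x h2)).2 (Or.inr (Or.inr h1))
    have hdis : Disjoint (({w (k - 1), w (k + 1)} : Finset V).filter
        (fun x => x ∈ prj w a b c A B)) (S \ xt a b c A B) := by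
      rw [Finset.disjoint_left]
      intro x hx hx'
      rw [Finset.mem_filter, Finset.mem_insert, Finset.mem_singleton] at hx
      have h1 := (Finset.mem_inter.1 (Finset.mem_sdiff.1 hx').1).1
      rcases hx.1 with rfl | rfl
      · exact hL.notw _ _ h1
      · exact hL.notw _ _ h1
    rw [hnb, Finset.card_union_of_disjoint hdis]
    have hne : w (k - 1) ≠ w (k + 1) := fun e => by
      have := hL.winj e
      omega
    have hc1 : (({w (k - 1), w (k + 1)} : Finset V).filter
        (fun x => x ∈ prj w a b c A B)).card =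
        (if 37 * k + 9 ∈ B then 1 else 0) + (if 37 * k + 27 ∈ B then 1 else 0) := by
      rw [Finset.filter_insert, Finset.filter_singleton]
      simp only [Deg_C1 hL hA h hP hk, Deg_C2 hL hA h hP hk]
      by_cases h9 : 37 * k + 9 ∈ B <;> by_cases h27 : 37 * k + 27 ∈ B
      · rw [if_pos h9, if_pos h27, if_pos h9, if_pos h27, Finset.card_insert_of_notMem]
        · simp
        · rw [Finset.mem_singleton]
          exact hne
      · rw [if_pos h9, if_neg h27, if_pos h9, if_neg h27]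
        simp
      · rw [if_neg h9, if_pos h27, if_neg h9, if_pos h27]
        simp
      · rw [if_neg h9, if_neg h27, if_neg h9, if_neg h27]
        simp
    rw [hc1]
    -- an element of S outside of tee blocks
    have hone : S.card = 1 → ¬ (37 * k + 9 ∈ B ∧ 37 * k + 27 ∈ B) →
        (S \ xt a b c A B).card = 1 := by
      intro hS1 hno
      have : S \ xt a b c A B = S := by
        rw [Finset.sdiff_eq_self_iff_disjoint, Finset.disjoint_left]
        intro x hx hxt
        obtain ⟨hxA, l, hl, hxl⟩ := Deg_xt.1 hxt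
        have hxk : x ∈ a k ∪ b k ∪ c k := (Finset.mem_inter.1 hx).1
        have hpos := (Deg_i h hxA hl hxl).2
        have hl' := Deg_tee.1 hl
        rcases Deg_or hP hk with h9 | h27
        · have := hpos _ h9 (by rw [Deg_lb9]; exact hxk)
          have hkl : k = l := by omega
          subst hkl
          exact hno ⟨hl'.1, hl'.2.1⟩
        · have := hpos _ h27 (by rw [Deg_lb27]; exact hxk)
          have hkl : k = l := by omega
          subst hkl
          exact hno ⟨hl'.1, hl'.2.1⟩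
      rw [this, hS1]
    by_cases h9 : 37 * k + 9 ∈ B <;> by_cases h27 : 37 * k + 27 ∈ B
    · rw [if_pos h9, if_pos h27]
      have hz : S \ xt a b c A B = ∅ := by
        by_cases h10 : 37 * k + 10 ∈ B
        · rw [hS, hP.p7l k h9 h10, Finset.empty_sdiff]
        · rw [Finset.sdiff_eq_empty_iff_subset]
          intro x hx
          have hx' := Finset.mem_inter.1 hx
          rw [Deg_xt]
          exact ⟨hx'.2, k, Deg_tee.2 ⟨h9, h27, h10⟩, hx'.1⟩
      rw [hz, Finset.card_empty]
    · rw [if_pos h9, if_neg h27]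
      have h10 : 37 * k + 10 ∉ B := fun h10 => h27 (Deg_ten hP h10).2
      rw [hone (hP.p8l k h9 h10) (fun hh => h27 hh.2)]
    · rw [if_neg h9, if_pos h27]
      have h10 : 37 * k + 10 ∉ B := fun h10 => h9 (Deg_ten hP h10).1
      rw [hone (hP.p8r k h27 h10) (fun hh => h9 hh.1)]
    · exfalso
      rcases Deg_or hP hk with h9' | h27'
      · exact h9 h9'
      · exact h27 h27'
  · -- a vertex of the cycle
    have hv' : v ∈ A ∧ v ∉ xt a b c A B := (Deg_mem_prj.1 hv).resolve_right hvw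
    obtain ⟨hvA, hvx⟩ := hv'
    have hnb : nb G (prj w a b c A B) v =
        nb G A v ∪ ((blk B).filter (fun k => G.Adj v (w k))).image w := by
      ext x
      rw [mem_nb, Finset.mem_union, mem_nb, Finset.mem_image]
      constructor
      · rintro ⟨hx, hadj⟩
        rcases Deg_mem_prj.1 hx with ⟨h1, -⟩ | ⟨l, hl, rfl⟩
        · exact Or.inl ⟨h1, hadj⟩
        · exact Or.inr ⟨l, Finset.mem_filter.2 ⟨hl, hadj⟩, rfl⟩
      · rintro (⟨h1, h2⟩ | ⟨l, hl, rfl⟩)
        · refine ⟨Deg_mem_prj.2 (Or.inl ⟨h1, ?_⟩), h2⟩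
          intro hxt
          obtain ⟨hxA, l, hl, hxl⟩ := Deg_xt.1 hxt
          exact (Deg_i h hxA hl hxl).1 v hvA h2.symm
        · obtain ⟨h1, h2⟩ := Finset.mem_filter.1 hl
          exact ⟨Deg_mem_prj.2 (Or.inr ⟨l, h1, rfl⟩), h2⟩
    have hdis : Disjoint (nb G A v) (((blk B).filter (fun k => G.Adj v (w k))).image w) := by
      rw [Finset.disjoint_left]
      intro x hx hx'
      obtain ⟨l, hl, rfl⟩ := Finset.mem_image.1 hx'
      exact Deg_notA hP (Finset.mem_filter.1 hl).1 (mem_nb.1 hx).1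
    rw [hnb, Finset.card_union_of_disjoint hdis, Finset.card_image_of_injective _ hL.winj]
    have hcard : (B.filter (fun p => v ∈ lb w a b c p)).card =
        ((blk B).filter (fun k => G.Adj v (w k))).card := by
      refine Finset.card_bij (fun p _ => p / 37) ?_ ?_ ?_
      · intro p hp
        obtain ⟨h1, h2⟩ := Finset.mem_filter.1 hp
        rw [Finset.mem_filter]
        exact ⟨Finset.mem_image_of_mem _ h1, Deg_adj hL hA hP h1 hvA h2⟩
      · intro p hp q hq hpq
        obtain ⟨h1, h2⟩ := Finset.mem_filter.1 hp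
        obtain ⟨g1, g2⟩ := Finset.mem_filter.1 hq
        exact Deg_inj hL hP hvA hvx h1 g1 h2 g2 hpq
      · intro k hk
        obtain ⟨h1, h2⟩ := Finset.mem_filter.1 hk
        obtain ⟨p, hp, hvp, e⟩ := Deg_surj hL hA h hP hvA h1 h2
        exact ⟨p, Finset.mem_filter.2 ⟨hp, hvp⟩, e⟩
    rw [← hcard]
    exact h.degA v hvA

end Pool.Agent.Helper32.EH
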