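import Pool.Agent.Helper32.EH.Free

set_option autoImplicit false

namespace Pool.Agent.Helper32.EH

theorem forest_inr {W : Type} (H : SimpleGraph W) (e : H.Dart) (v : W ⊕ H.Dart)
    (h : (dbl H).Adj (Sum.inr e) v) : v = Sum.inl e.fst ∨ v = Sum.inl e.snd := by
  rcases v with u | e'
  · rcases h with h | h
    · left; rw [h]
    · right; rw [h]
  · exact absurd h (by simp [dbl])

theorem forest_cyc (n : ℕ) (h4 : 4 ≤ n) (i : Fin n) : ∃ j k : Fin n, j ≠ k ∧
    (SimpleGraph.cycleGraph n).Adj i j ∧ (SimpleGraph.cycleGraph n).Adj i k ∧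
    ¬ (SimpleGraph.cycleGraph n).Adj j k := by
  obtain ⟨n, rfl⟩ : ∃ m, n = m + 4 := ⟨n - 4, by omega⟩
  have v2 : (1 + 1 : Fin (n + 4)) ≠ 0 := by
    intro h
    rw [Fin.ext_iff, Fin.val_add] at h
    have h1 : ((1 : Fin (n + 4)) : ℕ) = 1 := rfl
    have h0 : ((0 : Fin (n + 4)) : ℕ) = 0 := rfl
    rw [h1, h0, Nat.mod_eq_of_lt (by omega)] at h
    omega
  have v1 : (1 : Fin (n + 4)) ≠ 0 := by
    intro h
    rw [Fin.ext_iff] at h
    have h1 : ((1 : Fin (n + 4)) : ℕ) = 1 := rfl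
    have h0 : ((0 : Fin (n + 4)) : ℕ) = 0 := rfl
    rw [h1, h0] at h
    omega
  have v3 : (1 + 1 + 1 : Fin (n + 4)) ≠ 0 := by
    intro h
    rw [Fin.ext_iff, Fin.val_add, Fin.val_add] at h
    have h1 : ((1 : Fin (n + 4)) : ℕ) = 1 := rfl
    have h0 : ((0 : Fin (n + 4)) : ℕ) = 0 := rfl
    rw [h1, h0, Nat.mod_eq_of_lt (a := 1 + 1) (by omega), Nat.mod_eq_of_lt (by omega)] at h
    omega
  refine ⟨i - 1, i + 1, ?_, ?_, ?_, ?_⟩
  · intro h
    apply v2
    have e : (i + 1) - (i - 1) = (1 + 1 : Fin (n + 4)) := by abel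
    rw [← e, h, sub_self]
  · rw [SimpleGraph.cycleGraph_adj]
    left
    abel
  · rw [SimpleGraph.cycleGraph_adj]
    right
    abel
  · rw [SimpleGraph.cycleGraph_adj]
    rintro (h | h)
    · apply v3
      have e : (1 + 1 + 1 : Fin (n + 4)) = 1 - ((i - 1) - (i + 1)) := by abel
      rw [e, h, sub_self]
    · apply v1
      have e : (1 : Fin (n + 4)) = ((i + 1) - (i - 1)) - 1 := by abel
      rw [e, h, sub_self]

theorem dbl_chordal {W : Type} (H : SimpleGraph W)
    (h : ∀ n : ℕ, 4 ≤ n → IsEmpty (SimpleGraph.cycleGraph n ↪g H)) :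
    ∀ n : ℕ, 4 ≤ n → IsEmpty (SimpleGraph.cycleGraph n ↪g dbl H) := by
  intro n hn
  refine ⟨fun f => ?_⟩
  have key : ∀ i, ∃ u : W, f i = Sum.inl u := by
    intro i
    rcases hi : f i with u | e
    · exact ⟨u, rfl⟩
    · exfalso
      obtain ⟨j, k, hjk, h1, h2, h3⟩ := forest_cyc n hn i
      have a1 : (dbl H).Adj (f i) (f j) := f.map_rel_iff.2 h1
      have a2 : (dbl H).Adj (f i) (f k) := f.map_rel_iff.2 h2
      rw [hi] at a1 a2
      have hne : f j ≠ f k := fun h => hjk (f.injective h)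
      apply h3
      rw [← f.map_rel_iff]
      have hadj := e.adj
      rcases forest_inr H e _ a1 with b1 | b1 <;> rcases forest_inr H e _ a2 with b2 | b2
      · exact absurd (b1.trans b2.symm) hne
      · rw [b1, b2]; exact hadj
      · rw [b1, b2]; exact hadj.symm
      · exact absurd (b1.trans b2.symm) hne
  choose g hg using key
  refine (h n hn).false ⟨⟨g, ?_⟩, ?_⟩
  · intro i j hij
    apply f.injective
    rw [hg, hg, hij]
  · intro i j
    rw [← f.map_rel_iff, hg, hg]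
    rfl

theorem dbl_cliqueFree {W : Type} (H : SimpleGraph W) (h : H.CliqueFree 4) :
    (dbl H).CliqueFree 4 := by
  classical
  intro s hs
  rw [SimpleGraph.isNClique_iff] at hs
  obtain ⟨hc, hcard⟩ := hs
  by_cases he : ∃ e : H.Dart, Sum.inr e ∈ s
  · obtain ⟨e, he⟩ := he
    have hsub : s ⊆ {Sum.inr e, Sum.inl e.fst, Sum.inl e.snd} := by
      intro v hv
      by_cases hve : v = Sum.inr e
      · simp [hve]
      · have := hc (Finset.mem_coe.2 he) (Finset.mem_coe.2 hv) (Ne.symm hve)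
        rcases forest_inr H e v this with h1 | h1 <;> simp [h1]
    have h1 := Finset.card_le_card hsub
    have h2 : ({Sum.inr e, Sum.inl e.fst, Sum.inl e.snd} : Finset (W ⊕ H.Dart)).card ≤ 3 :=
      Finset.card_le_three
    omega
  · push Not at he
    have key : ∀ v ∈ s, ∃ u : W, v = Sum.inl u := by
      intro v hv
      rcases v with u | e
      · exact ⟨u, rfl⟩
      · exact absurd hv (he e)
    apply h (s.preimage Sum.inl (Sum.inl_injective.injOn))
    rw [SimpleGraph.isNClique_iff]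
    constructor
    · intro x hx y hy hxy
      simp only [Finset.coe_preimage, Set.mem_preimage] at hx hy
      exact hc hx hy (fun h => hxy (Sum.inl_injective h))
    · rw [Finset.card_preimage, Finset.filter_true_of_mem, hcard]
      intro x hx
      obtain ⟨u, rfl⟩ := key x hx
      exact ⟨u, rfl⟩

theorem H0_chordal : ∀ n : ℕ, 4 ≤ n → IsEmpty (SimpleGraph.cycleGraph n ↪g H0) := by
  intro n hn
  refine ⟨fun f => ?_⟩
  have := Fintype.card_le_of_injective f f.injective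
  simp at this
  omega

theorem H0_cliqueFree : H0.CliqueFree 4 := by
  intro s hs
  rw [SimpleGraph.isNClique_iff] at hs
  have := Finset.card_le_univ s
  simp at this
  omega

/-- the old graph sits in its extension -/
def forest_inl {W : Type} (H : SimpleGraph W) : H ↪g dbl H where
  toFun := Sum.inl
  inj' := Sum.inl_injective
  map_rel_iff' := Iff.rfl

theorem forest_child {W : Type} (H : SimpleGraph W) (f : dbl H ↪g gr) (x y : W)
    (hxy : H.Adj x y) (ho : older (f (Sum.inl x)) (f (Sum.inl y))) :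
    ∃ c : W ⊕ H.Dart, older (f (Sum.inl y)) (f c) ∧ (dbl H).Adj (Sum.inl x) c ∧
      (dbl H).Adj (Sum.inl y) c ∧
      ∀ z : W, z ≠ x → z ≠ y → ¬ (dbl H).Adj (Sum.inl z) c := by
  let e1 : H.Dart := ⟨(x, y), hxy⟩
  let e2 : H.Dart := ⟨(y, x), hxy.symm⟩
  have b1 : (dbl H).Adj (Sum.inr e1) (Sum.inl x) := Or.inl rfl
  have b2 : (dbl H).Adj (Sum.inr e1) (Sum.inl y) := Or.inr rfl
  have b3 : (dbl H).Adj (Sum.inr e2) (Sum.inl x) := Or.inr rfl
  have b4 : (dbl H).Adj (Sum.inr e2) (Sum.inl y) := Or.inl rfl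
  have hne : (Sum.inr e1 : W ⊕ H.Dart) ≠ Sum.inr e2 := by
    intro h
    have h' := Sum.inr_injective h
    have : e1.fst = e2.fst := by rw [h']
    exact hxy.ne this
  have ad : (dbl H).Adj (Sum.inl x) (Sum.inl y) := hxy
  rcases young_child ho (f.map_rel_iff.2 ad) (f.map_rel_iff.2 b1) (f.map_rel_iff.2 b2)
    (f.map_rel_iff.2 b3) (f.map_rel_iff.2 b4) (fun h => f.map_rel_iff.1 h)
    (fun h => hne (f.injective h)) with h | h
  · refine ⟨Sum.inr e1, h, b1.symm, b2.symm, ?_⟩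
    rintro z hz1 hz2 (h | h)
    · exact hz1 h
    · exact hz2 h
  · refine ⟨Sum.inr e2, h, b3.symm, b4.symm, ?_⟩
    rintro z hz1 hz2 (h | h)
    · exact hz2 h
    · exact hz1 h

/-- the excluded forest does not embed -/
theorem no_emb : IsEmpty (dbl (dbl (dbl (dbl H0))) ↪g gr) := by
  refine ⟨fun F => ?_⟩
  let f3 : dbl (dbl (dbl H0)) ↪g gr := F.comp (forest_inl _)
  let f2 : dbl (dbl H0) ↪g gr := f3.comp (forest_inl _)
  let f1 : dbl H0 ↪g gr := f2.comp (forest_inl _)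
  obtain ⟨u, v, huv, ho⟩ : ∃ u v : Bool, H0.Adj u v ∧ older (f1 (Sum.inl u)) (f1 (Sum.inl v)) := by
    have hne : f1 (Sum.inl true) ≠ f1 (Sum.inl false) := fun h => by
      have := f1.injective h
      simp at this
    rcases older_total hne with h | h
    · exact ⟨true, false, by simp [H0], h⟩
    · exact ⟨false, true, by simp [H0], h⟩
  obtain ⟨c2, o2, a02, a12, -⟩ := forest_child H0 f1 u v huv ho
  have o02 : older (f1 (Sum.inl u)) (f1 c2) := older_trans ho o2
  have n02 : Sum.inl u ≠ c2 := by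
    intro h; rw [h] at o02; exact older_irrefl _ o02
  have n12 : Sum.inl v ≠ c2 := by
    intro h; rw [h] at o2; exact older_irrefl _ o2
  obtain ⟨y0, p0, a0, b0, k0⟩ := forest_child (dbl H0) f2 (Sum.inl u) c2 a02 o02
  obtain ⟨c3, o3, a13, a23, -⟩ := forest_child (dbl H0) f2 (Sum.inl v) c2 a12 o2
  have n23 : Sum.inl c2 ≠ c3 := by
    intro h; rw [h] at o3; exact older_irrefl _ o3
  have o13 : older (f2 (Sum.inl (Sum.inl v))) (f2 c3) := older_trans o2 o3
  have n13 : Sum.inl (Sum.inl v) ≠ c3 := by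
    intro h; rw [h] at o13; exact older_irrefl _ o13
  obtain ⟨y1, p1, a1, b1, k1⟩ := forest_child (dbl (dbl H0)) f3 (Sum.inl (Sum.inl v)) c3 a13 o13
  obtain ⟨c4, o4, a24, a34, k4⟩ := forest_child (dbl (dbl H0)) f3 (Sum.inl c2) c3 a23 o3
  have n34 : Sum.inl c3 ≠ c4 := by
    intro h; rw [h] at o4; exact older_irrefl _ o4
  have o24 : older (f3 (Sum.inl (Sum.inl c2))) (f3 c4) := older_trans o3 o4
  obtain ⟨y2, p2, a2, b2, k2⟩ := forest_child (dbl (dbl (dbl H0))) F (Sum.inl (Sum.inl c2)) c4 a24 o24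
  have huv' : u ≠ v := huv.ne
  refine no_config (f1 (Sum.inl u)) (f1 (Sum.inl v)) (f1 c2) (f2 c3) (f3 c4) (f2 y0) (f3 y1) (F y2)
    ho o2 o3 o4 p0 p1 p2 (f1.map_rel_iff.2 huv) (f1.map_rel_iff.2 a02) (f1.map_rel_iff.2 a12)
    (f2.map_rel_iff.2 a13) (f2.map_rel_iff.2 a23) (f3.map_rel_iff.2 a24) (f3.map_rel_iff.2 a34)
    (f2.map_rel_iff.2 a0) (f2.map_rel_iff.2 b0) (f3.map_rel_iff.2 a1) (f3.map_rel_iff.2 b1)
    (F.map_rel_iff.2 a2) (F.map_rel_iff.2 b2) ?_ ?_ ?_ ?_
  · intro h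
    exact k0 (Sum.inl v) (fun h => huv' (Sum.inl_injective h).symm) n12 (f2.map_rel_iff.1 h)
  · intro h
    exact k1 (Sum.inl c2) (fun h => n12 (Sum.inl_injective h).symm) n23 (f3.map_rel_iff.1 h)
  · intro h
    exact k2 (Sum.inl c3) (fun h => n23 (Sum.inl_injective h).symm) n34 (F.map_rel_iff.1 h)
  · intro h
    exact k4 (Sum.inl (Sum.inl v)) (fun h => n12 (Sum.inl_injective h)) n13 (f3.map_rel_iff.1 h)

end Pool.Agent.Helper32.EH
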