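import Mathlib

set_option autoImplicit false

namespace Pool.Agent.Helper32.EH

section MinorAux

variable {V : Type} {G : SimpleGraph V}

/-- closure form of connectedness -/
def MinorCn (G : SimpleGraph V) (S : Finset V) : Prop :=
  ∀ T ⊆ S, T.Nonempty → (∀ u ∈ T, ∀ v ∈ S, G.Adj u v → v ∈ T) → T = S

theorem MinorCn_singleton (x : V) : MinorCn G {x} := by
  intro T hT hne _
  exact (Finset.Nonempty.subset_singleton_iff hne).1 hT

theorem MinorCn_insert [DecidableEq V] {S : Finset V} {x c : V} (hS : MinorCn G S)
    (hc : c ∈ S) (hxc : G.Adj x c) : MinorCn G (insert x S) := by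
  intro T hT hne hcl
  have h1 : (T ∩ S).Nonempty := by
    obtain ⟨t, ht⟩ := hne
    rcases Finset.mem_insert.1 (hT ht) with rfl | h
    · exact ⟨c, Finset.mem_inter.2 ⟨hcl t ht c (Finset.mem_insert_of_mem hc) hxc, hc⟩⟩
    · exact ⟨t, Finset.mem_inter.2 ⟨ht, h⟩⟩
  have h2 : T ∩ S = S := hS _ Finset.inter_subset_right h1 (by
    intro u hu v hv huv
    rw [Finset.mem_inter] at hu ⊢
    exact ⟨hcl u hu.1 v (Finset.mem_insert_of_mem hv) huv, hv⟩)
  have h3 : S ⊆ T := by
    intro z hz
    rw [← h2] at hz
    exact (Finset.mem_inter.1 hz).1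
  apply Finset.Subset.antisymm hT
  intro v hv
  rcases Finset.mem_insert.1 hv with rfl | h
  · exact hcl c (h3 hc) v hv hxc.symm
  · exact h3 h

theorem MinorCn_reach {S : Finset V} (hS : MinorCn G S) {x y : V} (hx : x ∈ S) (hy : y ∈ S) :
    (G.induce (S : Set V)).Reachable ⟨x, hx⟩ ⟨y, hy⟩ := by
  classical
  let T := S.filter (fun v => ∃ h : v ∈ S, (G.induce (S : Set V)).Reachable ⟨x, hx⟩ ⟨v, h⟩)
  have hT : T = S := hS T (Finset.filter_subset _ _)
    ⟨x, Finset.mem_filter.2 ⟨hx, hx, SimpleGraph.Reachable.refl _⟩⟩ (by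
    intro u hu v hv huv
    obtain ⟨huS, huS', hr⟩ := Finset.mem_filter.1 hu
    refine Finset.mem_filter.2 ⟨hv, hv, hr.trans (SimpleGraph.Adj.reachable ?_)⟩
    exact huv)
  have h : y ∈ T := by
    rw [hT]
    exact hy
  exact (Finset.mem_filter.1 h).2.2

theorem MinorCn_of_connected {S : Finset V} (h : (G.induce (S : Set V)).Preconnected) :
    MinorCn G S := by
  intro T hT hne hcl
  apply Finset.Subset.antisymm hT
  obtain ⟨t, ht⟩ := hne
  intro s hs
  obtain ⟨p⟩ := h ⟨t, hT ht⟩ ⟨s, hs⟩
  have key : ∀ (a b : (S : Set V)), (G.induce (S : Set V)).Walk a b → a.1 ∈ T → b.1 ∈ T := by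
    intro a b q
    induction q with
    | nil => exact fun h => h
    | cons hadj _ ih =>
      intro ha
      exact ih (hcl _ ha _ (Subtype.prop _) hadj)
  exact key _ _ p ht

theorem Minor_cyc {l : ℕ} {u v : Fin (l + 2)} : (SimpleGraph.cycleGraph (l + 2)).Adj u v ↔
    (u.val + 1 = v.val ∨ v.val + 1 = u.val ∨ (u.val = 0 ∧ v.val = l + 1) ∨
      (v.val = 0 ∧ u.val = l + 1)) := by
  rw [SimpleGraph.cycleGraph_adj']
  rw [Fin.sub_def, Fin.sub_def]
  simp only
  have hu := u.isLt
  have hv := v.isLt
  constructor
  · rintro (h | h)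
    · rcases Nat.lt_or_ge (l + 2 - v.val + u.val) (l + 2) with h1 | h1
      · rw [Nat.mod_eq_of_lt h1] at h
        omega
      · rw [Nat.mod_eq_sub_mod h1, Nat.mod_eq_of_lt (by omega)] at h
        omega
    · rcases Nat.lt_or_ge (l + 2 - u.val + v.val) (l + 2) with h1 | h1
      · rw [Nat.mod_eq_of_lt h1] at h
        omega
      · rw [Nat.mod_eq_sub_mod h1, Nat.mod_eq_of_lt (by omega)] at h
        omega
  · rintro (h | h | ⟨h, h'⟩ | ⟨h, h'⟩)
    · right
      rw [Nat.mod_eq_sub_mod (by omega), Nat.mod_eq_of_lt (by omega)]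
      omega
    · left
      rw [Nat.mod_eq_sub_mod (by omega), Nat.mod_eq_of_lt (by omega)]
      omega
    · left
      rw [Nat.mod_eq_of_lt (by omega)]
      omega
    · right
      rw [Nat.mod_eq_of_lt (by omega)]
      omega

/-- two nonadjacent vertices with neighbours in a connected set `C` and a common neighbour
away from `C`: there is a long induced cycle -/
theorem Minor_K (hch : ∀ n : ℕ, 4 ≤ n → IsEmpty (SimpleGraph.cycleGraph n ↪g G))
    {C : Finset V} (hC : MinorCn G C) {x y v cx cy : V} (hxy : x ≠ y)
    (hnxy : ¬ G.Adj x y) (hcx : cx ∈ C) (hxcx : G.Adj x cx) (hcy : cy ∈ C)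
    (hycy : G.Adj y cy) (hvx : G.Adj v x) (hvy : G.Adj v y) (hvC : v ∉ C)
    (hv : ∀ z ∈ C, ¬ G.Adj v z) : False := by
  classical
  set S : Finset V := insert x (insert y C) with hS
  have hSc : MinorCn G S := MinorCn_insert (MinorCn_insert hC hcy hycy)
    (Finset.mem_insert_of_mem hcx) hxcx
  have hxS : x ∈ S := Finset.mem_insert_self _ _
  have hyS : y ∈ S := Finset.mem_insert_of_mem (Finset.mem_insert_self _ _)
  have hvS : v ∉ S := by
    rw [hS, Finset.mem_insert, Finset.mem_insert]
    rintro (rfl | rfl | h)
    · exact G.irrefl hvx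
    · exact G.irrefl hvy
    · exact hvC h
  obtain ⟨p, hp⟩ := (MinorCn_reach hSc hxS hyS).exists_walk_length_eq_dist
  set l := p.length with hl
  have hd : ∀ i, i ≤ l → (G.induce (S : Set V)).dist ⟨x, hxS⟩ (p.getVert i) = i := by
    intro i hi
    have h1 := SimpleGraph.length_eq_dist_of_subwalk (p₂ := p.take i) hp
      (SimpleGraph.Walk.isSubwalk_take _ _)
    rw [← h1, SimpleGraph.Walk.take_length]
    omega
  have hl1 : 1 ≤ l := by
    by_contra h0
    have h1 := p.getVert_length
    have h2 := p.getVert_zero
    have h3 : p.length = 0 := by omega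
    rw [h3, h2] at h1
    exact hxy (congrArg Subtype.val h1)
  have hl2 : 2 ≤ l := by
    by_contra h0
    have h1 := p.getVert_length
    have h2 := p.getVert_zero
    have h3 : p.length = 1 := by omega
    have h4 := p.adj_getVert_succ (i := 0) (by omega)
    rw [h2, zero_add, ← h3, h1] at h4
    exact hnxy h4
  have hinj : ∀ i j, i ≤ l → j ≤ l → (p.getVert i).1 = (p.getVert j).1 → i = j := by
    intro i j hi hj hij
    have h1 : p.getVert i = p.getVert j := Subtype.ext hij
    rw [← hd i hi, ← hd j hj, h1]
  have hpS : ∀ i, (p.getVert i).1 ∈ S := fun i => (p.getVert i).2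
  have hend : ∀ i, i ≤ l → (G.Adj v (p.getVert i).1 ↔ i = 0 ∨ i = l) := by
    intro i hi
    constructor
    · intro hadj
      have h1 : (p.getVert i).1 = x ∨ (p.getVert i).1 = y ∨ (p.getVert i).1 ∈ C := by
        rcases Finset.mem_insert.1 (hpS i) with h1 | h1
        · exact Or.inl h1
        · exact Or.inr (Finset.mem_insert.1 h1)
      rcases h1 with h1 | h1 | h1
      · left
        apply hinj i 0 hi (Nat.zero_le _)
        rw [h1, p.getVert_zero]
      · right
        apply hinj i l hi le_rfl
        rw [h1, hl, p.getVert_length]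
      · exact absurd hadj (hv _ h1)
    · rintro (rfl | rfl)
      · rw [p.getVert_zero]
        exact hvx
      · rw [hl, p.getVert_length]
        exact hvy
  have hmid : ∀ i j, i ≤ l → j ≤ l →
      (G.Adj (p.getVert i).1 (p.getVert j).1 ↔ i + 1 = j ∨ j + 1 = i) := by
    intro i j hi hj
    constructor
    · intro hadj
      have h1 : (G.induce (S : Set V)).Adj (p.getVert i) (p.getVert j) := hadj
      have h2 := h1.diff_dist_adj (u := ⟨x, hxS⟩)
      rw [hd i hi, hd j hj] at h2
      have hne : i ≠ j := by
        rintro rfl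
        exact G.irrefl hadj
      omega
    · rintro (rfl | rfl)
      · exact p.adj_getVert_succ (i := i) (by omega)
      · exact (p.adj_getVert_succ (i := j) (by omega)).symm
  let f : Fin (l + 2) → V := fun i => if i.val ≤ l then (p.getVert i.val).1 else v
  have hf1 : ∀ i : Fin (l + 2), i.val ≤ l → f i = (p.getVert i.val).1 := fun i hi => if_pos hi
  have hf2 : ∀ i : Fin (l + 2), ¬ i.val ≤ l → f i = v := fun i hi => if_neg hi
  have hfinj : Function.Injective f := by
    intro i j hij
    by_cases hi : i.val ≤ l <;> by_cases hj : j.val ≤ l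
    · rw [hf1 i hi, hf1 j hj] at hij
      exact Fin.ext (hinj _ _ hi hj hij)
    · rw [hf1 i hi, hf2 j hj] at hij
      exact absurd (hij ▸ hpS _) hvS
    · rw [hf2 i hi, hf1 j hj] at hij
      exact absurd (hij ▸ hpS _) hvS
    · have hi' := i.isLt
      have hj' := j.isLt
      exact Fin.ext (by omega)
  have hfadj : ∀ i j : Fin (l + 2), G.Adj (f i) (f j) ↔
      (SimpleGraph.cycleGraph (l + 2)).Adj i j := by
    intro i j
    rw [Minor_cyc]
    have hi' := i.isLt
    have hj' := j.isLt
    by_cases hi : i.val ≤ l <;> by_cases hj : j.val ≤ l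
    · rw [hf1 i hi, hf1 j hj, hmid _ _ hi hj]
      constructor
      · rintro (h | h)
        · exact Or.inl h
        · exact Or.inr (Or.inl h)
      · omega
    · rw [hf1 i hi, hf2 j hj, G.adj_comm, hend _ hi]
      omega
    · rw [hf2 i hi, hf1 j hj, hend _ hj]
      omega
    · rw [hf2 i hi, hf2 j hj]
      constructor
      · intro h
        exact absurd h G.irrefl
      · omega
  exact (hch (l + 2) (by omega)).false ⟨⟨f, hfinj⟩, hfadj _ _⟩

/-- Dirac: a nonempty vertex set of a chordal graph contains a simplicial vertex -/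
theorem Minor_simp (hch : ∀ n : ℕ, 4 ≤ n → IsEmpty (SimpleGraph.cycleGraph n ↪g G)) (N : ℕ) :
    ∀ X : Finset V, X.card ≤ N → X.Nonempty →
      ∃ v ∈ X, ∀ s ∈ X, ∀ t ∈ X, G.Adj v s → G.Adj v t → s ≠ t → G.Adj s t := by
  classical
  induction N with
  | zero =>
    intro X hX hne
    exact absurd (Finset.card_pos.2 hne) (by omega)
  | succ N ih =>
    intro X hX hne
    by_cases hcl : ∀ s ∈ X, ∀ t ∈ X, s ≠ t → G.Adj s t
    · obtain ⟨v, hv⟩ := hne
      exact ⟨v, hv, fun s hs t ht _ _ hst => hcl s hs t ht hst⟩
    · push Not at hcl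
      obtain ⟨s0, hs0, t0, ht0, hst0, hnst0⟩ := hcl
      let W : Finset V → Finset V := fun C => X.filter (fun z => z ∉ C ∧ ∀ u ∈ C, ¬ G.Adj u z)
      let F : Finset (Finset V) := X.powerset.filter
        (fun C => C.Nonempty ∧ MinorCn G C ∧ (W C).Nonempty)
      have hF : F.Nonempty := by
        refine ⟨{s0}, Finset.mem_filter.2 ⟨?_, ?_, MinorCn_singleton _, ?_⟩⟩
        · rw [Finset.mem_powerset, Finset.singleton_subset_iff]
          exact hs0
        · exact Finset.singleton_nonempty _
        · refine ⟨t0, Finset.mem_filter.2 ⟨ht0, ?_, ?_⟩⟩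
          · rw [Finset.mem_singleton]
            exact hst0.symm
          · intro u hu
            rw [Finset.mem_singleton] at hu
            rw [hu]
            exact hnst0
      obtain ⟨C, hCF, hmax⟩ := Finset.exists_max_image F Finset.card hF
      obtain ⟨hCX, hCne, hCc, hCW⟩ := Finset.mem_filter.1 hCF
      rw [Finset.mem_powerset] at hCX
      have hWcard : (W C).card ≤ N := by
        have h1 : W C ⊆ X \ C := by
          intro z hz
          obtain ⟨h1, h2, -⟩ := Finset.mem_filter.1 hz
          exact Finset.mem_sdiff.2 ⟨h1, h2⟩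
        have h2 := Finset.card_le_card h1
        rw [Finset.card_sdiff_of_subset hCX] at h2
        have h3 := Finset.card_pos.2 hCne
        omega
      obtain ⟨v, hvW, hvs⟩ := ih (W C) hWcard hCW
      obtain ⟨hvX, hvC, hvn⟩ := Finset.mem_filter.1 hvW
      have hfull : ∀ n ∈ X, n ∉ C → n ∉ W C → ∀ z ∈ W C, G.Adj n z := by
        intro n hn hnC hnW z hz
        obtain ⟨hzX, hzC, hzn⟩ := Finset.mem_filter.1 hz
        have hex : ∃ u ∈ C, G.Adj u n := by
          by_contra hno
          push Not at hno
          exact hnW (Finset.mem_filter.2 ⟨hn, hnC, hno⟩)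
        obtain ⟨u, hu, hun⟩ := hex
        by_contra hnz
        have hmem : insert n C ∈ F := by
          refine Finset.mem_filter.2 ⟨?_, ⟨n, Finset.mem_insert_self _ _⟩,
            MinorCn_insert hCc hu hun.symm, ?_⟩
          · rw [Finset.mem_powerset]
            exact Finset.insert_subset hn hCX
          · refine ⟨z, Finset.mem_filter.2 ⟨hzX, ?_, ?_⟩⟩
            · rw [Finset.mem_insert]
              rintro (rfl | h)
              · exact hnW hz
              · exact hzC h
            · intro q hq
              rcases Finset.mem_insert.1 hq with rfl | h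
              · exact hnz
              · exact hzn q h
        have h1 := hmax _ hmem
        rw [Finset.card_insert_of_notMem hnC] at h1
        omega
      refine ⟨v, hvX, ?_⟩
      intro s hs t ht hvs' hvt' hst
      have hsC : s ∉ C := fun h => hvn s h hvs'.symm
      have htC : t ∉ C := fun h => hvn t h hvt'.symm
      by_cases hsW : s ∈ W C <;> by_cases htW : t ∈ W C
      · exact hvs s hsW t htW hvs' hvt' hst
      · exact (hfull t ht htC htW s hsW).symm
      · exact hfull s hs hsC hsW t htW
      · by_contra hnst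
        have hex : ∀ n ∈ X, n ∉ C → n ∉ W C → ∃ u ∈ C, G.Adj n u := by
          intro n hn hnC hnW
          by_contra hno
          push Not at hno
          exact hnW (Finset.mem_filter.2 ⟨hn, hnC, fun u hu h => hno u hu h.symm⟩)
        obtain ⟨cx, hcx, hsx⟩ := hex s hs hsC hsW
        obtain ⟨cy, hcy, hty⟩ := hex t ht htC htW
        exact Minor_K hch hCc hst hnst hcx hsx hcy hty hvs' hvt' hvC
          (fun z hz h => hvn z hz h.symm)

/-- a bramble of a chordal graph is hit by a clique -/
theorem Minor_bramble (hch : ∀ n : ℕ, 4 ≤ n → IsEmpty (SimpleGraph.cycleGraph n ↪g G))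
    {ι : Type} (N : ℕ) :
    ∀ X : Finset V, X.card ≤ N → ∀ B : ι → Finset V, (∀ i, B i ⊆ X) → (∀ i, (B i).Nonempty) →
      (∀ i, MinorCn G (B i)) → (∀ i j, ∃ x ∈ B i, ∃ y ∈ B j, x = y ∨ G.Adj x y) →
      ∃ K : Finset V, (∀ s ∈ K, ∀ t ∈ K, s ≠ t → G.Adj s t) ∧ ∀ i, ∃ x ∈ K, x ∈ B i := by
  classical
  induction N with
  | zero =>
    intro X hX B hBX hBne _ _
    have hX0 : X = ∅ := Finset.card_eq_zero.1 (by omega)
    refine ⟨∅, by simp, fun i => ?_⟩
    obtain ⟨z, hz⟩ := hBne i
    have := hBX i hz
    rw [hX0] at this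
    simp at this
  | succ N ih =>
    intro X hX B hBX hBne hBc hBt
    rcases Finset.eq_empty_or_nonempty X with hX0 | hXne
    · exact ih X (by rw [hX0]; simp) B hBX hBne hBc hBt
    · obtain ⟨v, hvX, hvs⟩ := Minor_simp hch X.card X le_rfl hXne
      by_cases hone : ∃ i0, B i0 = {v}
      · obtain ⟨i0, hi0⟩ := hone
        refine ⟨X.filter (fun z => z = v ∨ G.Adj v z), ?_, ?_⟩
        · intro s hs t ht hst
          obtain ⟨hsX, hsv⟩ := Finset.mem_filter.1 hs
          obtain ⟨htX, htv⟩ := Finset.mem_filter.1 ht
          rcases hsv with rfl | hsv <;> rcases htv with rfl | htv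
          · exact absurd rfl hst
          · exact htv
          · exact hsv.symm
          · exact hvs s hsX t htX hsv htv hst
        · intro i
          obtain ⟨x, hx, y, hy, hxy⟩ := hBt i0 i
          rw [hi0, Finset.mem_singleton] at hx
          subst hx
          refine ⟨y, Finset.mem_filter.2 ⟨hBX i hy, ?_⟩, hy⟩
          rcases hxy with h | h
          · exact Or.inl h.symm
          · exact Or.inr h
      · push Not at hone
        -- a neighbour of `v` in `B i` if `v ∈ B i`
        have hnb : ∀ i, v ∈ B i → ∃ z ∈ B i, G.Adj v z := by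
          intro i hvi
          by_contra hno
          push Not at hno
          have := hBc i {v} (Finset.singleton_subset_iff.2 hvi) (Finset.singleton_nonempty _) (by
            intro u hu z hz huz
            rw [Finset.mem_singleton] at hu
            rw [hu] at huz
            exact absurd huz (hno z hz))
          exact hone i this.symm
        have hX' : (X.erase v).card ≤ N := by
          rw [Finset.card_erase_of_mem hvX]
          omega
        suffices hsuf : (∀ i, ((B i).erase v).Nonempty) ∧ (∀ i, MinorCn G ((B i).erase v)) ∧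
            (∀ i j, ∃ x ∈ (B i).erase v, ∃ y ∈ (B j).erase v, x = y ∨ G.Adj x y) by
          obtain ⟨K, hK1, hK2⟩ := ih (X.erase v) hX' (fun i => (B i).erase v)
            (fun i => Finset.erase_subset_erase v (hBX i)) hsuf.1 hsuf.2.1 hsuf.2.2
          refine ⟨K, hK1, fun i => ?_⟩
          obtain ⟨x, hx, hxi⟩ := hK2 i
          exact ⟨x, hx, Finset.mem_of_mem_erase hxi⟩
        refine ⟨?_, ?_, ?_⟩
        · intro i
          by_cases hvi : v ∈ B i
          · obtain ⟨z, hz, hvz⟩ := hnb i hvi
            exact ⟨z, Finset.mem_erase.2 ⟨hvz.ne', hz⟩⟩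
          · rw [Finset.erase_eq_of_notMem hvi]
            exact hBne i
        · intro i T hT hTne hcl
          by_cases hvi : v ∈ B i
          · have hTB : T ⊆ B i := fun z hz => Finset.mem_of_mem_erase (hT hz)
            have hvT : v ∉ T := fun h => (Finset.mem_erase.1 (hT h)).1 rfl
            have hex : ∃ t ∈ T, G.Adj t v := by
              by_contra hno
              push Not at hno
              have := hBc i T hTB hTne (by
                intro u hu z hz huz
                by_cases hzv : z = v
                · rw [hzv] at huz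
                  exact absurd huz (hno u hu)
                · exact hcl u hu z (Finset.mem_erase.2 ⟨hzv, hz⟩) huz)
              rw [this] at hvT
              exact hvT hvi
            obtain ⟨t, ht, htv⟩ := hex
            have hfull := hBc i (insert v T) (Finset.insert_subset hvi hTB)
              ⟨v, Finset.mem_insert_self _ _⟩ (by
              intro u hu z hz huz
              by_cases hzv : z = v
              · rw [hzv]
                exact Finset.mem_insert_self _ _
              · apply Finset.mem_insert_of_mem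
                rcases Finset.mem_insert.1 hu with rfl | hu
                · by_cases hzt : t = z
                  · rw [← hzt]
                    exact ht
                  · have hadj := hvs t (hBX i (hTB ht)) z (hBX i hz) htv.symm huz hzt
                    exact hcl t ht z (Finset.mem_erase.2 ⟨hzv, hz⟩) hadj
                · exact hcl u hu z (Finset.mem_erase.2 ⟨hzv, hz⟩) huz)
            show T = (B i).erase v
            rw [← hfull, Finset.erase_insert hvT]
          · have e : (B i).erase v = B i := Finset.erase_eq_of_notMem hvi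
            have hT' : T ⊆ B i := fun z hz => Finset.mem_of_mem_erase (hT hz)
            show T = (B i).erase v
            rw [e]
            refine hBc i T hT' hTne ?_
            intro u hu z hz huz
            refine hcl u hu z ?_ huz
            show z ∈ (B i).erase v
            rw [e]
            exact hz
        · -- touching
          have hsub : ∀ i, ∀ z ∈ B i, z = v → ∃ z' ∈ (B i).erase v, G.Adj v z' := by
            intro i z hz hzv
            rw [hzv] at hz
            obtain ⟨z', hz', hvz'⟩ := hnb i hz
            exact ⟨z', Finset.mem_erase.2 ⟨hvz'.ne', hz'⟩, hvz'⟩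
          intro i j
          obtain ⟨x, hx, y, hy, hxy⟩ := hBt i j
          by_cases hxv : x = v <;> by_cases hyv : y = v
          · obtain ⟨x', hx', hvx'⟩ := hsub i x hx hxv
            obtain ⟨y', hy', hvy'⟩ := hsub j y hy hyv
            refine ⟨x', hx', y', hy', ?_⟩
            by_cases hne : x' = y'
            · exact Or.inl hne
            · exact Or.inr (hvs x' (hBX i (Finset.mem_of_mem_erase hx')) y'
                (hBX j (Finset.mem_of_mem_erase hy')) hvx' hvy' hne)
          · obtain ⟨x', hx', hvx'⟩ := hsub i x hx hxv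
            refine ⟨x', hx', y, Finset.mem_erase.2 ⟨hyv, hy⟩, ?_⟩
            have hvy : G.Adj v y := by
              rcases hxy with h | h
              · rw [hxv] at h
                exact absurd h.symm hyv
              · rw [hxv] at h
                exact h
            by_cases hne : x' = y
            · exact Or.inl hne
            · exact Or.inr (hvs x' (hBX i (Finset.mem_of_mem_erase hx')) y (hBX j hy)
                hvx' hvy hne)
          · obtain ⟨y', hy', hvy'⟩ := hsub j y hy hyv
            refine ⟨x, Finset.mem_erase.2 ⟨hxv, hx⟩, y', hy', ?_⟩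
            have hvx : G.Adj v x := by
              rcases hxy with h | h
              · rw [hyv] at h
                exact absurd h hxv
              · rw [hyv] at h
                exact h.symm
            by_cases hne : x = y'
            · exact Or.inl hne
            · exact Or.inr (hvs x (hBX i hx) y' (hBX j (Finset.mem_of_mem_erase hy'))
                hvx hvy' hne)
          · exact ⟨x, Finset.mem_erase.2 ⟨hxv, hx⟩, y, Finset.mem_erase.2 ⟨hyv, hy⟩, hxy⟩

end MinorAux

/-- A chordal graph with `m` disjoint connected pairwise touching vertex sets has a clique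
of size `m`. -/
theorem chordal_minor {V : Type} [Fintype V] (G : SimpleGraph V)
    (hch : ∀ n : ℕ, 4 ≤ n → IsEmpty (SimpleGraph.cycleGraph n ↪g G)) (m : ℕ)
    (B : Fin m → Set V) (hd : ∀ i j, i ≠ j → Disjoint (B i) (B j))
    (hc : ∀ i, (G.induce (B i)).Connected)
    (ht : ∀ i j, i ≠ j → ∃ x ∈ B i, ∃ y ∈ B j, G.Adj x y) : ¬ G.CliqueFree m := by
  classical
  let B' : Fin m → Finset V := fun i => (B i).toFinset
  have hB' : ∀ i x, x ∈ B' i ↔ x ∈ B i := fun i x => Set.mem_toFinset
  have hcoe : ∀ i, ((B' i : Finset V) : Set V) = B i := fun i => Set.coe_toFinset _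
  have hne : ∀ i, (B' i).Nonempty := by
    intro i
    obtain ⟨z⟩ := (hc i).nonempty
    exact ⟨z.1, (hB' i _).2 z.2⟩
  have hcn : ∀ i, MinorCn G (B' i) := by
    intro i
    apply MinorCn_of_connected
    rw [hcoe]
    exact (hc i).preconnected
  have htt : ∀ i j, ∃ x ∈ B' i, ∃ y ∈ B' j, x = y ∨ G.Adj x y := by
    intro i j
    by_cases hij : i = j
    · subst hij
      obtain ⟨z, hz⟩ := hne i
      exact ⟨z, hz, z, hz, Or.inl rfl⟩
    · obtain ⟨x, hx, y, hy, hxy⟩ := ht i j hij
      exact ⟨x, (hB' i x).2 hx, y, (hB' j y).2 hy, Or.inr hxy⟩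
  obtain ⟨K, hK1, hK2⟩ := Minor_bramble hch (Finset.univ : Finset V).card Finset.univ le_rfl B'
    (fun i => Finset.subset_univ _) hne hcn htt
  choose k hk1 hk2 using hK2
  have hkinj : Function.Injective k := by
    intro i j hij
    by_contra hne
    have h1 := (hB' i _).1 (hk2 i)
    have h2 := (hB' j _).1 (hk2 j)
    rw [hij] at h1
    exact Set.disjoint_left.1 (hd i j hne) h1 h2
  intro hfree
  refine hfree (Finset.univ.image k) ⟨?_, ?_⟩
  · intro s hs t ht hst
    obtain ⟨i, -, rfl⟩ := Finset.mem_image.1 (Finset.mem_coe.1 hs)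
    obtain ⟨j, -, rfl⟩ := Finset.mem_image.1 (Finset.mem_coe.1 ht)
    exact hK1 _ (hk1 i) _ (hk1 j) hst
  · rw [Finset.card_image_of_injective _ hkinj, Finset.card_univ, Fintype.card_fin]

end Pool.Agent.Helper32.EH
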