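import Pool.Agent.Helper32.EH.Odd
import Pool.Agent.Helper32.EH.Forest
import Pool.Agent.Helper32.EH.Minor
import Pool.Agent.Helper32.EH.Box
import Pool.Agent.Helper32.EH.Cyc

set_option autoImplicit false

namespace Pool.Agent.Helper32.EH

/-- the inclusion of a box in the whole graph -/
def boxEmb (m : ℕ) : box m ↪g gr where
  toFun := Subtype.val
  inj' := Subtype.val_injective
  map_rel_iff' := Iff.rfl

theorem dart_finite {W : Type} [Finite W] (H : SimpleGraph W) : Finite H.Dart :=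
  Finite.of_injective (fun d : H.Dart => d.toProd) SimpleGraph.Dart.toProd_injective

/-- the excluded 2-forest -/
abbrev H4 : SimpleGraph
    ((((Bool ⊕ H0.Dart) ⊕ (dbl H0).Dart) ⊕ (dbl (dbl H0)).Dart) ⊕ (dbl (dbl (dbl H0))).Dart) :=
  dbl (dbl (dbl (dbl H0)))

theorem H4_finite : Finite
    ((((Bool ⊕ H0.Dart) ⊕ (dbl H0).Dart) ⊕ (dbl (dbl H0)).Dart) ⊕
      (dbl (dbl (dbl H0))).Dart) := by
  have := dart_finite H0
  have := dart_finite (dbl H0)
  have := dart_finite (dbl (dbl H0))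
  have := dart_finite (dbl (dbl (dbl H0)))
  infer_instance

theorem H4_chordal : ∀ n : ℕ, 4 ≤ n → IsEmpty (SimpleGraph.cycleGraph n ↪g H4) :=
  dbl_chordal _ (dbl_chordal _ (dbl_chordal _ (dbl_chordal _ H0_chordal)))

theorem H4_cliqueFree : H4.CliqueFree 4 :=
  dbl_cliqueFree _ (dbl_cliqueFree _ (dbl_cliqueFree _ (dbl_cliqueFree _ H0_cliqueFree)))

theorem box_even (m n : ℕ) (hn : 4 ≤ n) (he : Even n) :
    IsEmpty (SimpleGraph.cycleGraph n ↪g box m) := by
  refine ⟨fun f => ?_⟩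
  obtain ⟨S, hS, hc⟩ := cyc_of_emb gr n hn ((boxEmb m).comp f)
  have := gr_odd S hS
  rw [hc] at this
  exact (Nat.not_even_iff_odd.2 this) he

theorem box_H4 (m : ℕ) : IsEmpty (H4 ↪g box m) :=
  ⟨fun f => no_emb.false ((boxEmb m).comp f)⟩

theorem box_K5 (m : ℕ) : (box m).CliqueFree 5 := by
  refine SimpleGraph.CliqueFree.comap (G := gr) ?_ gr_cliqueFree
  exact ⟨(boxEmb m).toCopy⟩

theorem box_big (m : ℕ) (G' : SimpleGraph {x : P // inBox m x}) (hG : box m ≤ G')
    (hch : ∀ n : ℕ, 4 ≤ n → IsEmpty (SimpleGraph.cycleGraph n ↪g G')) :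
    ¬ G'.CliqueFree (m + 1) := by
  have := box_finite m
  have : Fintype {x : P // inBox m x} := Fintype.ofFinite _
  refine chordal_minor G' hch (m + 1)
    (fun l => {x : {x : P // inBox m x} | x.1.1 = (l : ℕ)}) ?_ (fun l => box_conn m G' hG l) ?_
  · intro i j hij
    rw [Set.disjoint_left]
    intro x hx hy
    simp only [Set.mem_setOf_eq] at hx hy
    exact hij (Fin.ext (hx.symm.trans hy))
  · have key : ∀ i j : Fin (m + 1), i < j →
        ∃ x : {x : P // inBox m x}, x.1.1 = (i : ℕ) ∧ ∃ y : {x : P // inBox m x},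
          y.1.1 = (j : ℕ) ∧ G'.Adj x y := by
      intro i j hij
      have hx : inBox m ((i : ℕ), (0 : ℤ)) :=
        ⟨Nat.lt_succ_iff.1 i.2, le_rfl, by positivity⟩
      obtain ⟨y, hy, ha⟩ := box_touch m i j hij (Nat.lt_succ_iff.1 j.2) ⟨_, hx⟩ rfl
      exact ⟨⟨_, hx⟩, rfl, y, hy, hG ha⟩
    intro i j hij
    rcases lt_or_gt_of_ne hij with h | h
    · obtain ⟨x, hx, y, hy, ha⟩ := key i j h
      exact ⟨x, hx, y, hy, ha⟩
    · obtain ⟨x, hx, y, hy, ha⟩ := key j i h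
      exact ⟨y, hy, x, hx, ha.symm⟩

end Pool.Agent.Helper32.EH
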