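import Pool.Agent.Helper32.EH.UFacts

set_option autoImplicit false

namespace Pool.Agent.Helper32.EH

theorem free_cases (m : ℕ) (i : ℤ) :
    U (m + 1) i = [(m, i / 37 - 1), (m, i / 37)] ∨ U (m + 1) i = [(m, i / 37), (m, i / 37 + 1)] ∨
    U (m + 1) i = [(m, i / 37)] ∨ U (m + 1) i = U m (i / 37) ∨
    U (m + 1) i = (U m (i / 37)).take 1 ∨ U (m + 1) i = (U m (i / 37)).drop 1 ++ [(m, i / 37)] ∨
    U (m + 1) i = (U m (i / 37)).drop 2 ∨ U (m + 1) i = (U m (i / 37)).take 2 ++ [(m, i / 37)] ∨
    U (m + 1) i = [] := by
  have h : U (m + 1) i = lab (U m (i / 37)) (m, i / 37 - 1) (m, i / 37) (m, i / 37 + 1) (i % 37) :=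
    rfl
  rw [h]
  generalize U m (i / 37) = W
  generalize (m, i / 37 - 1) = wl
  generalize (m, i / 37 + 1) = wr
  generalize (m, i / 37) = w
  unfold lab
  split_ifs
  · exact Or.inl rfl
  · exact Or.inr (Or.inl rfl)
  · exact Or.inr (Or.inr (Or.inl rfl))
  · exact Or.inr (Or.inr (Or.inr (Or.inl rfl)))
  · exact Or.inr (Or.inr (Or.inr (Or.inr (Or.inl rfl))))
  · exact Or.inr (Or.inr (Or.inr (Or.inr (Or.inr (Or.inl rfl)))))
  · exact Or.inr (Or.inr (Or.inr (Or.inr (Or.inr (Or.inr (Or.inl rfl))))))
  · exact Or.inr (Or.inr (Or.inr (Or.inr (Or.inr (Or.inr (Or.inr (Or.inl rfl)))))))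
  · exact Or.inr (Or.inr (Or.inr (Or.inr (Or.inr (Or.inr (Or.inr (Or.inr rfl)))))))

theorem free_lt_r {x r : P} (h : x ∈ U r.1 r.2) : x.1 < r.1 := U_lt h

theorem free_not_older {x r : P} (h : x ∈ U r.1 r.2) (h' : older r x) : False := by
  have := U_lt h
  rcases h' with h' | h' <;> omega

/-- first invariant -/
theorem phi (m : ℕ) (i : ℤ) : ∀ r ∈ U m i, ∀ p ∈ U m i, p ∈ U r.1 r.2 →
    ∀ q ∈ U r.1 r.2, q ∉ U m i → older p q → ∃ a b : P, U r.1 r.2 = [a, b, q] := by
  induction m generalizing i with
  | zero => intro r hr; simp [U] at hr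
  | succ m ih =>
    intro r hr p hp hpr q hq hqn hpq
    have hpr1 := free_lt_r hpr
    have hlen := U_len m (i / 37)
    have hsort := U_sorted m (i / 37)
    have hlt : ∀ x ∈ U m (i / 37), x.1 < m := fun x hx => U_lt hx
    rcases free_cases m i with h | h | h | h | h | h | h | h | h <;> rw [h] at hr hp hqn
    · simp at hr hp
      rcases hr with rfl | rfl <;> rcases hp with rfl | rfl <;> simp at hpr1
    · simp at hr hp
      rcases hr with rfl | rfl <;> rcases hp with rfl | rfl <;> simp at hpr1
    · simp at hr hp
      subst hr; subst hp; simp at hpr1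
    · exact ih _ r hr p hp hpr q hq hqn hpq
    · rcases hW : U m (i / 37) with _ | ⟨x, l⟩
      · rw [hW] at hr; simp at hr
      · rw [hW] at hr hp; simp at hr hp
        subst hr; subst hp; omega
    · rcases hW : U m (i / 37) with _ | ⟨x, l⟩
      · rw [hW] at hr hp; simp at hr hp
        subst hr; subst hp; simp at hpr1
      · rw [hW] at hr hp hqn
        rw [hW] at hsort
        rw [List.pairwise_cons] at hsort
        simp only [List.drop_succ_cons, List.drop_zero, List.mem_append, List.mem_singleton] at hr hp hqn
        push Not at hqn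
        rcases hr with hr | hr
        · rcases hp with hp | hp
          · by_cases hqW : q ∈ U m (i / 37)
            · rw [hW, List.mem_cons] at hqW
              rcases hqW with rfl | hqW
              · exfalso
                have := hsort.1 p hp
                exact older_irrefl _ (older_trans this hpq)
              · exact absurd hqW hqn.1
            · refine ih (i / 37) r ?_ p ?_ hpr q hq hqW hpq
              · rw [hW]; exact List.mem_cons_of_mem _ hr
              · rw [hW]; exact List.mem_cons_of_mem _ hp
          · exfalso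
            have := hlt r (by rw [hW]; exact List.mem_cons_of_mem _ hr)
            subst hp
            simp at hpr1
            omega
        · subst hr
          rcases hp with hp | hp
          · simp only [] at hq
            rw [hW, List.mem_cons] at hq
            rcases hq with rfl | hq
            · exfalso
              have := hsort.1 p hp
              exact older_irrefl _ (older_trans this hpq)
            · exact absurd hq hqn.1
          · subst hp; simp at hpr1
    · exfalso
      rcases hW : U m (i / 37) with _ | ⟨x, _ | ⟨y, _ | ⟨z, _ | ⟨u, l⟩⟩⟩⟩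
      · rw [hW] at hr; simp at hr
      · rw [hW] at hr; simp at hr
      · rw [hW] at hr; simp at hr
      · rw [hW] at hr hp; simp at hr hp
        subst hr; subst hp; omega
      · rw [hW] at hlen; simp at hlen; omega
    · rcases hW : U m (i / 37) with _ | ⟨x, _ | ⟨y, l⟩⟩
      · rw [hW] at hr hp; simp at hr hp
        subst hr; subst hp; simp at hpr1
      · rw [hW] at hr hp hqn
        simp at hr hp hqn
        rcases hr with rfl | rfl
        · rcases hp with rfl | rfl
          · omega
          · exfalso
            have := hlt r (by rw [hW]; simp)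
            simp at hpr1
            omega
        · exfalso
          simp only [] at hq
          rw [hW] at hq
          simp at hq
          exact hqn.1 hq
      · rw [hW] at hr hp hqn
        rw [hW, List.pairwise_cons, List.pairwise_cons] at hsort
        obtain ⟨hs1, hs2, hs3⟩ := hsort
        simp only [List.take_succ_cons, List.take_zero, List.cons_append, List.nil_append,
          List.mem_cons, List.not_mem_nil, or_false] at hr hp hqn
        push Not at hqn
        obtain ⟨hq1, hq2, hq3⟩ := hqn
        rcases hr with rfl | rfl | rfl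
        · exfalso
          rcases hp with rfl | rfl | rfl
          · omega
          · exact free_not_older hpr (hs1 p (by simp))
          · have := hlt r (by rw [hW]; simp)
            simp at hpr1
            omega
        · rcases hp with rfl | rfl | rfl
          · by_cases hqW : q ∈ U m (i / 37)
            · exfalso
              rw [hW] at hqW
              simp only [List.mem_cons] at hqW
              rcases hqW with h1 | h1 | h1
              · exact hq1 h1
              · exact hq2 h1
              · exact free_not_older hq (hs2 q h1)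
            · refine ih (i / 37) r ?_ p ?_ hpr q hq hqW hpq
              · rw [hW]; simp
              · rw [hW]; simp
          · omega
          · exfalso
            have := hlt r (by rw [hW]; simp)
            simp at hpr1
            omega
        · simp only [] at hq ⊢
          rw [hW] at hq hlen ⊢
          simp only [List.mem_cons, List.length_cons] at hq hlen
          rcases hq with h1 | h1 | h1
          · exact absurd h1 hq1
          · exact absurd h1 hq2
          · rcases l with _ | ⟨z, l⟩
            · simp at h1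
            · have : l = [] := by
                rcases l with _ | ⟨u, l⟩
                · rfl
                · simp at hlen; omega
              subst this
              simp at h1
              subst h1
              exact ⟨x, y, rfl⟩
    · simp at hr

/-- second invariant -/
theorem psi (m : ℕ) (i : ℤ) : ∀ a b q a' b' r : P, U r.1 r.2 = [a, b, q] →
    U m i = [a', b', r] → q ∈ U m i → U m i = [b, q, r] := by
  induction m generalizing i with
  | zero => intro a b q a' b' r h1 h2; simp [U] at h2
  | succ m ih =>
    intro a b q a' b' r h1 h2 hq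
    have hlen := U_len m (i / 37)
    rcases free_cases m i with h | h | h | h | h | h | h | h | h
    · rw [h] at h2; simp at h2
    · rw [h] at h2; simp at h2
    · rw [h] at h2; simp at h2
    · rw [h] at h2 hq ⊢
      exact ih _ a b q a' b' r h1 h2 hq
    · rw [h] at h2
      have := congrArg List.length h2
      simp at this
      omega
    · rw [h] at h2
      have h3 : (U m (i / 37)).drop 1 = [a', b'] ∧ (m, i / 37) = r := by
        have h4 : (U m (i / 37)).drop 1 ++ [(m, i / 37)] = [a', b'] ++ [r] := h2
        have := List.append_inj_right' h4 rfl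
        have h5 := List.append_inj_left' h4 rfl
        simp at this
        exact ⟨h5, this⟩
      obtain ⟨h3, rfl⟩ := h3
      simp only [] at h1
      rw [h, h3]
      rw [h1] at h3
      simp at h3
      obtain ⟨rfl, rfl⟩ := h3
      rfl
    · rw [h] at h2
      have := congrArg List.length h2
      simp at this
      omega
    · rw [h] at h2 hq
      have h3 : (U m (i / 37)).take 2 = [a', b'] ∧ (m, i / 37) = r := by
        have h4 : (U m (i / 37)).take 2 ++ [(m, i / 37)] = [a', b'] ++ [r] := h2
        have := List.append_inj_right' h4 rfl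
        have h5 := List.append_inj_left' h4 rfl
        simp at this
        exact ⟨h5, this⟩
      obtain ⟨h3, rfl⟩ := h3
      simp only [] at h1
      exfalso
      have hs := U_sorted m (i / 37)
      have hlt : q.1 < m := U_lt (m := m) (i := i / 37) (by rw [h1]; simp)
      rw [h1] at hs hq
      simp at hs hq
      rcases hq with rfl | rfl | rfl
      · exact older_irrefl _ hs.1.2
      · exact older_irrefl _ hs.2
      · simp at hlt
    · rw [h] at h2; simp at h2

/-- the forbidden configuration -/
theorem no_config (v0 v1 v2 v3 v4 x0 x1 x2 : P) (h01 : older v0 v1) (h12 : older v1 v2)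
    (h23 : older v2 v3) (h34 : older v3 v4) (hx0 : older v2 x0) (hx1 : older v3 x1)
    (hx2 : older v4 x2) (a01 : gr.Adj v0 v1) (a02 : gr.Adj v0 v2) (a12 : gr.Adj v1 v2)
    (a13 : gr.Adj v1 v3) (a23 : gr.Adj v2 v3) (a24 : gr.Adj v2 v4) (a34 : gr.Adj v3 v4)
    (b0 : gr.Adj v0 x0) (c0 : gr.Adj v2 x0) (b1 : gr.Adj v1 x1) (c1 : gr.Adj v3 x1)
    (b2 : gr.Adj v2 x2) (c2 : gr.Adj v4 x2) (n0 : ¬ gr.Adj v1 x0) (n1 : ¬ gr.Adj v2 x1)
    (n2 : ¬ gr.Adj v3 x2) (n3 : ¬ gr.Adj v1 v4) : False := by
  obtain ⟨p1, p2⟩ := tri_mem h01 h12 a01 a02 a12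
  obtain ⟨p3, p4⟩ := tri_mem (older_trans h01 h12) hx0 a02 b0 c0
  obtain ⟨q1, q2⟩ := tri_mem h12 h23 a12 a13 a23
  obtain ⟨q3, q4⟩ := tri_mem (older_trans h12 h23) hx1 a13 b1 c1
  obtain ⟨r1, r2⟩ := tri_mem h23 h34 a23 a24 a34
  obtain ⟨r3, r4⟩ := tri_mem (older_trans h23 h34) hx2 a24 b2 c2
  have m0 : v1 ∉ U x0.1 x0.2 := fun h => n0 (U_adj h)
  have m1 : v2 ∉ U x1.1 x1.2 := fun h => n1 (U_adj h)
  have m2 : v3 ∉ U x2.1 x2.2 := fun h => n2 (U_adj h)
  obtain ⟨a0, b0', e0⟩ := phi x0.1 x0.2 v2 p4 v0 p3 p1 v1 p2 m0 h01
  obtain ⟨a1, b1', e1⟩ := phi x1.1 x1.2 v3 q4 v1 q3 q1 v2 q2 m1 h12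
  obtain ⟨a2, b2', e2⟩ := phi x2.1 x2.2 v4 r4 v2 r3 r1 v3 r2 m2 h23
  have s1 := psi v3.1 v3.2 a0 b0' v1 a1 b1' v2 e0 e1 q1
  have s2 := psi v4.1 v4.2 b0' v1 v2 a2 b2' v3 s1 e2 r1
  apply n3
  have : v1 ∈ U v4.1 v4.2 := by rw [s2]; simp
  exact U_adj this

end Pool.Agent.Helper32.EH
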