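import Pool.Agent.Helper32.EH.Defs

set_option autoImplicit false

namespace Pool.Agent.Helper32.EH

variable {V : Type} [DecidableEq V]

theorem mem_nb {G : SimpleGraph V} {A : Finset V} {v x : V} :
    x ∈ nb G A v ↔ x ∈ A ∧ G.Adj v x := by
  classical
  unfold nb
  simp

/-- a vertex of `A` with one neighbour in `A` and one label: there are no others -/
theorem near_one {G : SimpleGraph V} {L : ℤ → Finset V} {A : Finset V} {B : Finset ℤ}
    (h : Hol G L A B) {x y : V} {q : ℤ} (hx : x ∈ A) (hy : y ∈ A) (hxy : G.Adj x y)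
    (hq : q ∈ B) (hxq : x ∈ L q) :
    (∀ v ∈ A, G.Adj x v → v = y) ∧ ∀ p ∈ B, x ∈ L p → p = q := by
  have h1 := h.degA x hx
  have h2 : y ∈ nb G A x := mem_nb.2 ⟨hy, hxy⟩
  have h3 : q ∈ B.filter (fun p => x ∈ L p) := Finset.mem_filter.2 ⟨hq, hxq⟩
  have h4 : 1 ≤ (nb G A x).card := Finset.card_pos.2 ⟨y, h2⟩
  have h5 : 1 ≤ (B.filter (fun p => x ∈ L p)).card := Finset.card_pos.2 ⟨q, h3⟩
  have h6 : (nb G A x).card = 1 := by omega
  have h7 : (B.filter (fun p => x ∈ L p)).card = 1 := by omega
  constructor
  · intro v hv hxv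
    exact Finset.card_le_one.1 h6.le v (mem_nb.2 ⟨hv, hxv⟩) y h2
  · intro p hp hxp
    exact Finset.card_le_one.1 h7.le p (Finset.mem_filter.2 ⟨hp, hxp⟩) q h3

/-- An interval of `B` attached at both ends to the same vertex, or to two adjacent vertices,
is the whole cycle. -/
theorem near {G : SimpleGraph V} {L : ℤ → Finset V} {A : Finset V} {B : Finset ℤ}
    (h : Hol G L A B) (q q' : ℤ) (hlt : q < q')
    (hI : ∀ p : ℤ, q ≤ p → p ≤ q' → p ∈ B) (hl : q - 1 ∉ B) (hr : q' + 1 ∉ B)
    (x y : V) (hxA : x ∈ A) (hyA : y ∈ A) (hx : x ∈ L q) (hy : y ∈ L q')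
    (hxy : x = y ∨ G.Adj x y) :
    ((A.card + B.card : ℕ) : ℤ) = q' - q + 1 + (if x = y then 1 else 2) := by
  have hq : q ∈ B := hI q le_rfl hlt.le
  have hq' : q' ∈ B := hI q' hlt.le le_rfl
  have dq := h.degB q hq
  have dq' := h.degB q' hq'
  rw [if_neg hl, if_pos (hI (q + 1) (by omega) (by omega))] at dq
  rw [if_neg hr, if_pos (hI (q' - 1) (by omega) (by omega))] at dq'
  have cq : ∀ v ∈ A, v ∈ L q → v = x := by
    intro v hv hvq
    exact Finset.card_le_one.1 (show (L q ∩ A).card ≤ 1 by omega) v
      (Finset.mem_inter.2 ⟨hvq, hv⟩) x (Finset.mem_inter.2 ⟨hx, hxA⟩)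
  have cq' : ∀ v ∈ A, v ∈ L q' → v = y := by
    intro v hv hvq
    exact Finset.card_le_one.1 (show (L q' ∩ A).card ≤ 1 by omega) v
      (Finset.mem_inter.2 ⟨hvq, hv⟩) y (Finset.mem_inter.2 ⟨hy, hyA⟩)
  have cin : ∀ p, q < p → p < q' → ∀ v ∈ A, v ∉ L p := by
    intro p h1 h2 v hv hvp
    have dp := h.degB p (hI p h1.le h2.le)
    rw [if_pos (hI (p - 1) (by omega) (by omega)), if_pos (hI (p + 1) (by omega) (by omega))] at dp
    have h3 : (L p ∩ A).card = 0 := by omega
    rw [Finset.card_eq_zero] at h3
    have : v ∈ L p ∩ A := Finset.mem_inter.2 ⟨hvp, hv⟩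
    rw [h3] at this
    exact absurd this (Finset.notMem_empty v)
  have hBsub : Finset.Icc q q' ⊆ B := by
    intro p hp
    rw [Finset.mem_Icc] at hp
    exact hI p hp.1 hp.2
  have c4 : ∀ p ∈ Finset.Icc q q', ∀ r ∈ B, (r = p + 1 ∨ r = p - 1) → r ∈ Finset.Icc q q' := by
    intro p hp r hr' hpr
    rw [Finset.mem_Icc] at hp ⊢
    rcases hpr with rfl | rfl
    · have : p ≠ q' := by
        rintro rfl
        exact hr hr'
      omega
    · have : p ≠ q := by
        rintro rfl
        exact hl hr'
      omega
  have c3 : ∀ p ∈ Finset.Icc q q', ∀ v ∈ A, v ∈ L p → v = x ∨ v = y := by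
    intro p hp v hv hvp
    rw [Finset.mem_Icc] at hp
    rcases eq_or_lt_of_le hp.1 with h1 | h1
    · subst h1
      exact Or.inl (cq v hv hvp)
    · rcases eq_or_lt_of_le hp.2 with h2 | h2
      · subst h2
        exact Or.inr (cq' v hv hvp)
      · exact absurd hvp (cin p h1 h2 v hv)
  have hcard : (Finset.Icc q q').card = (q' + 1 - q).toNat := Int.card_Icc q q'
  by_cases hxe : x = y
  · subst hxe
    have d := h.degA x hxA
    have hsub : ({q, q'} : Finset ℤ) ⊆ B.filter (fun p => x ∈ L p) := by
      intro p hp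
      rw [Finset.mem_insert, Finset.mem_singleton] at hp
      rcases hp with rfl | rfl
      · exact Finset.mem_filter.2 ⟨hq, hx⟩
      · exact Finset.mem_filter.2 ⟨hq', hy⟩
    have hc2 : ({q, q'} : Finset ℤ).card = 2 := Finset.card_pair (by omega)
    have hle := Finset.card_le_card hsub
    have heq : ({q, q'} : Finset ℤ) = B.filter (fun p => x ∈ L p) :=
      Finset.eq_of_subset_of_card_le hsub (by omega)
    have hnb : (nb G A x).card = 0 := by omega
    rw [Finset.card_eq_zero] at hnb
    have key := h.conn {x} (Finset.singleton_subset_iff.2 hxA) (Finset.Icc q q') hBsub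
      (Or.inl (Finset.singleton_nonempty x))
      (by
        intro u hu v hv huv
        rw [Finset.mem_singleton] at hu
        subst hu
        have : v ∈ nb G A u := mem_nb.2 ⟨hv, huv⟩
        rw [hnb] at this
        exact absurd this (Finset.notMem_empty v))
      (by
        intro u hu p hp hup
        rw [Finset.mem_singleton] at hu
        subst hu
        have : p ∈ B.filter (fun p => u ∈ L p) := Finset.mem_filter.2 ⟨hp, hup⟩
        rw [← heq, Finset.mem_insert, Finset.mem_singleton] at this
        rw [Finset.mem_Icc]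
        omega)
      (by
        intro p hp v hv hvp
        rw [Finset.mem_singleton]
        rcases c3 p hp v hv hvp with h1 | h1 <;> exact h1)
      c4
    rw [← key.1, ← key.2, hcard, Finset.card_singleton, if_pos rfl]
    omega
  · have hadj : G.Adj x y := by
      rcases hxy with h1 | h1
      · exact absurd h1 hxe
      · exact h1
    obtain ⟨n1, n2⟩ := near_one h hxA hyA hadj hq hx
    obtain ⟨m1, m2⟩ := near_one h hyA hxA hadj.symm hq' hy
    have key := h.conn {x, y} (by
        intro v hv
        rw [Finset.mem_insert, Finset.mem_singleton] at hv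
        rcases hv with rfl | rfl
        · exact hxA
        · exact hyA) (Finset.Icc q q') hBsub
      (Or.inl ⟨x, Finset.mem_insert_self _ _⟩)
      (by
        intro u hu v hv huv
        rw [Finset.mem_insert, Finset.mem_singleton] at hu ⊢
        rcases hu with rfl | rfl
        · exact Or.inr (n1 v hv huv)
        · exact Or.inl (m1 v hv huv))
      (by
        intro u hu p hp hup
        rw [Finset.mem_insert, Finset.mem_singleton] at hu
        rw [Finset.mem_Icc]
        rcases hu with rfl | rfl
        · have := n2 p hp hup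
          omega
        · have := m2 p hp hup
          omega)
      (by
        intro p hp v hv hvp
        rw [Finset.mem_insert, Finset.mem_singleton]
        exact c3 p hp v hv hvp)
      c4
    rw [← key.1, ← key.2, hcard, Finset.card_pair hxe, if_neg hxe]
    omega

/-- two vertices of `A` in one label: the cycle is a triangle -/
theorem tri_pos {G : SimpleGraph V} {L : ℤ → Finset V} {A : Finset V} {B : Finset ℤ}
    (h : Hol G L A B) (hcl : ∀ p : ℤ, ∀ x ∈ L p, ∀ y ∈ L p, x ≠ y → G.Adj x y)
    (p : ℤ) (hp : p ∈ B) (h2 : 2 ≤ (L p ∩ A).card) : A.card + B.card = 3 := by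
  have dp := h.degB p hp
  have hc : (L p ∩ A).card = 2 := by
    split_ifs at dp <;> omega
  have hm : p - 1 ∉ B := by
    intro hh
    rw [if_pos hh] at dp
    omega
  have hpl : p + 1 ∉ B := by
    intro hh
    rw [if_pos hh] at dp
    omega
  obtain ⟨x, y, hxy, he⟩ := Finset.card_eq_two.1 hc
  have hx : x ∈ L p ∩ A := by rw [he]; simp
  have hy : y ∈ L p ∩ A := by rw [he]; simp
  rw [Finset.mem_inter] at hx hy
  have hadj := hcl p x hx.1 y hy.1 hxy
  obtain ⟨n1, n2⟩ := near_one h hx.2 hy.2 hadj hp hx.1
  obtain ⟨m1, m2⟩ := near_one h hy.2 hx.2 hadj.symm hp hy.1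
  have key := h.conn {x, y} (by
      intro v hv
      rw [Finset.mem_insert, Finset.mem_singleton] at hv
      rcases hv with rfl | rfl
      · exact hx.2
      · exact hy.2) {p} (Finset.singleton_subset_iff.2 hp)
    (Or.inl ⟨x, Finset.mem_insert_self _ _⟩)
    (by
      intro u hu v hv huv
      rw [Finset.mem_insert, Finset.mem_singleton] at hu ⊢
      rcases hu with rfl | rfl
      · exact Or.inr (n1 v hv huv)
      · exact Or.inl (m1 v hv huv))
    (by
      intro u hu r hr hur
      rw [Finset.mem_insert, Finset.mem_singleton] at hu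
      rw [Finset.mem_singleton]
      rcases hu with rfl | rfl
      · exact n2 r hr hur
      · exact m2 r hr hur)
    (by
      intro r hr v hv hvr
      rw [Finset.mem_singleton] at hr
      subst hr
      have : v ∈ L r ∩ A := Finset.mem_inter.2 ⟨hvr, hv⟩
      rwa [he] at this)
    (by
      intro r hr s hs hrs
      rw [Finset.mem_singleton] at hr
      subst hr
      rcases hrs with rfl | rfl
      · exact absurd hs hpl
      · exact absurd hs hm)
  rw [← key.1, ← key.2, Finset.card_pair hxy, Finset.card_singleton]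

/-- a vertex of `A` with two neighbours in `A`: there are no others and no labels -/
theorem near_two {G : SimpleGraph V} {L : ℤ → Finset V} {A : Finset V} {B : Finset ℤ}
    (h : Hol G L A B) {x y z : V} (hx : x ∈ A) (hy : y ∈ A) (hz : z ∈ A) (hxy : G.Adj x y)
    (hxz : G.Adj x z) (hyz : y ≠ z) :
    (∀ v ∈ A, G.Adj x v → v = y ∨ v = z) ∧ ∀ p ∈ B, x ∉ L p := by
  have h1 := h.degA x hx
  have hsub : ({y, z} : Finset V) ⊆ nb G A x := by
    intro v hv
    rw [Finset.mem_insert, Finset.mem_singleton] at hv
    rcases hv with rfl | rfl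
    · exact mem_nb.2 ⟨hy, hxy⟩
    · exact mem_nb.2 ⟨hz, hxz⟩
  have hc2 : ({y, z} : Finset V).card = 2 := Finset.card_pair hyz
  have hle := Finset.card_le_card hsub
  have heq : ({y, z} : Finset V) = nb G A x := Finset.eq_of_subset_of_card_le hsub (by omega)
  have h0 : (B.filter (fun p => x ∈ L p)).card = 0 := by omega
  rw [Finset.card_eq_zero] at h0
  constructor
  · intro v hv hxv
    have : v ∈ nb G A x := mem_nb.2 ⟨hv, hxv⟩
    rwa [← heq, Finset.mem_insert, Finset.mem_singleton] at this
  · intro p hp hxp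
    have : p ∈ B.filter (fun p => x ∈ L p) := Finset.mem_filter.2 ⟨hp, hxp⟩
    rw [h0] at this
    exact absurd this (Finset.notMem_empty p)

/-- three pairwise adjacent vertices of `A`: the cycle is a triangle -/
theorem tri_old {G : SimpleGraph V} {L : ℤ → Finset V} {A : Finset V} {B : Finset ℤ}
    (h : Hol G L A B) (x y z : V) (hx : x ∈ A) (hy : y ∈ A) (hz : z ∈ A)
    (hxy : G.Adj x y) (hxz : G.Adj x z) (hyz : G.Adj y z) : A.card + B.card = 3 := by
  obtain ⟨a1, a2⟩ := near_two h hx hy hz hxy hxz hyz.ne
  obtain ⟨b1, b2⟩ := near_two h hy hx hz hxy.symm hyz hxz.ne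
  obtain ⟨c1, c2⟩ := near_two h hz hx hy hxz.symm hyz.symm hxy.ne
  have key := h.conn {x, y, z} (by
      intro v hv
      rw [Finset.mem_insert, Finset.mem_insert, Finset.mem_singleton] at hv
      rcases hv with rfl | rfl | rfl
      · exact hx
      · exact hy
      · exact hz) ∅ (Finset.empty_subset _)
    (Or.inl ⟨x, Finset.mem_insert_self _ _⟩)
    (by
      intro u hu v hv huv
      rw [Finset.mem_insert, Finset.mem_insert, Finset.mem_singleton] at hu ⊢
      rcases hu with rfl | rfl | rfl
      · exact Or.inr (a1 v hv huv)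
      · rcases b1 v hv huv with h1 | h1
        · exact Or.inl h1
        · exact Or.inr (Or.inr h1)
      · rcases c1 v hv huv with h1 | h1
        · exact Or.inl h1
        · exact Or.inr (Or.inl h1))
    (by
      intro u hu p hp hup
      rw [Finset.mem_insert, Finset.mem_insert, Finset.mem_singleton] at hu
      rcases hu with rfl | rfl | rfl
      · exact absurd hup (a2 p hp)
      · exact absurd hup (b2 p hp)
      · exact absurd hup (c2 p hp))
    (by
      intro p hp
      exact absurd hp (Finset.notMem_empty p))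
    (by
      intro p hp
      exact absurd hp (Finset.notMem_empty p))
  rw [← key.1, ← key.2, Finset.card_empty, Finset.card_eq_three.2 ⟨x, y, z, hxy.ne, hxz.ne,
    hyz.ne, rfl⟩]

end Pool.Agent.Helper32.EH
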