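import Pool.Agent.Helper32.EH.Block

set_option autoImplicit false

namespace Pool.Agent.Helper32.EH

variable {V : Type} [DecidableEq V]

theorem par_lb9 (w : ℤ → V) (a b c : ℤ → Finset V) (k : ℤ) :
    lb w a b c (37 * k + 9) = a k ∪ b k ∪ c k := by
  rw [lb_at w a b c k 9 (by norm_num) (by norm_num)]
  norm_num

theorem par_lb27 (w : ℤ → V) (a b c : ℤ → Finset V) (k : ℤ) :
    lb w a b c (37 * k + 27) = a k ∪ b k ∪ c k := by
  rw [lb_at w a b c k 27 (by norm_num) (by norm_num)]
  norm_num

/-- an exit vertex has exactly two positions -/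
theorem par_exit {G : SimpleGraph V} {w : ℤ → V} {a b c : ℤ → Finset V}
    {A : Finset V} {B : Finset ℤ} (h : Hol G (lb w a b c) A B) {v : V} (hv : v ∈ A) {k : ℤ}
    (hk : k ∈ tee B) (hvk : v ∈ a k ∪ b k ∪ c k) :
    B.filter (fun p => v ∈ lb w a b c p) = {37 * k + 9, 37 * k + 27} := by
  have hk' := (Finset.mem_filter.mp hk).2
  have hsub : ({37 * k + 9, 37 * k + 27} : Finset ℤ) ⊆
      B.filter (fun p => v ∈ lb w a b c p) := by
    intro p hp
    rw [Finset.mem_insert, Finset.mem_singleton] at hp
    rw [Finset.mem_filter]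
    rcases hp with rfl | rfl
    · rw [par_lb9]; exact ⟨hk'.1, hvk⟩
    · rw [par_lb27]; exact ⟨hk'.2.1, hvk⟩
  have hc2 : ({37 * k + 9, 37 * k + 27} : Finset ℤ).card = 2 :=
    Finset.card_pair (by omega)
  have hle := Finset.card_le_card hsub
  have hdeg := h.degA v hv
  exact (Finset.eq_of_subset_of_card_le hsub (by omega)).symm

/-- number of exit vertices -/
theorem par_xt {G : SimpleGraph V} {w : ℤ → V} {a b c : ℤ → Finset V}
    {A : Finset V} {B : Finset ℤ} (h : Hol G (lb w a b c) A B) (hP : Pat w a b c A B) :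
    (xt a b c A B).card = (tee B).card := by
  classical
  have e : xt a b c A B = (tee B).biUnion (fun k => (a k ∪ b k ∪ c k) ∩ A) := by
    ext v
    unfold xt
    simp only [Finset.mem_filter, Finset.mem_biUnion, Finset.mem_inter]
    constructor
    · rintro ⟨hv, k, hk, hvk⟩; exact ⟨k, hk, hvk, hv⟩
    · rintro ⟨k, hk, hvk, hv⟩; exact ⟨hv, k, hk, hvk⟩
  rw [e, Finset.card_biUnion]
  · rw [Finset.sum_congr rfl (g := fun _ => 1)]
    · simp
    · intro k hk
      have hk' := (Finset.mem_filter.mp hk).2
      exact hP.p8l k hk'.1 hk'.2.2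
  · intro k hk l hl hkl
    rw [Function.onFun, Finset.disjoint_left]
    intro v hv hv'
    rw [Finset.mem_inter] at hv hv'
    have e1 := par_exit h hv.2 hk hv.1
    have e2 := par_exit h hv.2 hl hv'.1
    rw [e1] at e2
    have h1 : 37 * k + 9 ∈ ({37 * l + 9, 37 * l + 27} : Finset ℤ) := by
      rw [← e2]; simp
    rw [Finset.mem_insert, Finset.mem_singleton] at h1
    omega

/-- count of one block in terms of five bits -/
def par_cnt (z s t u y : Bool) : ℕ :=
  ((Finset.range 37).filter (fun j : ℕ => (j = 0 ∧ z = true) ∨ (1 ≤ j ∧ j ≤ 9 ∧ s = true) ∨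
    (10 ≤ j ∧ j ≤ 26 ∧ t = true) ∨ (27 ≤ j ∧ j ≤ 35 ∧ u = true) ∨ (j = 36 ∧ y = true))).card

theorem par_bits : ∀ z s t u y : Bool, (s || u) = true → (t = true → s = true ∧ u = true) →
    par_cnt z s t u y % 2 =
      (1 + (if (s && u && !t) = true then 1 else 0) + (if z = true then 1 else 0) +
        (if y = true then 1 else 0)) % 2 := by
  unfold par_cnt
  decide

/-- parity of one block -/
theorem par_block {w : ℤ → V} {a b c : ℤ → Finset V} {A : Finset V} {B : Finset ℤ}
    (hP : Pat w a b c A B) (k : ℤ) (hk : k ∈ blk B) :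
    (B.filter (fun p => p / 37 = k)).card % 2 =
      (1 + (if k ∈ tee B then 1 else 0) + (if 37 * k ∈ B then 1 else 0) +
        (if 37 * k + 36 ∈ B then 1 else 0)) % 2 := by
  have hcard : (B.filter (fun p => p / 37 = k)).card =
      par_cnt (decide (37 * k ∈ B)) (decide (37 * k + 9 ∈ B)) (decide (37 * k + 10 ∈ B))
        (decide (37 * k + 27 ∈ B)) (decide (37 * k + 36 ∈ B)) := by
    unfold par_cnt
    symm
    refine Finset.card_bij (fun (j : ℕ) _ => 37 * k + (j : ℤ)) ?_ ?_ ?_
    · intro j hj
      rw [Finset.mem_filter, Finset.mem_range] at hj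
      simp only [decide_eq_true_eq] at hj
      rw [Finset.mem_filter]
      refine ⟨?_, by omega⟩
      rcases hj.2 with h1 | h1 | h1 | h1 | h1
      · rw [h1.1]; simpa using h1.2
      · exact hP.p3l k j (by omega) (by omega) h1.2.2
      · exact hP.p3m k j (by omega) (by omega) (Or.inl h1.2.2)
      · exact hP.p3r k j (by omega) (by omega) h1.2.2
      · rw [h1.1]; exact h1.2
    · intro i _ j _ hij
      omega
    · intro p hp
      rw [Finset.mem_filter] at hp
      refine ⟨(p % 37).toNat, ?_, ?_⟩
      · rw [Finset.mem_filter, Finset.mem_range]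
        simp only [decide_eq_true_eq]
        refine ⟨by omega, ?_⟩
        have e : 37 * k + p % 37 = p := by omega
        have hpB : 37 * k + p % 37 ∈ B := by rw [e]; exact hp.1
        have hr : 0 ≤ p % 37 ∧ p % 37 ≤ 36 := by omega
        by_cases h0 : p % 37 = 0
        · left
          refine ⟨by omega, ?_⟩
          rw [h0, add_zero] at hpB
          exact hpB
        · by_cases h1 : p % 37 ≤ 9
          · right; left
            exact ⟨by omega, by omega, hP.p2l k _ hr.1 h1 hpB⟩
          · by_cases h2 : p % 37 ≤ 26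
            · right; right; left
              exact ⟨by omega, by omega, (hP.p2m k _ (by omega) h2 hpB).2.1⟩
            · by_cases h3 : p % 37 ≤ 35
              · right; right; right; left
                exact ⟨by omega, by omega, hP.p2r k _ (by omega) (by omega) hpB⟩
              · right; right; right; right
                have h4 : p % 37 = 36 := by omega
                refine ⟨by omega, ?_⟩
                rw [h4] at hpB
                exact hpB
      · have : ((p % 37).toNat : ℤ) = p % 37 := Int.toNat_of_nonneg (by omega)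
        rw [this]; omega
  rw [hcard, par_bits]
  · have hiff : (k ∈ tee B) ↔ ((decide (37 * k + 9 ∈ B) && decide (37 * k + 27 ∈ B) &&
        !decide (37 * k + 10 ∈ B)) = true) := by
      unfold tee
      simp only [Finset.mem_filter, hk, true_and, Bool.and_eq_true, decide_eq_true_eq,
        Bool.not_eq_true', decide_eq_false_iff_not]
      tauto
    simp only [hiff, decide_eq_true_eq]
  · -- one of the two positions is visited
    unfold blk at hk
    obtain ⟨p, hp, hpk⟩ := Finset.mem_image.mp hk
    have e : 37 * k + p % 37 = p := by omega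
    have hpB : 37 * k + p % 37 ∈ B := by rw [e]; exact hp
    rw [Bool.or_eq_true, decide_eq_true_eq, decide_eq_true_eq]
    by_cases h1 : p % 37 ≤ 9
    · exact Or.inl (hP.p2l k _ (by omega) h1 hpB)
    · by_cases h2 : p % 37 ≤ 26
      · exact Or.inl (hP.p2m k _ (by omega) h2 hpB).1
      · exact Or.inr (hP.p2r k _ (by omega) (by omega) hpB)
  · rw [decide_eq_true_eq, decide_eq_true_eq, decide_eq_true_eq]
    intro h1
    have := hP.p2m k 10 (by norm_num) (by norm_num) h1
    exact ⟨this.1, this.2.2.2⟩

theorem par_boundary {w : ℤ → V} {a b c : ℤ → Finset V} {A : Finset V} {B : Finset ℤ}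
    (hP : Pat w a b c A B) :
    ((blk B).filter (fun k => 37 * k ∈ B)).card =
      ((blk B).filter (fun k => 37 * k + 36 ∈ B)).card := by
  refine Finset.card_bij (fun k _ => k - 1) ?_ ?_ ?_
  · intro k hk
    rw [Finset.mem_filter] at hk ⊢
    have h1 := (hP.p6 k).mp hk.2
    have h2 : 37 * (k - 1) + 36 = 37 * k - 1 := by ring
    refine ⟨?_, by rw [h2]; exact h1⟩
    unfold blk
    exact Finset.mem_image.mpr ⟨37 * k - 1, h1, by omega⟩
  · intro k _ l _ hkl
    omega
  · intro k hk
    rw [Finset.mem_filter] at hk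
    have h2 : 37 * (k + 1) - 1 = 37 * k + 36 := by ring
    have h1 : 37 * (k + 1) ∈ B := (hP.p6 (k + 1)).mpr (by rw [h2]; exact hk.2)
    refine ⟨k + 1, Finset.mem_filter.mpr ⟨?_, h1⟩, by ring⟩
    unfold blk
    exact Finset.mem_image.mpr ⟨37 * (k + 1), h1, by omega⟩

/-- the projection preserves the parity of the number of vertices -/
theorem prj_card {G : SimpleGraph V} {D : V → Prop} {w : ℤ → V} {a b c : ℤ → Finset V}
    (hL : Lay G D w a b c) (hDU : ∀ k, ∀ x ∈ a k ∪ b k ∪ c k, D x)
    {A : Finset V} {B : Finset ℤ} (hA : ∀ v ∈ A, D v)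
    (h : Hol G (lb w a b c) A B) (hP : Pat w a b c A B) :
    Even (A.card + B.card) ↔ Even (prj w a b c A B).card := by
  classical
  -- the size of the projection
  have hdisj : Disjoint (A \ xt a b c A B) ((blk B).image w) := by
    rw [Finset.disjoint_left]
    intro v hv hv'
    obtain ⟨k, hk, rfl⟩ := Finset.mem_image.mp hv'
    unfold blk at hk
    obtain ⟨p, hp, rfl⟩ := Finset.mem_image.mp hk
    have e : 37 * (p / 37) + p % 37 = p := by omega
    exact hP.p1 (p / 37) (p % 37) (by omega) (by omega) (by rw [e]; exact hp)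
      (Finset.mem_sdiff.mp hv).1
  have hxtA : xt a b c A B ⊆ A := by
    unfold xt
    exact Finset.filter_subset _ _
  have hcard : (prj w a b c A B).card + (tee B).card = A.card + (blk B).card := by
    unfold prj
    rw [Finset.card_union_of_disjoint hdisj, Finset.card_image_of_injective _ hL.winj,
      Finset.card_sdiff_of_subset hxtA, par_xt h hP]
    have : (tee B).card ≤ A.card := by
      rw [← par_xt h hP]; exact Finset.card_le_card hxtA
    omega
  -- the size of `B`
  have hB : B.card % 2 = ((blk B).card + (tee B).card) % 2 := by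
    have h1 : B.card = ∑ k ∈ blk B, (B.filter (fun p => p / 37 = k)).card :=
      Finset.card_eq_sum_card_image _ _
    have h2 : (∑ k ∈ blk B, (B.filter (fun p => p / 37 = k)).card) % 2 =
        (∑ k ∈ blk B, (1 + (if k ∈ tee B then 1 else 0) + (if 37 * k ∈ B then 1 else 0) +
        (if 37 * k + 36 ∈ B then 1 else 0))) % 2 := by
      rw [Finset.sum_nat_mod, Finset.sum_nat_mod (blk B) 2 (fun k =>
        1 + (if k ∈ tee B then 1 else 0) + (if 37 * k ∈ B then 1 else 0) +
        (if 37 * k + 36 ∈ B then 1 else 0))]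
      congr 1
      exact Finset.sum_congr rfl fun k hk => par_block hP k hk
    have h3 : (∑ k ∈ blk B, (1 + (if k ∈ tee B then 1 else 0) + (if 37 * k ∈ B then 1 else 0) +
        (if 37 * k + 36 ∈ B then 1 else 0))) = (blk B).card + (tee B).card +
          2 * ((blk B).filter (fun k => 37 * k ∈ B)).card := by
      rw [Finset.sum_add_distrib, Finset.sum_add_distrib, Finset.sum_add_distrib]
      rw [← Finset.card_filter, ← Finset.card_filter, ← Finset.card_filter, ← par_boundary hP]
      have h4 : (blk B).filter (fun k => k ∈ tee B) = tee B := by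
        ext k
        rw [Finset.mem_filter]
        constructor
        · exact fun h => h.2
        · intro h
          exact ⟨(Finset.mem_filter.mp h).1, h⟩
      rw [h4]
      simp
      ring
    rw [h1, h2, h3]
    omega
  rw [Nat.even_iff, Nat.even_iff]
  omega

end Pool.Agent.Helper32.EH
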