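import Pool.Agent.Helper32.EH.Near

set_option autoImplicit false

namespace Pool.Agent.Helper32.EH

theorem UFacts_mem_lab {W : List P} {wl w wr x : P} {j : ℤ} (h : x ∈ lab W wl w wr j) :
    x ∈ W ∨ x = wl ∨ x = w ∨ x = wr := by
  unfold lab at h
  split_ifs at h
  · simp only [List.mem_cons, List.not_mem_nil, or_false] at h
    tauto
  · simp only [List.mem_cons, List.not_mem_nil, or_false] at h
    tauto
  · simp only [List.mem_cons, List.not_mem_nil, or_false] at h
    tauto
  · exact Or.inl h
  · exact Or.inl (List.mem_of_mem_take h)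
  · rcases List.mem_append.1 h with h | h
    · exact Or.inl (List.mem_of_mem_drop h)
    · exact Or.inr (Or.inr (Or.inl (List.mem_singleton.1 h)))
  · exact Or.inl (List.mem_of_mem_drop h)
  · rcases List.mem_append.1 h with h | h
    · exact Or.inl (List.mem_of_mem_take h)
    · exact Or.inr (Or.inr (Or.inl (List.mem_singleton.1 h)))
  · exact absurd h List.not_mem_nil

theorem U_lt {m : ℕ} {i : ℤ} {x : P} (h : x ∈ U m i) : x.1 < m := by
  induction m generalizing i x with
  | zero => exact absurd h List.not_mem_nil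
  | succ m ih =>
    rcases UFacts_mem_lab h with h | h | h | h
    · exact (ih h).trans (Nat.lt_succ_self m)
    · rw [h]
      exact Nat.lt_succ_self m
    · rw [h]
      exact Nat.lt_succ_self m
    · rw [h]
      exact Nat.lt_succ_self m

theorem U_len (m : ℕ) (i : ℤ) : (U m i).length ≤ 3 := by
  induction m generalizing i with
  | zero => exact Nat.zero_le 3
  | succ m ih =>
    have hW := ih (i / 37)
    change (lab (U m (i / 37)) (m, i / 37 - 1) (m, i / 37) (m, i / 37 + 1) (i % 37)).length ≤ 3
    unfold lab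
    split_ifs <;> first
      | omega
      | (simp only [List.length_append, List.length_take, List.length_drop, List.length_cons,
          List.length_nil]; omega)

theorem UFacts_drop_app {W : List P} {w : P} {R : P → P → Prop} (hW : W.Pairwise R)
    (hw : ∀ x ∈ W, R x w) (n : ℕ) : (W.drop n ++ [w]).Pairwise R := by
  rw [List.pairwise_append]
  refine ⟨hW.sublist (List.drop_sublist n W), List.pairwise_singleton R w, ?_⟩
  intro x hx y hy
  rw [List.mem_singleton.1 hy]
  exact hw x (List.mem_of_mem_drop hx)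

theorem UFacts_take_app {W : List P} {w : P} {R : P → P → Prop} (hW : W.Pairwise R)
    (hw : ∀ x ∈ W, R x w) (n : ℕ) : (W.take n ++ [w]).Pairwise R := by
  rw [List.pairwise_append]
  refine ⟨hW.sublist (List.take_sublist n W), List.pairwise_singleton R w, ?_⟩
  intro x hx y hy
  rw [List.mem_singleton.1 hy]
  exact hw x (List.mem_of_mem_take hx)

theorem UFacts_lab_pairwise {W : List P} {wl w wr : P} {R : P → P → Prop} (j : ℤ)
    (hW : W.Pairwise R) (hw : ∀ x ∈ W, R x w) (h1 : R wl w) (h2 : R w wr) :
    (lab W wl w wr j).Pairwise R := by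
  unfold lab
  split_ifs
  · exact List.pairwise_pair.2 h1
  · exact List.pairwise_pair.2 h2
  · exact List.pairwise_singleton R w
  · exact hW
  · exact hW.sublist (List.take_sublist 1 W)
  · exact UFacts_drop_app hW hw 1
  · exact hW.sublist (List.drop_sublist 2 W)
  · exact UFacts_take_app hW hw 2
  · exact List.Pairwise.nil

theorem U_sorted (m : ℕ) (i : ℤ) : (U m i).Pairwise older := by
  induction m generalizing i with
  | zero => exact List.Pairwise.nil
  | succ m ih =>
    refine UFacts_lab_pairwise (i % 37) (ih (i / 37)) ?_ ?_ ?_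
    · intro x hx
      exact Or.inl (U_lt hx)
    · exact Or.inr ⟨rfl, by dsimp only; omega⟩
    · exact Or.inr ⟨rfl, by dsimp only; omega⟩

theorem UFacts_lab_nil {W : List P} {wl w wr : P} {j : ℤ}
    (h : j ≠ 1 ∧ j ≠ 35 ∧ j ≠ 4 ∧ j ≠ 7 ∧ j ≠ 22 ∧ j ≠ 29 ∧ j ≠ 32 ∧ j ≠ 9 ∧ j ≠ 24 ∧ j ≠ 27 ∧
      j ≠ 12 ∧ j ≠ 14 ∧ j ≠ 17 ∧ j ≠ 19) : lab W wl w wr j = [] := by
  unfold lab
  rw [if_neg (by omega), if_neg (by omega), if_neg (by omega), if_neg (by omega),
    if_neg (by omega), if_neg (by omega), if_neg (by omega), if_neg (by omega)]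

theorem U_gap (m : ℕ) (i : ℤ) : U m i = [] ∨ U m (i + 1) = [] := by
  cases m with
  | zero => exact Or.inl rfl
  | succ m =>
    by_cases h : i % 37 ≠ 1 ∧ i % 37 ≠ 35 ∧ i % 37 ≠ 4 ∧ i % 37 ≠ 7 ∧ i % 37 ≠ 22 ∧
      i % 37 ≠ 29 ∧ i % 37 ≠ 32 ∧ i % 37 ≠ 9 ∧ i % 37 ≠ 24 ∧ i % 37 ≠ 27 ∧
      i % 37 ≠ 12 ∧ i % 37 ≠ 14 ∧ i % 37 ≠ 17 ∧ i % 37 ≠ 19
    · exact Or.inl (UFacts_lab_nil h)
    · refine Or.inr (UFacts_lab_nil ?_)
      omega

theorem older_trans {x y z : P} (h : older x y) (h' : older y z) : older x z := by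
  unfold older at *
  omega

theorem older_irrefl (x : P) : ¬ older x x := by
  unfold older
  omega

theorem older_total {x y : P} (h : x ≠ y) : older x y ∨ older y x := by
  unfold older
  by_contra hc
  apply h
  refine Prod.ext ?_ ?_ <;> omega

/-- adjacency to an older vertex -/
theorem adj_older {x y : P} (h : older x y) :
    gr.Adj x y ↔ (x ∈ U y.1 y.2 ∨ (x.1 = y.1 ∧ x.2 + 1 = y.2)) := by
  unfold gr
  rw [SimpleGraph.fromRel_adj]
  constructor
  · rintro ⟨_, (h1 | h1) | (h1 | h1)⟩
    · exact Or.inr h1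
    · exact Or.inl h1
    · unfold older at h
      omega
    · have := U_lt h1
      unfold older at h
      omega
  · intro h1
    refine ⟨?_, Or.inl h1.symm⟩
    rintro rfl
    exact older_irrefl _ h

theorem U_adj {m : ℕ} {i : ℤ} {x : P} (h : x ∈ U m i) : gr.Adj x (m, i) :=
  (adj_older (Or.inl (U_lt h))).2 (Or.inl h)

theorem U_clique (m : ℕ) (i : ℤ) : (U m i).Pairwise gr.Adj := by
  induction m generalizing i with
  | zero => exact List.Pairwise.nil
  | succ m ih =>
    refine UFacts_lab_pairwise (i % 37) (ih (i / 37)) (fun x hx => U_adj hx) ?_ ?_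
    · refine (adj_older (x := ((m, i / 37 - 1) : P)) (y := ((m, i / 37) : P))
        (Or.inr ⟨rfl, ?_⟩)).2 (Or.inr ⟨rfl, ?_⟩)
      · dsimp only
        omega
      · dsimp only
        omega
    · refine (adj_older (x := ((m, i / 37) : P)) (y := ((m, i / 37 + 1) : P))
        (Or.inr ⟨rfl, ?_⟩)).2 (Or.inr ⟨rfl, rfl⟩)
      dsimp only
      omega

/-- the two older vertices of a triangle are both in the list of the youngest one -/
theorem tri_mem {p q r : P} (h1 : older p q) (h2 : older q r)
    (a1 : gr.Adj p q) (a2 : gr.Adj p r) (a3 : gr.Adj q r) :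
    p ∈ U r.1 r.2 ∧ q ∈ U r.1 r.2 := by
  have h3 := older_trans h1 h2
  rcases (adj_older h2).1 a3 with hq | hq
  · refine ⟨?_, hq⟩
    rcases (adj_older h3).1 a2 with hp | hp
    · exact hp
    · have := U_lt hq
      unfold older at h1
      omega
  · exfalso
    have hp : p ∈ U r.1 r.2 := by
      rcases (adj_older h3).1 a2 with hp | hp
      · exact hp
      · unfold older at h1
        omega
    have hlt := U_lt hp
    rcases U_gap q.1 q.2 with hg | hg
    · rcases (adj_older h1).1 a1 with h | h
      · rw [hg] at h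
        exact List.not_mem_nil h
      · omega
    · rw [hq.1, hq.2] at hg
      rw [hg] at hp
      exact List.not_mem_nil hp

theorem UFacts_tri {x c y : P} (hxy : older x y) (hcy : older c y) (a1 : gr.Adj c x)
    (a2 : gr.Adj x y) (a3 : gr.Adj c y) : c ∈ U y.1 y.2 := by
  rcases older_total a1.ne with h | h
  · exact (tri_mem h hxy a1 a3 a2).1
  · exact (tri_mem h hcy a1.symm a2 a3).2

theorem UFacts_clique {m : ℕ} {i : ℤ} {x y : P} (hx : x ∈ U m i) (hy : y ∈ U m i)
    (hne : x ≠ y) : gr.Adj x y := by
  have := gr.symm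
  exact (U_clique m i).forall hx hy hne

/-- two nonadjacent common neighbours of an edge are not both older than its younger end -/
theorem young_child {x y c d : P} (h : older x y) (hxy : gr.Adj x y)
    (hcx : gr.Adj c x) (hcy : gr.Adj c y) (hdx : gr.Adj d x) (hdy : gr.Adj d y)
    (hcd : ¬ gr.Adj c d) (hne : c ≠ d) : older y c ∨ older y d := by
  by_contra hc
  rw [not_or] at hc
  have h1 : older c y := (older_total hcy.ne).resolve_right hc.1
  have h2 : older d y := (older_total hdy.ne).resolve_right hc.2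
  exact hcd (UFacts_clique (UFacts_tri h h1 hcx hxy hcy) (UFacts_tri h h2 hdx hxy hdy) hne)

theorem gr_cliqueFree : gr.CliqueFree 5 := by
  intro s hs
  have hcard : s.card = 5 := hs.card_eq
  have hadj := hs.isClique
  have hne : s.Nonempty := by
    rw [← Finset.card_pos]
    omega
  obtain ⟨v, hv, hmax⟩ := Finset.exists_max_image s (fun x => toLex x) hne
  have hold : ∀ x ∈ s, x ≠ v → older x v := by
    intro x hx hxv
    rcases older_total hxv with h | h
    · exact h
    · exfalso
      have h1 := hmax x hx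
      rw [Prod.Lex.toLex_le_toLex] at h1
      unfold older at h
      rcases h1 with h1 | h1
      · omega
      · omega
  have hsub : s.erase v ⊆ (U v.1 v.2).toFinset := by
    intro x hx
    rw [List.mem_toFinset]
    have hxs := Finset.mem_of_mem_erase hx
    have hxv := Finset.ne_of_mem_erase hx
    have h2 : ((s.erase v).erase x).Nonempty := by
      rw [← Finset.card_pos, Finset.card_erase_of_mem hx, Finset.card_erase_of_mem hv]
      omega
    obtain ⟨y, hy⟩ := h2
    have hyx := Finset.ne_of_mem_erase hy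
    have hy1 := Finset.mem_of_mem_erase hy
    have hys := Finset.mem_of_mem_erase hy1
    have hyv := Finset.ne_of_mem_erase hy1
    exact UFacts_tri (hold y hys hyv) (hold x hxs hxv) (hadj hxs hys (Ne.symm hyx))
      (hadj hys hv hyv) (hadj hxs hv hxv)
  have h1 := Finset.card_le_card hsub
  rw [Finset.card_erase_of_mem hv, hcard] at h1
  have h2 := (U v.1 v.2).toFinset_card_le
  have h3 := U_len v.1 v.2
  omega

end Pool.Agent.Helper32.EH
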