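import Pool.Agent.Helper32.EH.Deg
import Pool.Agent.Helper32.EH.Conn
import Pool.Agent.Helper32.EH.Par
import Pool.Agent.Helper32.EH.UFacts

set_option autoImplicit false

namespace Pool.Agent.Helper32.EH

/-- the substitution step preserves the parity property -/
theorem step {V : Type} [DecidableEq V] {G : SimpleGraph V} {D : V → Prop} {w : ℤ → V}
    {a b c : ℤ → Finset V}
    (hL : Lay G D w a b c) (hDU : ∀ k, ∀ x ∈ a k ∪ b k ∪ c k, D x)
    (hG : ∀ S : Finset V, (∀ v ∈ S, D v) → IsCyc G S → Odd S.card)
    {A : Finset V} {B : Finset ℤ} (hA : ∀ v ∈ A, D v) (hne : A.Nonempty ∨ B.Nonempty)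
    (h : Hol G (lb w a b c) A B) : Odd (A.card + B.card) := by
  by_contra hno
  rw [Nat.not_odd_iff_even] at hno
  have hP := pat hL hDU hA h hno
  have hne' : (prj w a b c A B).Nonempty := by
    rcases B.eq_empty_or_nonempty with hB | ⟨p, hp⟩
    · rcases hne with ⟨v, hv⟩ | hh
      · refine ⟨v, ?_⟩
        unfold prj
        rw [Finset.mem_union, Finset.mem_sdiff]
        left
        refine ⟨hv, ?_⟩
        unfold xt tee blk
        rw [Finset.mem_filter]
        rintro ⟨-, k, hk, -⟩
        rw [hB] at hk
        simp at hk
      · rw [hB] at hh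
        exact absurd hh Finset.not_nonempty_empty
    · refine ⟨w (p / 37), ?_⟩
      unfold prj blk
      rw [Finset.mem_union]
      right
      exact Finset.mem_image_of_mem w (Finset.mem_image_of_mem _ hp)
  have hS : IsCyc G (prj w a b c A B) :=
    ⟨hne', prj_deg hL hDU hA h hP, prj_conn hL hDU hA h hP⟩
  have hD : ∀ v ∈ prj w a b c A B, D v := by
    intro v hv
    unfold prj at hv
    rw [Finset.mem_union, Finset.mem_sdiff, Finset.mem_image] at hv
    rcases hv with hv | ⟨k, -, rfl⟩
    · exact hA v hv.1
    · exact hL.wD k
  have ho := hG _ hD hS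
  have he := (prj_card hL hDU hA h hP).1 hno
  exact (Nat.not_even_iff_odd.2 ho) he

/-- the list of the older neighbours, split in three -/
theorem odd_split (W : List P) (hW : W.length ≤ 3) :
    (W.take 1).toFinset ∪ ((W.drop 1).take 1).toFinset ∪ (W.drop 2).toFinset = W.toFinset := by
  match W, hW with
  | [], _ => simp
  | [x], _ => simp
  | [x, y], _ => ext v; simp
  | [x, y, z], _ => ext v; simp

theorem odd_lab (m : ℕ) (p : ℤ) :
    (U (m + 1) p).toFinset = lb (fun k => ((m, k) : P)) (fun k => ((U m k).take 1).toFinset)
      (fun k => (((U m k).drop 1).take 1).toFinset) (fun k => ((U m k).drop 2).toFinset) p := by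
  have hs := odd_split (U m (p / 37)) (U_len m (p / 37))
  have hb : ((U m (p / 37)).drop 1).toFinset = (((U m (p / 37)).drop 1).take 1).toFinset ∪
      ((U m (p / 37)).drop 2).toFinset := by
    have := U_len m (p / 37)
    match U m (p / 37), this with
    | [], _ => simp
    | [x], _ => simp
    | [x, y], _ => ext v; simp
    | [x, y, z], _ => ext v; simp
  have ha : ((U m (p / 37)).take 2).toFinset = ((U m (p / 37)).take 1).toFinset ∪
      (((U m (p / 37)).drop 1).take 1).toFinset := by
    have := U_len m (p / 37)
    match U m (p / 37), this with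
    | [], _ => simp
    | [x], _ => simp
    | [x, y], _ => ext v; simp
    | [x, y, z], _ => ext v; simp
  show (lab (U m (p / 37)) (m, p / 37 - 1) (m, p / 37) (m, p / 37 + 1) (p % 37)).toFinset = _
  unfold lab lb
  split_ifs
  · simp
  · simp
  · simp
  · exact hs.symm
  · rfl
  · rw [List.toFinset_append, hb]
    ext v
    simp only [Finset.mem_union, Finset.mem_insert, List.mem_toFinset, List.mem_cons,
      List.not_mem_nil, or_false]
    tauto
  · rfl
  · rw [List.toFinset_append, ha]
    ext v
    simp only [Finset.mem_union, Finset.mem_insert, List.mem_toFinset, List.mem_cons,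
      List.not_mem_nil, or_false]
    tauto
  · simp

/-- adjacency in the graph -/
theorem odd_adj {x y : P} : gr.Adj x y ↔ x ≠ y ∧
    (((x.1 = y.1 ∧ x.2 + 1 = y.2) ∨ x ∈ U y.1 y.2) ∨
      ((y.1 = x.1 ∧ y.2 + 1 = x.2) ∨ y ∈ U x.1 x.2)) := by
  unfold gr
  rw [SimpleGraph.fromRel_adj]

theorem odd_lay (m : ℕ) : Lay gr (fun v => v.1 ≤ m) (fun k => ((m, k) : P))
    (fun k => ((U m k).take 1).toFinset) (fun k => (((U m k).drop 1).take 1).toFinset)
    (fun k => ((U m k).drop 2).toFinset) := by
  have hs : ∀ k, ((U m k).take 1).toFinset ∪ (((U m k).drop 1).take 1).toFinset ∪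
      ((U m k).drop 2).toFinset = (U m k).toFinset := fun k => odd_split _ (U_len m k)
  have hnd : ∀ k, (U m k).Nodup := by
    intro k
    have h := U_sorted m k
    exact h.imp (fun {x y} hxy => by
      rintro rfl
      exact older_irrefl _ hxy)
  have dis : ∀ k, (∀ x ∈ (U m k).take 1, x ∉ (U m k).drop 1) ∧
      (∀ x ∈ ((U m k).drop 1).take 1, x ∉ (U m k).drop 2) := by
    intro k
    have h := hnd k
    constructor
    · rw [← List.take_append_drop 1 (U m k), List.nodup_append] at h
      intro x hx hx'
      exact h.2.2 x hx x hx' rfl
    · have h1 := h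
      rw [← List.take_append_drop 1 (U m k), List.nodup_append] at h1
      have h2 := h1.2.1
      rw [← List.take_append_drop 1 ((U m k).drop 1), List.nodup_append] at h2
      intro x hx hx'
      refine h2.2.2 x hx x ?_ rfl
      rw [List.drop_drop]
      exact hx'
  constructor
  · intro k l hkl
    exact congrArg Prod.snd hkl
  · intro k
    exact le_rfl
  · intro k v hv
    simp only [hs, List.mem_toFinset]
    rw [odd_adj]
    constructor
    · rintro ⟨h1, (⟨h2, h3⟩ | h2) | (⟨h2, h3⟩ | h2)⟩
      · right; left
        exact Prod.ext h2.symm h3.symm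
      · have := U_lt h2
        simp only at this hv
        omega
      · left
        refine Prod.ext h2 ?_
        simp only at h3 ⊢
        omega
      · right; right
        exact h2
    · rintro (rfl | rfl | h1)
      · refine ⟨?_, Or.inr (Or.inl ⟨rfl, ?_⟩)⟩
        · intro h
          have := congrArg Prod.snd h
          simp only at this
          omega
        · simp
      · refine ⟨?_, Or.inl (Or.inl ⟨rfl, rfl⟩)⟩
        intro h
        have := congrArg Prod.snd h
        simp only at this
        omega
      · refine ⟨?_, Or.inr (Or.inr h1)⟩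
        rintro rfl
        have := U_lt h1
        simp only at this
        omega
  · intro k x hx y hy hxy
    simp only [hs, List.mem_toFinset] at hx hy
    have h := U_clique m k
    have : Std.Symm gr.Adj := ⟨fun x y hh => hh.symm⟩
    exact h.forall hx hy hxy
  · intro k l hl
    simp only [hs, List.mem_toFinset] at hl
    have := U_lt hl
    simp only at this
    omega
  · intro k
    refine (List.toFinset_card_le _).trans ?_
    rw [List.length_take]
    exact min_le_left _ _
  · intro k
    refine (List.toFinset_card_le _).trans ?_
    rw [List.length_take]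
    exact min_le_left _ _
  · intro k
    refine (List.toFinset_card_le _).trans ?_
    rw [List.length_drop]
    have := U_len m k
    omega
  · intro k
    rw [Finset.disjoint_left]
    intro x hx hx'
    rw [List.mem_toFinset] at hx hx'
    exact (dis k).1 x hx (List.mem_of_mem_take hx')
  · intro k
    rw [Finset.disjoint_left]
    intro x hx hx'
    rw [List.mem_toFinset] at hx hx'
    refine (dis k).1 x hx ?_
    have e : (U m k).drop 2 = ((U m k).drop 1).drop 1 := by rw [List.drop_drop]
    rw [e] at hx'
    exact List.mem_of_mem_drop hx'
  · intro k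
    rw [Finset.disjoint_left]
    intro x hx hx'
    rw [List.mem_toFinset] at hx hx'
    exact (dis k).2 x hx hx'
  · intro k
    simp only [hs]
    rcases U_gap m k with h | h
    · left; rw [h]; rfl
    · right; rw [h]; rfl

/-- all cycles of the layered graph are odd -/
theorem gr_odd_aux (m : ℕ) : ∀ S : Finset P, (∀ v ∈ S, v.1 ≤ m) → IsCyc gr S → Odd S.card := by
  induction m with
  | zero =>
    intro S hS h
    exfalso
    obtain ⟨v, hv, hmax⟩ := Finset.exists_max_image S (fun v => v.2) h.ne
    have hsub : nb gr S v ⊆ {((0, v.2 - 1) : P)} := by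
      intro x hx
      rw [mem_nb, odd_adj] at hx
      rw [Finset.mem_singleton]
      have h1 := hS v hv
      have h2 := hS x hx.1
      have h3 := hmax x hx.1
      obtain ⟨hxS, hne, (⟨h4, h5⟩ | h4) | (⟨h4, h5⟩ | h4)⟩ := hx
      · have h6 : x.2 ≤ v.2 := h3
        omega
      · have := U_lt h4
        omega
      · refine Prod.ext ?_ ?_
        · show x.1 = 0
          omega
        · show x.2 = v.2 - 1
          omega
      · have := U_lt h4
        omega
    have h1 := h.deg v hv
    have h2 := Finset.card_le_card hsub
    rw [Finset.card_singleton] at h2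
    omega
  | succ m ih =>
    intro S hS h
    obtain ⟨A, hA⟩ : ∃ A : Finset P, A = S.filter (fun v => v.1 ≤ m) := ⟨_, rfl⟩
    obtain ⟨B, hB⟩ : ∃ B : Finset ℤ, B = (S.filter (fun v => v.1 = m + 1)).image Prod.snd :=
      ⟨_, rfl⟩
    have mA : ∀ v, v ∈ A ↔ v ∈ S ∧ v.1 ≤ m := by
      intro v
      rw [hA, Finset.mem_filter]
    have mB : ∀ p, p ∈ B ↔ ((m + 1, p) : P) ∈ S := by
      intro p
      rw [hB, Finset.mem_image]
      constructor
      · rintro ⟨x, hx, rfl⟩
        rw [Finset.mem_filter] at hx
        have e : ((m + 1, x.2) : P) = x := Prod.ext hx.2.symm rfl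
        rw [e]
        exact hx.1
      · intro hp
        exact ⟨(m + 1, p), Finset.mem_filter.2 ⟨hp, rfl⟩, rfl⟩
    have hcase : ∀ v ∈ S, v ∈ A ∨ ∃ p ∈ B, v = (m + 1, p) := by
      intro v hv
      by_cases hle : v.1 ≤ m
      · exact Or.inl ((mA v).2 ⟨hv, hle⟩)
      · right
        have h1 := hS v hv
        have e : v = ((m + 1, v.2) : P) := Prod.ext (by show v.1 = m + 1; omega) rfl
        refine ⟨v.2, (mB v.2).2 ?_, e⟩
        rw [← e]
        exact hv
    obtain ⟨L, hLd⟩ : ∃ L, L = lb (fun k => ((m, k) : P)) (fun k => ((U m k).take 1).toFinset)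
      (fun k => (((U m k).drop 1).take 1).toFinset) (fun k => ((U m k).drop 2).toFinset) :=
      ⟨_, rfl⟩
    have adjAB : ∀ v, v.1 ≤ m → ∀ p : ℤ, (gr.Adj v (m + 1, p) ↔ v ∈ L p) := by
      intro v hv p
      rw [hLd, ← odd_lab m p, List.mem_toFinset, odd_adj]
      constructor
      · rintro ⟨h1, (⟨h2, h3⟩ | h2) | (⟨h2, h3⟩ | h2)⟩
        · simp only at h2
          omega
        · exact h2
        · simp only at h2
          omega
        · have := U_lt h2
          simp only at this
          omega
      · intro h1
        refine ⟨?_, Or.inl (Or.inr h1)⟩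
        rintro rfl
        simp only at hv
        omega
    have adjBB : ∀ p q : ℤ, (gr.Adj ((m + 1, p) : P) (m + 1, q) ↔ q = p + 1 ∨ q = p - 1) := by
      intro p q
      rw [odd_adj]
      constructor
      · rintro ⟨h1, (⟨h2, h3⟩ | h2) | (⟨h2, h3⟩ | h2)⟩
        · simp only at h3
          omega
        · have := U_lt h2
          simp only at this
          omega
        · simp only at h3
          omega
        · have := U_lt h2
          simp only at this
          omega
      · rintro (rfl | rfl)
        · refine ⟨?_, Or.inl (Or.inl ⟨rfl, rfl⟩)⟩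
          intro hh
          have := congrArg Prod.snd hh
          simp only at this
          omega
        · refine ⟨?_, Or.inr (Or.inl ⟨rfl, ?_⟩)⟩
          · intro hh
            have := congrArg Prod.snd hh
            simp only at this
            omega
          · simp
    have hinj : Function.Injective (fun p : ℤ => ((m + 1, p) : P)) := by
      intro p q hpq
      exact congrArg Prod.snd hpq
    have hol : Hol gr L A B := by
      constructor
      · intro p hp
        have hpS := (mB p).1 hp
        have hd := h.deg _ hpS
        have e : nb gr S ((m + 1, p) : P) = (L p ∩ A) ∪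
            (({p - 1, p + 1} : Finset ℤ).filter (fun q => q ∈ B)).image
              (fun q => ((m + 1, q) : P)) := by
          ext x
          rw [mem_nb, Finset.mem_union, Finset.mem_inter, Finset.mem_image]
          constructor
          · rintro ⟨hx, hadj⟩
            rcases hcase x hx with h1 | ⟨q, hq, rfl⟩
            · left
              exact ⟨(adjAB x ((mA x).1 h1).2 p).1 hadj.symm, h1⟩
            · right
              refine ⟨q, ?_, rfl⟩
              rw [Finset.mem_filter, Finset.mem_insert, Finset.mem_singleton]
              refine ⟨?_, hq⟩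
              rcases (adjBB p q).1 hadj with h1 | h1
              · exact Or.inr h1
              · exact Or.inl h1
          · rintro (⟨h1, h2⟩ | ⟨q, hq, rfl⟩)
            · exact ⟨((mA x).1 h2).1, ((adjAB x ((mA x).1 h2).2 p).2 h1).symm⟩
            · rw [Finset.mem_filter, Finset.mem_insert, Finset.mem_singleton] at hq
              refine ⟨(mB q).1 hq.2, (adjBB p q).2 ?_⟩
              rcases hq.1 with h1 | h1
              · exact Or.inr h1
              · exact Or.inl h1
        rw [e, Finset.card_union_of_disjoint, Finset.card_image_of_injective _ hinj] at hd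
        · have e2 : (({p - 1, p + 1} : Finset ℤ).filter (fun q => q ∈ B)).card =
              (if p - 1 ∈ B then 1 else 0) + (if p + 1 ∈ B then 1 else 0) := by
            rw [Finset.card_filter, Finset.sum_pair (by omega)]
          omega
        · rw [Finset.disjoint_left]
          intro x hx hx'
          rw [Finset.mem_inter] at hx
          rw [Finset.mem_image] at hx'
          obtain ⟨q, -, rfl⟩ := hx'
          have := ((mA _).1 hx.2).2
          simp only at this
          omega
      · intro v hv
        have hvS := (mA v).1 hv
        have hd := h.deg v hvS.1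
        have e : nb gr S v = nb gr A v ∪ (B.filter (fun p => v ∈ L p)).image
            (fun q => ((m + 1, q) : P)) := by
          ext x
          rw [mem_nb, Finset.mem_union, mem_nb, Finset.mem_image]
          constructor
          · rintro ⟨hx, hadj⟩
            rcases hcase x hx with h1 | ⟨q, hq, rfl⟩
            · exact Or.inl ⟨h1, hadj⟩
            · right
              exact ⟨q, Finset.mem_filter.2 ⟨hq, (adjAB v hvS.2 q).1 hadj⟩, rfl⟩
          · rintro (⟨h1, h2⟩ | ⟨q, hq, rfl⟩)
            · exact ⟨((mA x).1 h1).1, h2⟩
            · rw [Finset.mem_filter] at hq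
              exact ⟨(mB q).1 hq.1, (adjAB v hvS.2 q).2 hq.2⟩
        rw [e, Finset.card_union_of_disjoint, Finset.card_image_of_injective _ hinj] at hd
        · exact hd
        · rw [Finset.disjoint_left]
          intro x hx hx'
          rw [mem_nb] at hx
          rw [Finset.mem_image] at hx'
          obtain ⟨q, -, rfl⟩ := hx'
          have := ((mA _).1 hx.1).2
          simp only at this
          omega
      · intro A' hA' B' hB' hne c1 c2 c3 c4
        have hT := h.conn (A' ∪ B'.image (fun q => ((m + 1, q) : P))) (by
            intro x hx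
            rw [Finset.mem_union, Finset.mem_image] at hx
            rcases hx with hx | ⟨q, hq, rfl⟩
            · exact ((mA x).1 (hA' hx)).1
            · exact (mB q).1 (hB' hq)) (by
            rcases hne with ⟨v, hv⟩ | ⟨p, hp⟩
            · exact ⟨v, Finset.mem_union_left _ hv⟩
            · exact ⟨(m + 1, p), Finset.mem_union_right _ (Finset.mem_image_of_mem _ hp)⟩) (by
            intro u hu v hv huv
            rw [Finset.mem_union, Finset.mem_image] at hu ⊢
            rcases hu with hu | ⟨q, hq, rfl⟩
            · rcases hcase v hv with h1 | ⟨p, hp, rfl⟩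
              · exact Or.inl (c1 u hu v h1 huv)
              · exact Or.inr ⟨p, c2 u hu p hp ((adjAB u ((mA u).1 (hA' hu)).2 p).1 huv), rfl⟩
            · rcases hcase v hv with h1 | ⟨p, hp, rfl⟩
              · exact Or.inl (c3 q hq v h1 ((adjAB v ((mA v).1 h1).2 q).1 huv.symm))
              · exact Or.inr ⟨p, c4 q hq p hp ((adjBB q p).1 huv), rfl⟩)
        constructor
        · apply Finset.Subset.antisymm hA'
          intro x hx
          have hx' := (mA x).1 hx
          have : x ∈ A' ∪ B'.image (fun q => ((m + 1, q) : P)) := by
            rw [hT]; exact hx'.1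
          rw [Finset.mem_union, Finset.mem_image] at this
          rcases this with h1 | ⟨q, -, rfl⟩
          · exact h1
          · have := hx'.2
            simp only at this
            omega
        · apply Finset.Subset.antisymm hB'
          intro p hp
          have hp' := (mB p).1 hp
          have : ((m + 1, p) : P) ∈ A' ∪ B'.image (fun q => ((m + 1, q) : P)) := by
            rw [hT]; exact hp'
          rw [Finset.mem_union, Finset.mem_image] at this
          rcases this with h1 | ⟨q, hq, he⟩
          · have := ((mA _).1 (hA' h1)).2
            simp only at this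
            omega
          · have := congrArg Prod.snd he
            simp only at this
            rw [← this]
            exact hq
    have hcard : S.card = A.card + B.card := by
      have e : S = A ∪ B.image (fun q => ((m + 1, q) : P)) := by
        ext x
        rw [Finset.mem_union, Finset.mem_image]
        constructor
        · intro hx
          rcases hcase x hx with h1 | ⟨q, hq, rfl⟩
          · exact Or.inl h1
          · exact Or.inr ⟨q, hq, rfl⟩
        · rintro (h1 | ⟨q, hq, rfl⟩)
          · exact ((mA x).1 h1).1
          · exact (mB q).1 hq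
      rw [e, Finset.card_union_of_disjoint, Finset.card_image_of_injective _ hinj]
      rw [Finset.disjoint_left]
      intro x hx hx'
      rw [Finset.mem_image] at hx'
      obtain ⟨q, -, rfl⟩ := hx'
      have := ((mA _).1 hx).2
      simp only at this
      omega
    rw [hcard]
    rw [hLd] at hol
    refine step (odd_lay m) ?_ ih (fun v hv => ((mA v).1 hv).2) ?_ hol
    · intro k x hx
      rw [odd_split _ (U_len m k), List.mem_toFinset] at hx
      have := U_lt hx
      omega
    · obtain ⟨v, hv⟩ := h.ne
      rcases hcase v hv with h1 | ⟨q, hq, -⟩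
      · exact Or.inl ⟨v, h1⟩
      · exact Or.inr ⟨q, hq⟩

/-- all cycles of the layered graph are odd -/
theorem gr_odd (S : Finset P) (h : IsCyc gr S) : Odd S.card := by
  apply gr_odd_aux (S.sup Prod.fst) S _ h
  intro v hv
  exact Finset.le_sup (f := Prod.fst) hv

end Pool.Agent.Helper32.EH
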